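import Pool.Agent.LibBE36F.Defs

/-! ROW N1b : the size of the coefficients in the block. MEDIUM, only real analysis. PLAN. `y = 7/20 * k / log (k+2)`, `e^y ≤ bk k ≤ e^y + 1`, so `y ≤ x := log (bk k + 1) ≤ y + 1` (`e^y + 2 ≤ e^(y+1)` for `y ≥ 1`... or
`e^y ≥ 2`). `log (x + 1) ≤ log (k + 2)` eventually (`x + 1 ≤ y + 2 ≤ k + 2`), so `x log (x+1) ≤ (y + 1) log (k+2) = 7/20 k + log (k+2)`; `7/20 < 0.52 log 2 = 0.36..` (`Real.log_two_gt_d9`), the difference `0.0104.. k` beats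
`log (k + 2) + log (1/s)`. Below: `x + 1 ≥ y = 7/20 k/log(k+2) ≥ (k+2)^(9/10)` eventually (`log (k+2) = o(k^(1/10))`, and `7/20 k ≥ 1/3 (k+2)`), so `log (x + 1) ≥ 9/10 log (k+2)` and `x log (x+1) ≥ 7/20 * 9/10 k = 0.315 k ≥ 0.4 log 2 k = 0.27726 k`.
`Mx_bk`: `cn (bk k) = exp(-z)`, `0.3 k ≤ z ≤ 0.36 k`, `Mx = ⌈exp (z/5)⌉`, `0.08 * log 2 = 0.05545 ≤ 0.06`, `0.36/5 = 0.072 < 0.11 log 2 = 0.0762`. -/

open MeasureTheory Set Filter Topology
open scoped ContDiff unitInterval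

namespace F36

open BGS BR B35

private theorem N1b_lin (c A : ℝ) (hc : 0 < c) :
    ∀ᶠ k : ℕ in atTop, Real.log ((k : ℝ) + 2) + A ≤ c * k := by
  have ht : Tendsto (fun k : ℕ => (k : ℝ) + 2) atTop atTop :=
    tendsto_atTop_add_const_right _ _ tendsto_natCast_atTop_atTop
  have h1 := ht.eventually (Real.isLittleO_log_id_atTop.bound (half_pos hc))
  have h2 : ∀ᶠ k : ℕ in atTop, (2 * (A + c)) / c ≤ (k : ℝ) :=
    tendsto_natCast_atTop_atTop.eventually (eventually_ge_atTop _)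
  filter_upwards [h1, h2] with k hk1 hk2
  have hk0 : (0 : ℝ) ≤ (k : ℝ) := Nat.cast_nonneg k
  rw [id_eq, Real.norm_eq_abs, Real.norm_eq_abs, abs_of_nonneg (by linarith : (0:ℝ) ≤ (k : ℝ) + 2)] at hk1
  have h3 := (le_abs_self _).trans hk1
  rw [div_le_iff₀ hc] at hk2
  nlinarith

private theorem N1b_pow :
    ∀ᶠ k : ℕ in atTop, Real.log ((k : ℝ) + 2) * ((k : ℝ) + 2) ^ (9 / 10 : ℝ) ≤ 7 / 20 * k := by
  have ht : Tendsto (fun k : ℕ => (k : ℝ) + 2) atTop atTop :=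
    tendsto_atTop_add_const_right _ _ tendsto_natCast_atTop_atTop
  have h1 := ht.eventually ((isLittleO_log_rpow_atTop (r := 1 / 10) (by norm_num)).bound
    (by norm_num : (0 : ℝ) < 1 / 4))
  have h2 : ∀ᶠ k : ℕ in atTop, (5 : ℝ) ≤ (k : ℝ) :=
    tendsto_natCast_atTop_atTop.eventually (eventually_ge_atTop _)
  filter_upwards [h1, h2] with k hk1 hk2
  have hk0 : (0 : ℝ) < (k : ℝ) + 2 := by linarith
  rw [Real.norm_eq_abs, Real.norm_eq_abs, abs_of_nonneg (Real.rpow_nonneg hk0.le _)] at hk1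
  have h3 := (le_abs_self _).trans hk1
  have h4 : (0 : ℝ) ≤ ((k : ℝ) + 2) ^ (9 / 10 : ℝ) := Real.rpow_nonneg hk0.le _
  have h5 : ((k : ℝ) + 2) ^ (1 / 10 : ℝ) * ((k : ℝ) + 2) ^ (9 / 10 : ℝ) = (k : ℝ) + 2 := by
    rw [← Real.rpow_add hk0]
    norm_num
  calc Real.log ((k : ℝ) + 2) * ((k : ℝ) + 2) ^ (9 / 10 : ℝ)
      ≤ 1 / 4 * ((k : ℝ) + 2) ^ (1 / 10 : ℝ) * ((k : ℝ) + 2) ^ (9 / 10 : ℝ) :=
        mul_le_mul_of_nonneg_right h3 h4
    _ = 1 / 4 * ((k : ℝ) + 2) := by rw [mul_assoc, h5]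
    _ ≤ 7 / 20 * k := by linarith

/-- the exponent -/
private noncomputable def N1b_z (R : ℕ) : ℝ :=
  Real.log ((R : ℝ) + 1) * Real.log (Real.log ((R : ℝ) + 1) + 1)

private theorem N1b_main : ∀ᶠ k : ℕ in atTop,
    63 / 200 * (k : ℝ) ≤ N1b_z (bk k) ∧
      N1b_z (bk k) ≤ 7 / 20 * (k : ℝ) + Real.log ((k : ℝ) + 2) := by
  have h0 : ∀ᶠ k : ℕ in atTop, (5 : ℝ) ≤ (k : ℝ) :=
    tendsto_natCast_atTop_atTop.eventually (eventually_ge_atTop _)
  filter_upwards [h0, N1b_lin (7 / 20) 0 (by norm_num), N1b_pow] with k hk hlin hpow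
  have hk2 : (0 : ℝ) < (k : ℝ) + 2 := by linarith
  have hL1 : (1 : ℝ) ≤ Real.log ((k : ℝ) + 2) := by
    rw [Real.le_log_iff_exp_le hk2]
    have := Real.exp_one_lt_d9
    linarith
  have hL : (0 : ℝ) < Real.log ((k : ℝ) + 2) := by linarith
  obtain ⟨y, hy⟩ : ∃ y : ℝ, y = 7 / 20 * k / Real.log (k + 2) := ⟨_, rfl⟩
  have hyL : y * Real.log ((k : ℝ) + 2) = 7 / 20 * k := by
    rw [hy]
    field_simp
  have hy1 : 1 ≤ y := by
    rw [hy, le_div_iff₀ hL]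
    linarith
  have hyk : y ≤ 7 / 20 * k := by
    rw [hy]
    exact div_le_self (by positivity) hL1
  have hb1 : Real.exp y ≤ (bk k : ℝ) := by
    rw [hy]
    exact Nat.le_ceil _
  have hb2 : (bk k : ℝ) < Real.exp y + 1 := by
    rw [hy]
    exact Nat.ceil_lt_add_one (Real.exp_pos _).le
  have hb0 : (0 : ℝ) < (bk k : ℝ) + 1 := by
    have := Real.exp_pos y
    linarith
  obtain ⟨x, hx⟩ : ∃ x : ℝ, x = Real.log ((bk k : ℝ) + 1) := ⟨_, rfl⟩
  have hx1 : y ≤ x := by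
    rw [hx, Real.le_log_iff_exp_le hb0]
    linarith
  have hx2 : x ≤ y + 1 := by
    rw [hx, Real.log_le_iff_le_exp hb0, Real.exp_add]
    have h1 : (2.7 : ℝ) < Real.exp 1 := by
      have := Real.exp_one_gt_d9
      linarith
    have h2 : (2 : ℝ) ≤ Real.exp y := by
      have := Real.add_one_le_exp y
      linarith
    nlinarith
  have hx0 : (0 : ℝ) < x + 1 := by linarith
  have hlog0 : 0 ≤ Real.log (x + 1) := Real.log_nonneg (by linarith)
  have hz : N1b_z (bk k) = x * Real.log (x + 1) := by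
    unfold N1b_z
    rw [← hx]
  constructor
  · have h1 : ((k : ℝ) + 2) ^ (9 / 10 : ℝ) ≤ x + 1 := by
      have h2 : ((k : ℝ) + 2) ^ (9 / 10 : ℝ) ≤ y := by
        rw [hy, le_div_iff₀ hL]
        linarith
      linarith
    have h3 : 9 / 10 * Real.log ((k : ℝ) + 2) ≤ Real.log (x + 1) := by
      rw [← Real.log_rpow hk2]
      exact Real.log_le_log (Real.rpow_pos_of_pos hk2 _) h1
    rw [hz]
    calc 63 / 200 * (k : ℝ) = y * (9 / 10 * Real.log ((k : ℝ) + 2)) := by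
          linear_combination -(9 / 10 : ℝ) * hyL
      _ ≤ x * Real.log (x + 1) := mul_le_mul hx1 h3 (by positivity) (by linarith)
  · have h1 : Real.log (x + 1) ≤ Real.log ((k : ℝ) + 2) :=
      Real.log_le_log hx0 (by linarith)
    rw [hz]
    calc x * Real.log (x + 1) ≤ (y + 1) * Real.log ((k : ℝ) + 2) :=
          mul_le_mul hx2 h1 hlog0 (by linarith)
      _ = 7 / 20 * (k : ℝ) + Real.log ((k : ℝ) + 2) := by
          linear_combination hyL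

private theorem N1b_cn (R : ℕ) : cn R = Real.exp (-N1b_z R) := rfl

private theorem N1b_two (c : ℝ) : (2 : ℝ) ^ c = Real.exp (c * Real.log 2) := by
  rw [Real.rpow_def_of_pos (by norm_num), mul_comm]

theorem cn_bk {s : ℝ} (hs : 0 < s) (hs1 : s ≤ 1) : ∀ᶠ k : ℕ in atTop,
    (2 : ℝ) ^ (-(13 / 25 * k : ℝ)) ≤ s * cn (bk k) ∧
      s * cn (bk k) ≤ (2 : ℝ) ^ (-(2 / 5 * k : ℝ)) := by
  filter_upwards [N1b_main, N1b_lin (1 / 100) (-Real.log s) (by norm_num)] with k hk hlin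
  obtain ⟨hk1, hk2⟩ := hk
  have hk0 : (0 : ℝ) ≤ (k : ℝ) := Nat.cast_nonneg k
  have hl1 := Real.log_two_gt_d9
  have hl2 := Real.log_two_lt_d9
  rw [N1b_cn, N1b_two, N1b_two]
  constructor
  · have e : s * Real.exp (-N1b_z (bk k)) = Real.exp (Real.log s + -N1b_z (bk k)) := by
      rw [Real.exp_add, Real.exp_log hs]
    rw [e]
    refine Real.exp_le_exp.2 ?_
    nlinarith
  · calc s * Real.exp (-N1b_z (bk k)) ≤ 1 * Real.exp (-N1b_z (bk k)) :=
          mul_le_mul_of_nonneg_right hs1 (Real.exp_pos _).le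
      _ = Real.exp (-N1b_z (bk k)) := one_mul _
      _ ≤ _ := by
        refine Real.exp_le_exp.2 ?_
        nlinarith

theorem Mx_bk : ∀ᶠ k : ℕ in atTop,
    (2 : ℝ) ^ (2 / 25 * k : ℝ) ≤ Mx (bk k) ∧ (Mx (bk k) : ℝ) ≤ (2 : ℝ) ^ (11 / 100 * k : ℝ) := by
  filter_upwards [N1b_main, N1b_lin (3 / 100) (5 * Real.log 2) (by norm_num)] with k hk hlin
  obtain ⟨hk1, hk2⟩ := hk
  have hk0 : (0 : ℝ) ≤ (k : ℝ) := Nat.cast_nonneg k
  have hl1 := Real.log_two_gt_d9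
  have hl2 := Real.log_two_lt_d9
  have e : cn (bk k) ^ (-(1 / 5) : ℝ) = Real.exp (N1b_z (bk k) / 5) := by
    rw [N1b_cn, ← Real.exp_mul]
    congr 1
    ring
  unfold Mx
  rw [e, N1b_two, N1b_two]
  constructor
  · refine le_trans (Real.exp_le_exp.2 ?_) (Nat.le_ceil _)
    nlinarith
  · have h1 : (1 : ℝ) ≤ Real.exp (N1b_z (bk k) / 5) := by
      refine Real.one_le_exp ?_
      linarith
    have h2 : ((⌈Real.exp (N1b_z (bk k) / 5)⌉₊ : ℕ) : ℝ) ≤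
        Real.exp (Real.log 2 + N1b_z (bk k) / 5) := by
      rw [Real.exp_add, Real.exp_log (by norm_num)]
      have := (Nat.ceil_lt_add_one (Real.exp_pos (N1b_z (bk k) / 5)).le).le
      linarith
    refine h2.trans (Real.exp_le_exp.2 ?_)
    nlinarith

end F36
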