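import Pool.Agent.LibBE36F.Defs

/-! ROW N1c : the scale of the block is less than every power of `T = 2^k` and larger than `exp(k^(1-ε))`. MEDIUM, only real analysis. PLAN. `e^y ≤ bk k + 1 ≤ e^y + 2 ≤ e^(y+1)` with `y = 7/20 * k / log (k+2)` (for `y ≥ 1`).
`bk_sub`: `A (y + 1) ≤ d log 2 k` eventually because `1/log (k+2) → 0`. `Lm κ k = (bk k+1)^κ ≤ e^(κ (y+1))`. `bk_big`: `A exp ((k+1)^(1-ε)) ≤ e^(κ y)`: `(k+1)^(1-ε) + log A ≤ κ 7/20 k/log(k+2)` because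
`k^(-ε) log k → 0`. `Lm_beats`: `C (Lm κ k) ≤ 2^(d k)` and then `exp (C Lm κ k + C k) * exp (-2^(δ k)) ≤ 2^(-B k)`: the exponent is at most `2^(δ k/2) + C k + B k log 2 - 2^(δ k) ≤ 0` eventually.
`sum_bk`: `(bk k + 1)^(-c) ≤ e^(-c y) ≤ e^(-2 log (k+2)) = (k+2)^(-2)` eventually (`c y ≥ 2 log (k+2)` because `k/(log (k+2))^2 → ∞`), `Real.summable_nat_rpow_inv` / `summable_of_isBigO_nat`. -/

open MeasureTheory Set Filter Topology
open scoped ContDiff unitInterval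

namespace F36

open BGS BR B35

/-- the exponent -/
private noncomputable def yk (k : ℕ) : ℝ := 7 / 20 * k / Real.log (k + 2)

/-- the logarithm of the scale -/
private noncomputable def lk (k : ℕ) : ℝ := Real.log ((bk k : ℝ) + 1)

private theorem log2_pos (k : ℕ) : 0 < Real.log ((k : ℝ) + 2) :=
  Real.log_pos (by have : (0 : ℝ) ≤ k := Nat.cast_nonneg k; linarith)

private theorem yk_nonneg (k : ℕ) : 0 ≤ yk k := by
  have h := log2_pos k
  unfold yk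
  positivity

private theorem bk1_pos (k : ℕ) : (0 : ℝ) < (bk k : ℝ) + 1 := by positivity

private theorem lk_ge (k : ℕ) : yk k ≤ lk k := by
  unfold lk
  rw [Real.le_log_iff_exp_le (bk1_pos k)]
  have h : Real.exp (yk k) ≤ (bk k : ℝ) := Nat.le_ceil _
  linarith

private theorem lk_le (k : ℕ) : lk k ≤ yk k + 2 := by
  unfold lk
  rw [Real.log_le_iff_le_exp (bk1_pos k)]
  have h1 : (bk k : ℝ) < Real.exp (yk k) + 1 := Nat.ceil_lt_add_one (Real.exp_pos _).le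
  have h2 : 1 ≤ Real.exp (yk k) := Real.one_le_exp (yk_nonneg k)
  have h3 : (3 : ℝ) ≤ Real.exp 2 := by
    have := Real.add_one_le_exp (2 : ℝ)
    linarith
  rw [Real.exp_add]
  nlinarith [Real.exp_pos (yk k)]

private theorem lk_nonneg (k : ℕ) : 0 ≤ lk k := (yk_nonneg k).trans (lk_ge k)

private theorem Lm_eq (κ : ℝ) (k : ℕ) : Lm κ k = Real.exp (κ * lk k) := by
  unfold Lm lk
  rw [Real.rpow_def_of_pos (bk1_pos k), mul_comm]

private theorem castk : Tendsto (fun k : ℕ => (k : ℝ) + 2) atTop atTop :=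
  tendsto_atTop_add_const_right _ _ tendsto_natCast_atTop_atTop

/-- `A log (k + 2) ≤ (k + 2) ^ r` -/
private theorem log_le_rpow (A : ℝ) {r : ℝ} (hr : 0 < r) : ∀ᶠ k : ℕ in atTop,
    A * Real.log ((k : ℝ) + 2) ≤ ((k : ℝ) + 2) ^ r := by
  have h := (isLittleO_log_rpow_atTop hr).bound (c := (|A| + 1)⁻¹) (by positivity)
  filter_upwards [castk.eventually h] with k hk
  have h1 := log2_pos k
  have h2 : (0 : ℝ) < (k : ℝ) + 2 := by positivity
  rw [Real.norm_of_nonneg h1.le, Real.norm_of_nonneg (Real.rpow_nonneg h2.le r)] at hk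
  have h3 : 0 < |A| + 1 := by positivity
  have h4 : (|A| + 1) * Real.log ((k : ℝ) + 2) ≤ ((k : ℝ) + 2) ^ r := by
    calc (|A| + 1) * Real.log ((k : ℝ) + 2) ≤ (|A| + 1) * ((|A| + 1)⁻¹ * ((k : ℝ) + 2) ^ r) :=
          mul_le_mul_of_nonneg_left hk h3.le
      _ = ((k : ℝ) + 2) ^ r := by rw [← mul_assoc, mul_inv_cancel₀ h3.ne', one_mul]
  have h5 : A * Real.log ((k : ℝ) + 2) ≤ (|A| + 1) * Real.log ((k : ℝ) + 2) :=
    mul_le_mul_of_nonneg_right ((le_abs_self A).trans (by linarith)) h1.le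
  linarith

/-- `A (k + 2) ^ (1 - ε) ≤ log (bk k + 1)` -/
private theorem pow_le_lk (A : ℝ) {ε : ℝ} (hε : 0 < ε) : ∀ᶠ k : ℕ in atTop,
    A * ((k : ℝ) + 2) ^ (1 - ε) ≤ lk k := by
  filter_upwards [log_le_rpow (40 / 7 * |A|) hε, eventually_ge_atTop 2] with k hk hk2
  refine le_trans ?_ (lk_ge k)
  have h1 := log2_pos k
  have h2 : (0 : ℝ) < (k : ℝ) + 2 := by positivity
  have h3 : (2 : ℝ) ≤ k := by exact_mod_cast hk2
  have h4 : 0 < ((k : ℝ) + 2) ^ (1 - ε) := Real.rpow_pos_of_pos h2 _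
  unfold yk
  rw [le_div_iff₀ h1]
  have h5 : A * ((k : ℝ) + 2) ^ (1 - ε) * Real.log ((k : ℝ) + 2) ≤
      |A| * ((k : ℝ) + 2) ^ (1 - ε) * Real.log ((k : ℝ) + 2) :=
    mul_le_mul_of_nonneg_right (mul_le_mul_of_nonneg_right (le_abs_self A) h4.le) h1.le
  have h6 : ((k : ℝ) + 2) ^ (1 - ε) * (40 / 7 * |A| * Real.log ((k : ℝ) + 2)) ≤
      ((k : ℝ) + 2) ^ (1 - ε) * ((k : ℝ) + 2) ^ ε := mul_le_mul_of_nonneg_left hk h4.le
  rw [← Real.rpow_add h2, sub_add_cancel, Real.rpow_one] at h6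
  nlinarith

private theorem one_le_pow2 {ε : ℝ} (hε : ε ≤ 1) (k : ℕ) : 1 ≤ ((k : ℝ) + 2) ^ (1 - ε) :=
  Real.one_le_rpow (by have : (0 : ℝ) ≤ k := Nat.cast_nonneg k; linarith) (by linarith)

private theorem E1' (A : ℝ) : ∀ᶠ k : ℕ in atTop, A ≤ lk k := by
  filter_upwards [pow_le_lk A one_pos] with k hk
  rw [sub_self, Real.rpow_zero, mul_one] at hk
  exact hk

private theorem E4' (A : ℝ) : ∀ᶠ k : ℕ in atTop, A * Real.log ((k : ℝ) + 2) + A ≤ lk k := by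
  filter_upwards [pow_le_lk (2 * |A|) (half_pos one_pos), log_le_rpow 1 (half_pos one_pos)]
    with k h1 h2
  have e : (1 : ℝ) - 1 / 2 = 1 / 2 := by norm_num
  rw [e] at h1
  have h3 : 1 ≤ ((k : ℝ) + 2) ^ (1 / 2 : ℝ) := by
    have := one_le_pow2 (ε := 1 / 2) (by norm_num) k
    rwa [e] at this
  have h4 := log2_pos k
  rw [one_mul] at h2
  have h5 : A * Real.log ((k : ℝ) + 2) ≤ |A| * ((k : ℝ) + 2) ^ (1 / 2 : ℝ) :=
    (mul_le_mul_of_nonneg_right (le_abs_self A) h4.le).trans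
      (mul_le_mul_of_nonneg_left h2 (abs_nonneg A))
  have h6 : A ≤ |A| * ((k : ℝ) + 2) ^ (1 / 2 : ℝ) := by
    have := mul_le_mul_of_nonneg_left h3 (abs_nonneg A)
    rw [mul_one] at this
    exact (le_abs_self A).trans this
  linarith

private theorem E2' (A : ℝ) {d : ℝ} (hd : 0 < d) : ∀ᶠ k : ℕ in atTop,
    A * lk k + A ≤ d * k := by
  have hlog : Tendsto (fun k : ℕ => Real.log ((k : ℝ) + 2)) atTop atTop :=
    Real.tendsto_log_atTop.comp castk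
  filter_upwards [hlog.eventually_ge_atTop (2 * |A| / d),
    tendsto_natCast_atTop_atTop.eventually_ge_atTop (6 * |A| / d)] with k h1 h2
  have h3 := log2_pos k
  have hk0 : (0 : ℝ) ≤ k := Nat.cast_nonneg k
  have h4 : A * lk k + A ≤ |A| * (yk k + 2) + |A| := by
    have h5 : A * lk k ≤ |A| * (yk k + 2) :=
      (mul_le_mul_of_nonneg_right (le_abs_self A) (lk_nonneg k)).trans
        (mul_le_mul_of_nonneg_left (lk_le k) (abs_nonneg A))
    linarith [le_abs_self A]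
  have h6 : |A| * yk k ≤ d * k / 2 := by
    unfold yk
    rw [← mul_div_assoc, div_le_iff₀ h3]
    have h7 : 2 * |A| ≤ Real.log ((k : ℝ) + 2) * d := (div_le_iff₀ hd).1 h1
    have h8 : 2 * |A| * k ≤ Real.log ((k : ℝ) + 2) * d * k := mul_le_mul_of_nonneg_right h7 hk0
    have h9 : 0 ≤ |A| * k := mul_nonneg (abs_nonneg A) hk0
    nlinarith
  have h10 : 6 * |A| ≤ k * d := (div_le_iff₀ hd).1 h2
  linarith

private theorem le_exp_abs (A x : ℝ) : A * Real.exp x ≤ Real.exp (|A| + x) := by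
  rw [Real.exp_add]
  refine mul_le_mul_of_nonneg_right ?_ (Real.exp_pos x).le
  have := Real.add_one_le_exp |A|
  linarith [le_abs_self A]

theorem bk_tendsto : Tendsto bk atTop atTop := by
  refine tendsto_atTop.2 fun n => ?_
  filter_upwards [E1' (Real.log ((n : ℝ) + 1))] with k hk
  unfold lk at hk
  have h1 := (Real.log_le_log_iff (by positivity) (bk1_pos k)).1 hk
  have h2 : (n : ℝ) ≤ bk k := by linarith
  exact_mod_cast h2

theorem Lm_one (κ : ℝ) (hκ : 0 ≤ κ) (k : ℕ) : 1 ≤ Lm κ k := by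
  exact Real.one_le_rpow (by have : (0 : ℝ) ≤ bk k := Nat.cast_nonneg _; linarith) hκ

theorem Lm_add (κ κ' : ℝ) (k : ℕ) : Lm (κ + κ') k = Lm κ k * Lm κ' k := by
  exact Real.rpow_add (bk1_pos k) κ κ'

theorem Lm_pow (κ : ℝ) (n : ℝ) (k : ℕ) : Lm κ k ^ n = Lm (κ * n) k := by
  exact (Real.rpow_mul (bk1_pos k).le κ n).symm

/-- less than every power of `2^k` -/
theorem Lm_sub (κ : ℝ) {A d : ℝ} (hd : 0 < d) : ∀ᶠ k : ℕ in atTop,
    A * Lm κ k ≤ (2 : ℝ) ^ (d * k) := by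
  filter_upwards [E2' (|A| + |κ|) (d := Real.log 2 * d) (mul_pos (Real.log_pos one_lt_two) hd)]
    with k hk
  rw [Lm_eq, Real.rpow_def_of_pos two_pos]
  refine (le_exp_abs A _).trans (Real.exp_le_exp.2 ?_)
  have h1 := lk_nonneg k
  have h2 : κ * lk k ≤ |κ| * lk k := mul_le_mul_of_nonneg_right (le_abs_self κ) h1
  have h3 : 0 ≤ |A| * lk k := mul_nonneg (abs_nonneg A) h1
  have h4 := abs_nonneg κ
  nlinarith

theorem Lm_lt {κ κ' : ℝ} (h : κ < κ') (A : ℝ) : ∀ᶠ k : ℕ in atTop, A * Lm κ k ≤ Lm κ' k := by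
  filter_upwards [E1' (|A| / (κ' - κ))] with k hk
  rw [Lm_eq, Lm_eq]
  refine (le_exp_abs A _).trans (Real.exp_le_exp.2 ?_)
  have h1 := (div_le_iff₀ (sub_pos.2 h)).1 hk
  nlinarith

/-- larger than `exp (k^(1-ε))` -/
theorem Lm_big {κ ε : ℝ} (hκ : 0 < κ) (hε : 0 < ε) (hε1 : ε ≤ 1) (A : ℝ) : ∀ᶠ k : ℕ in atTop,
    A * Real.exp (((k : ℝ) + 1) ^ (1 - ε)) ≤ Lm κ k := by
  filter_upwards [pow_le_lk ((|A| + 1) / κ) hε] with k hk
  rw [Lm_eq]
  refine (le_exp_abs A _).trans (Real.exp_le_exp.2 ?_)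
  have h1 := one_le_pow2 hε1 k
  have h2 : ((k : ℝ) + 1) ^ (1 - ε) ≤ ((k : ℝ) + 2) ^ (1 - ε) :=
    Real.rpow_le_rpow (by positivity) (by linarith) (by linarith)
  rw [div_mul_eq_mul_div, div_le_iff₀ hκ] at hk
  have h3 : |A| ≤ |A| * ((k : ℝ) + 2) ^ (1 - ε) := by
    have := mul_le_mul_of_nonneg_left h1 (abs_nonneg A)
    rwa [mul_one] at this
  linarith

theorem k_Lm {κ : ℝ} (hκ : 0 < κ) (A : ℝ) : ∀ᶠ k : ℕ in atTop, A * ((k : ℝ) + 1) ≤ Lm κ k := by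
  filter_upwards [E4' ((|A| + 1) / κ)] with k hk
  rw [Lm_eq]
  have h1 : (0 : ℝ) < (k : ℝ) + 2 := by positivity
  have h2 : A * ((k : ℝ) + 1) ≤ |A| * ((k : ℝ) + 2) := by
    have h3 : A * ((k : ℝ) + 1) ≤ |A| * ((k : ℝ) + 1) :=
      mul_le_mul_of_nonneg_right (le_abs_self A) (by positivity)
    have h4 := abs_nonneg A
    linarith
  have h5 : |A| * ((k : ℝ) + 2) ≤ Real.exp (|A| + Real.log ((k : ℝ) + 2)) := by
    have := le_exp_abs |A| (Real.log ((k : ℝ) + 2))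
    rw [Real.exp_log h1, abs_abs] at this
    exact this
  refine (h2.trans h5).trans (Real.exp_le_exp.2 ?_)
  have h6 := log2_pos k
  have h7 : ((|A| + 1) / κ * Real.log ((k : ℝ) + 2) + (|A| + 1) / κ) * κ ≤ lk k * κ :=
    mul_le_mul_of_nonneg_right hk hκ.le
  have h8 : ((|A| + 1) / κ * Real.log ((k : ℝ) + 2) + (|A| + 1) / κ) * κ =
      (|A| + 1) * Real.log ((k : ℝ) + 2) + (|A| + 1) := by
    field_simp
  rw [h8] at h7
  have h9 : 0 ≤ |A| * Real.log ((k : ℝ) + 2) := mul_nonneg (abs_nonneg A) h6.le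
  linarith

theorem t_beats (p : Pr) (hp : 0 < p.δ) (κ C B : ℝ) : ∀ᶠ k : ℕ in atTop,
    Real.exp (C * Lm κ k + C * k) * p.t k ≤ (2 : ℝ) ^ (-(B * k)) := by
  filter_upwards [Lm_sub κ (A := 2 * C) hp, Lm_sub 1 (A := 2) hp,
    k_Lm one_pos |C + B * Real.log 2|] with k h1 h2 h3
  rw [Pr.t, ← Real.exp_add, Real.rpow_def_of_pos two_pos (-(B * k))]
  refine Real.exp_le_exp.2 ?_
  have hk0 : (0 : ℝ) ≤ k := Nat.cast_nonneg k
  have h4 : (C + B * Real.log 2) * k ≤ |C + B * Real.log 2| * ((k : ℝ) + 1) := by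
    have h5 : (C + B * Real.log 2) * k ≤ |C + B * Real.log 2| * k :=
      mul_le_mul_of_nonneg_right (le_abs_self _) hk0
    have h6 := abs_nonneg (C + B * Real.log 2)
    linarith
  linarith

theorem sum_bk {c : ℝ} (hc : 0 < c) : Summable fun k : ℕ => Lm (-c) k := by
  have h0 : Summable fun k : ℕ => 1 / (((k : ℕ) : ℝ) + 2) ^ 2 := by
    have h1 : Summable fun n : ℕ => 1 / ((n : ℝ)) ^ 2 :=
      Real.summable_one_div_nat_pow.2 (by norm_num)
    refine ((summable_nat_add_iff 2).2 h1).congr fun m => ?_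
    push_cast
    rfl
  refine Summable.of_norm_bounded_eventually_nat h0 ?_
  filter_upwards [E4' (2 / c)] with k hk
  have h1 : (0 : ℝ) < (k : ℝ) + 2 := by positivity
  rw [Lm_eq, Real.norm_of_nonneg (Real.exp_pos _).le]
  have h2 : 1 / ((k : ℝ) + 2) ^ 2 = Real.exp (-(2 * Real.log ((k : ℝ) + 2))) := by
    rw [Real.exp_neg, two_mul, Real.exp_add, Real.exp_log h1, one_div, sq]
  rw [h2]
  refine Real.exp_le_exp.2 ?_
  have h3 := log2_pos k
  have h4 : (2 / c * Real.log ((k : ℝ) + 2) + 2 / c) * c ≤ lk k * c :=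
    mul_le_mul_of_nonneg_right hk hc.le
  have h5 : (2 / c * Real.log ((k : ℝ) + 2) + 2 / c) * c =
      2 * Real.log ((k : ℝ) + 2) + 2 := by
    field_simp
  rw [h5] at h4
  linarith

theorem Nk_le {κ : ℝ} (hκ : 0 ≤ κ) (k : ℕ) : Lm (2 * κ) k ≤ Nk κ k ∧
    (Nk κ k : ℝ) ≤ Lm (2 * κ) k + 1 ∧ (Nk κ k : ℝ) ≤ 2 * Lm (2 * κ) k := by
  have h1 : 1 ≤ Lm (2 * κ) k := Lm_one _ (by linarith) k
  have h2 : Lm (2 * κ) k ≤ Nk κ k := Nat.le_ceil _
  have h3 : (Nk κ k : ℝ) < Lm (2 * κ) k + 1 := Nat.ceil_lt_add_one (by linarith)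
  exact ⟨h2, h3.le, by linarith⟩

theorem e_pos (p : Pr) (k : ℕ) : 0 < p.e k := Real.rpow_pos_of_pos two_pos _

theorem e_le (p : Pr) (hp : 0 < p.δ) (k : ℕ) : p.e k ≤ 1 := by
  refine Real.rpow_le_one_of_one_le_of_nonpos one_le_two ?_
  have : 0 ≤ p.δ * k := by positivity
  linarith

theorem e_small (p : Pr) (hp : 0 < p.δ) : ∀ᶠ k : ℕ in atTop, 2 ^ p.n * p.e k ≤ 1 := by
  filter_upwards [tendsto_natCast_atTop_atTop.eventually_ge_atTop ((p.n : ℝ) / p.δ)] with k hk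
  have h1 : (p.n : ℝ) ≤ k * p.δ := (div_le_iff₀ hp).1 hk
  rw [Pr.e, ← Real.rpow_natCast, ← Real.rpow_add two_pos]
  refine Real.rpow_le_one_of_one_le_of_nonpos one_le_two ?_
  linarith

/-- the error of the mollification -/
theorem e_err (p : Pr) (hp : p.Ok) (k : ℕ) : p.e k ^ (2 * p.n) ≤ (2 : ℝ) ^ (-(100 * k : ℝ)) := by
  have hk0 : (0 : ℝ) ≤ k := Nat.cast_nonneg k
  rw [Pr.e, ← Real.rpow_natCast, ← Real.rpow_mul two_pos.le]
  refine Real.rpow_le_rpow_of_exponent_le one_le_two ?_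
  have h1 := mul_le_mul_of_nonneg_right hp.big hk0
  push_cast
  linarith

end F36
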