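import Pool.Agent.LibBE36F.Defs

/-! ROW N2a : the densities `rh M`. MEDIUM (copy of LibBE33/N1.lean with `rho` replaced by `rh M`: the functions `rho0` ↦ `(t (1-t))^M`, positive on `(0,1)`). `Law_of_Qt`: copy of `B35.den_of_Qt` (LibB35/Fin1.lean).
`rh_lower` (for the normalisation): `∫_0^1 (v (1-v))^M ≥ 4^(-M) / (2 M + 2)`: for `v ∈ [1/2 - h, 1/2 + h]`, `v (1-v) ≥ 1/4 - h²`, `h = 1/(4 (M+1))..`: `(1 - 4h²)^M ≥ 1 - 4 M h² ≥ 3/4`; the interval has length `2h`: the bound
`∫ ≥ 4^(-M) 3/4 * 1/(2 (M+1))`; state `4^(-M) / (4 (M + 1)) ≤ ∫`. -/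

open MeasureTheory Set Filter Topology
open scoped ContDiff unitInterval

namespace F36

open BGS BR B35

private theorem N2a_cont (M : ℕ) : Continuous fun v : ℝ => (v * (1 - v)) ^ M := by fun_prop

private theorem N2a_c_pos (M : ℕ) : 0 < ∫ v in (0 : ℝ)..1, (v * (1 - v)) ^ M :=
  intervalIntegral.intervalIntegral_pos_of_pos_on
    ((N2a_cont M).intervalIntegrable _ _)
    (fun _ hx => pow_pos (mul_pos hx.1 (by linarith [hx.2])) M) one_pos

private theorem N2a_pos (M : ℕ) {v : ℝ} (h0 : 0 < v) (h1 : v < 1) : 0 < rh M v :=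
  div_pos (pow_pos (mul_pos h0 (by linarith)) M) (N2a_c_pos M)

theorem rh_smooth (M : ℕ) : ContDiff ℝ ∞ (rh M) := by
  exact ((contDiff_id.mul (contDiff_const.sub contDiff_id)).pow M).div_const _

theorem rh_nonneg (M : ℕ) {v : ℝ} (h0 : 0 ≤ v) (h1 : v ≤ 1) : 0 ≤ rh M v :=
  div_nonneg (pow_nonneg (mul_nonneg h0 (by linarith)) M) (N2a_c_pos M).le

theorem rh_int (M : ℕ) : ∫ v in (0 : ℝ)..1, rh M v = 1 := by
  unfold rh
  rw [intervalIntegral.integral_div, div_self (N2a_c_pos M).ne']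

theorem rh_lower (M : ℕ) : (1 / 4 : ℝ) ^ M / (4 * (M + 1)) ≤ ∫ v in (0 : ℝ)..1, (v * (1 - v)) ^ M := by
  obtain ⟨h, hh⟩ : ∃ h : ℝ, h = 1 / (4 * ((M : ℝ) + 1)) := ⟨_, rfl⟩
  have hM0 : (0 : ℝ) ≤ M := Nat.cast_nonneg M
  have hh0 : 0 < h := by rw [hh]; positivity
  have hh1 : h ≤ 1 / 4 := by
    rw [hh]
    apply one_div_le_one_div_of_le (by norm_num)
    linarith
  have hMh : 4 * (M : ℝ) * h ^ 2 ≤ 1 / 4 := by
    have h1 : ((M : ℝ) + 1) * (4 * h) = 1 := by rw [hh]; field_simp
    have h2 : (M : ℝ) * (4 * h) ≤ 1 := by linarith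
    have h3 : (M : ℝ) * (4 * h) * h ≤ 1 * h := mul_le_mul_of_nonneg_right h2 hh0.le
    have h4 : 4 * (M : ℝ) * h ^ 2 = (M : ℝ) * (4 * h) * h := by ring
    linarith
  have hlow : ∀ v ∈ Icc (1 / 2 - h) (1 / 2 + h), (1 / 4 : ℝ) ^ M * (3 / 4) ≤ (v * (1 - v)) ^ M := by
    intro v hv
    have h1 : (v - 1 / 2) ^ 2 ≤ h ^ 2 := by
      apply sq_le_sq'
      · linarith [hv.1]
      · linarith [hv.2]
    have h2 : 1 / 4 * (1 + -(4 * h ^ 2)) ≤ v * (1 - v) := by
      have : v * (1 - v) = 1 / 4 - (v - 1 / 2) ^ 2 := by ring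
      linarith
    have h3 : h ^ 2 ≤ 1 / 4 * (1 / 4) := by
      have : h * h ≤ 1 / 4 * (1 / 4) := mul_le_mul hh1 hh1 hh0.le (by norm_num)
      linarith [sq h]
    have h4 : 0 ≤ 1 / 4 * (1 + -(4 * h ^ 2)) := by linarith
    have h5 : (1 / 4 * (1 + -(4 * h ^ 2))) ^ M ≤ (v * (1 - v)) ^ M := pow_le_pow_left₀ h4 h2 M
    have h6 : 1 + (M : ℝ) * -(4 * h ^ 2) ≤ (1 + -(4 * h ^ 2)) ^ M :=
      one_add_mul_le_pow (by linarith) M
    refine le_trans ?_ h5
    rw [mul_pow]
    apply mul_le_mul_of_nonneg_left _ (by positivity)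
    have h7 : (M : ℝ) * -(4 * h ^ 2) = -(4 * (M : ℝ) * h ^ 2) := by ring
    linarith
  have h1 : (∫ v in (1 / 2 - h)..(1 / 2 + h), (v * (1 - v)) ^ M) ≤
      ∫ v in (0 : ℝ)..1, (v * (1 - v)) ^ M := by
    apply intervalIntegral.integral_mono_interval (by linarith) (by linarith) (by linarith)
    · filter_upwards [ae_restrict_mem measurableSet_Ioc] with v hv
      exact pow_nonneg (mul_nonneg hv.1.le (by linarith [hv.2])) M
    · exact (N2a_cont M).intervalIntegrable _ _
  have h2 : (∫ _v in (1 / 2 - h)..(1 / 2 + h), (1 / 4 : ℝ) ^ M * (3 / 4)) ≤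
      ∫ v in (1 / 2 - h)..(1 / 2 + h), (v * (1 - v)) ^ M :=
    intervalIntegral.integral_mono_on (by linarith) intervalIntegrable_const
      ((N2a_cont M).intervalIntegrable _ _) hlow
  rw [intervalIntegral.integral_const, smul_eq_mul] at h2
  refine le_trans ?_ (h2.trans h1)
  have h3 : (1 / 4 : ℝ) ^ M / (4 * (M + 1)) = h * (1 / 4) ^ M := by rw [hh]; ring
  have h4 : (1 / 2 + h - (1 / 2 - h)) * ((1 / 4 : ℝ) ^ M * (3 / 4)) = 3 / 2 * (h * (1 / 4) ^ M) := by
    ring
  rw [h3, h4]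
  have h5 : 0 ≤ h * (1 / 4) ^ M := by positivity
  linarith

/-- the distribution function -/
private noncomputable def N2a_G (M : ℕ) (v : ℝ) : ℝ := ∫ w in (0 : ℝ)..v, rh M w

private theorem N2a_G_deriv (M : ℕ) (v : ℝ) : HasDerivAt (N2a_G M) (rh M v) v :=
  intervalIntegral.integral_hasDerivAt_right
    ((rh_smooth M).continuous.intervalIntegrable _ _)
    (rh_smooth M).continuous.stronglyMeasurable.stronglyMeasurableAtFilter
    (rh_smooth M).continuous.continuousAt

private theorem N2a_G_cont (M : ℕ) : Continuous (N2a_G M) :=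
  continuous_iff_continuousAt.2 fun v => (N2a_G_deriv M v).continuousAt

private theorem N2a_G0 (M : ℕ) : N2a_G M 0 = 0 := intervalIntegral.integral_same

private theorem N2a_G1 (M : ℕ) : N2a_G M 1 = 1 := rh_int M

private theorem N2a_G_mono (M : ℕ) : StrictMonoOn (N2a_G M) (Icc 0 1) := by
  apply strictMonoOn_of_deriv_pos (convex_Icc 0 1) (N2a_G_cont M).continuousOn
  intro x hx
  rw [interior_Icc] at hx
  rw [(N2a_G_deriv M x).deriv]
  exact N2a_pos M hx.1 hx.2

private theorem N2a_G_mem (M : ℕ) {v : ℝ} (hv : v ∈ Icc (0 : ℝ) 1) :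
    N2a_G M v ∈ Icc (0 : ℝ) 1 := by
  constructor
  · rw [← N2a_G0 M]
    exact (N2a_G_mono M).monotoneOn (left_mem_Icc.2 zero_le_one) hv hv.1
  · rw [← N2a_G1 M]
    exact (N2a_G_mono M).monotoneOn hv (right_mem_Icc.2 zero_le_one) hv.2

theorem exists_Qt (M : ℕ) : ∃ u : I → I, Qt M u := by
  let g : I → I := fun v => ⟨N2a_G M v, N2a_G_mem M v.2⟩
  have hgc : Continuous g := Continuous.subtype_mk ((N2a_G_cont M).comp continuous_subtype_val) _
  have hgi : Function.Injective g := by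
    intro v w h
    have h1 : N2a_G M v = N2a_G M w := congrArg Subtype.val h
    exact Subtype.ext ((N2a_G_mono M).injOn v.2 w.2 h1)
  have hgs : Function.Surjective g := by
    intro t
    have h1 : (t : ℝ) ∈ Icc (N2a_G M 0) (N2a_G M 1) := by
      rw [N2a_G0, N2a_G1]
      exact t.2
    obtain ⟨v, hv, hvt⟩ := intermediate_value_Icc zero_le_one (N2a_G_cont M).continuousOn h1
    exact ⟨⟨v, hv⟩, Subtype.ext hvt⟩
  let e : I ≃ I := Equiv.ofBijective g ⟨hgi, hgs⟩
  have hec : Continuous e := hgc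
  let E : I ≃ₜ I := hec.homeoOfEquivCompactToT2
  have hE : ∀ v, E.symm (g v) = v := fun v => E.symm_apply_apply v
  refine ⟨E.symm, E.symm.continuous, fun h hh => ?_⟩
  let F : ℝ → ℝ := fun t => h (E.symm (projIcc 0 1 zero_le_one t))
  have hF : Continuous F :=
    hh.comp (continuous_subtype_val.comp (E.symm.continuous.comp continuous_projIcc))
  have h1 : ∫ t : I, h (E.symm t) = ∫ t in (0 : ℝ)..1, F t := by
    rw [intervalIntegral.integral_of_le zero_le_one, ← integral_Icc_eq_integral_Ioc]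
    rw [← integral_subtype_comap measurableSet_Icc F]
    have h2 : ∀ t : I, h (E.symm t) = F t := by
      intro t
      simp only [F]
      rw [projIcc_val]
    simp_rw [h2]
    rfl
  rw [h1]
  have h2 := intervalIntegral.integral_comp_mul_deriv (a := 0) (b := 1) (f := N2a_G M)
    (f' := rh M) (g := F) (fun x _ => N2a_G_deriv M x) (rh_smooth M).continuous.continuousOn hF
  rw [N2a_G0, N2a_G1] at h2
  rw [← h2]
  apply intervalIntegral.integral_congr
  intro v hv
  rw [uIcc_of_le zero_le_one] at hv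
  simp only [Function.comp_apply, F]
  rw [projIcc_of_mem zero_le_one (N2a_G_mem M hv)]
  have h3 : E.symm ⟨N2a_G M v, N2a_G_mem M hv⟩ = ⟨v, hv⟩ := hE ⟨v, hv⟩
  rw [h3]

theorem Law_of_Qt {u : ℕ → I → I} (hu : ∀ R, Qt (Mx R) (u R)) :
    Law fun R => (volume : Measure I).map (u R) where
  prob R := Measure.isProbabilityMeasure_map (hu R).cont.measurable.aemeasurable
  int := by
    intro R f hf
    have e1 : ∫ t : I, f t ∂((volume : Measure I).map (u R)) = ∫ t : I, f (u R t) :=
      integral_map (hu R).cont.measurable.aemeasurable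
        (hf.comp continuous_subtype_val).aestronglyMeasurable
    rw [e1]
    have hre : Continuous fun v : ℝ => (f v).re := Complex.continuous_re.comp hf
    have him : Continuous fun v : ℝ => (f v).im := Complex.continuous_im.comp hf
    have hfu : Continuous fun t : I => f (u R t) :=
      hf.comp (continuous_subtype_val.comp (hu R).cont)
    have hi : Integrable (fun t : I => f (u R t)) := by
      obtain ⟨C, hC⟩ := isCompact_univ.exists_bound_of_continuousOn hfu.continuousOn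
      exact Integrable.of_bound hfu.aestronglyMeasurable C (ae_of_all _ fun t => hC t trivial)
    have hg : Continuous fun t : ℝ => ((rh (Mx R) t : ℝ) : ℂ) * f t :=
      (Complex.continuous_ofReal.comp (rh_smooth (Mx R)).continuous).mul hf
    have hg' := hg.intervalIntegrable (μ := volume) 0 1
    apply Complex.ext
    · have h1 : (∫ t : I, f (u R t)).re = ∫ t : I, (f (u R t)).re :=
        (integral_re (𝕜 := ℂ) hi).symm
      have h2 : (∫ t in (0 : ℝ)..1, ((rh (Mx R) t : ℝ) : ℂ) * f t).re =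
          ∫ t in (0 : ℝ)..1, (((rh (Mx R) t : ℝ) : ℂ) * f t).re := by
        rw [intervalIntegral.integral_of_le zero_le_one, intervalIntegral.integral_of_le zero_le_one]
        exact (integral_re (𝕜 := ℂ) hg'.1).symm
      rw [h1, h2, (hu R).law _ hre]
      refine intervalIntegral.integral_congr fun t _ => ?_
      simp only [Complex.re_ofReal_mul]
      ring
    · have h1 : (∫ t : I, f (u R t)).im = ∫ t : I, (f (u R t)).im :=
        (integral_im (𝕜 := ℂ) hi).symm
      have h2 : (∫ t in (0 : ℝ)..1, ((rh (Mx R) t : ℝ) : ℂ) * f t).im =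
          ∫ t in (0 : ℝ)..1, (((rh (Mx R) t : ℝ) : ℂ) * f t).im := by
        rw [intervalIntegral.integral_of_le zero_le_one, intervalIntegral.integral_of_le zero_le_one]
        exact (integral_im (𝕜 := ℂ) hg'.1).symm
      rw [h1, h2, (hu R).law _ him]
      refine intervalIntegral.integral_congr fun t _ => ?_
      simp only [Complex.im_ofReal_mul]
      ring

end F36
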