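import Pool.Agent.LibBE36F.Defs
import Pool.Agent.LibBE36F.N1c
import Pool.Agent.LibBE36T.T2
import Pool.Agent.LibBE36T.T9
import Pool.Agent.LibBE36T.T10
import Pool.Agent.LibBE36T.T13b

/-! ROW A1 : the amplitudes of the blocks. SHORT. PLAN. `chi_spec`: `exists_cutN` and `Classical.choose_spec`. `Am_ampH`: maximum of finitely many bounds (`∑ j ∈ range (n+1), |M j|`). `Fa_EA`: `mla_EA` (`M 0` bounds `a`).
`Ga_amp`: `cta_amp` with `N := Nk κ k + 2`, `ρ := Lm κ k`, `H = 1/e ≥ 1`, `h = 1/(2^n e) ≥ 0`, `M := 5 M 0`. `Ga_ampC`: then `AmpH.amp` (T2). `Ra_bd`: `EA.bound` at real points. `Ra_lip`: `EA_deriv` with `k = n = 1` and the mean value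
theorem. `Ga_Ra`: `cta_tiny` with `k = 0` and `k = 1`; the exponent: `exp(-(h max 0 (|t| - (ρ+1)))²)`; it vanishes for `|t| ≤ ρ + 2`, so `max ≥ 1` and the factor is at most `exp(-h²)`. -/

open MeasureTheory Set Filter Topology
open scoped ContDiff unitInterval

namespace F36

open BGS BR B35 B36

theorem chi_spec {N : ℕ} (hN : 1 ≤ N) {ρ : ℝ} (hρ : 0 ≤ ρ) : CutN N ρ (chi N ρ) := by
  have h : ∃ χ : ℝ → ℝ, B36.CutN N ρ χ := exists_cutN N hN hρ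
  unfold chi
  rw [dif_pos h]
  exact h.choose_spec

theorem Am_nonneg {M : ℕ → ℝ} {ρ : ℝ} {a : ℝ → ℂ} (ha : Am M ρ a) (n : ℕ) : 0 ≤ M n :=
  (norm_nonneg _).trans (ha.bound n 0)

/-- One constant for all orders up to `n`. -/
theorem Am_ampH (M : ℕ → ℝ) (n : ℕ) : ∃ C : ℝ, 0 ≤ C ∧ ∀ (ρ : ℝ) (a : ℝ → ℂ), Am M ρ a →
    AmpH n a ρ C 1 := by
  refine ⟨∑ j ∈ Finset.range (n + 1), |M j|, Finset.sum_nonneg fun j _ => abs_nonneg _,
    fun ρ a ha => ⟨ha.smooth, ha.conj, ha.supp, fun k hk t => ?_⟩⟩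
  rw [one_pow, mul_one]
  refine (ha.bound k t).trans ((le_abs_self _).trans ?_)
  exact Finset.single_le_sum (f := fun j => |M j|) (fun j _ => abs_nonneg _)
    (Finset.mem_range.mpr (Nat.lt_succ_of_le hk))

theorem Am_amp (M : ℕ → ℝ) : ∃ C : ℝ, 0 ≤ C ∧ ∀ (ρ : ℝ) (a : ℝ → ℂ), Am M ρ a →
    BR.Amp a ρ C := by
  obtain ⟨C, hC, h⟩ := Am_ampH M 4
  refine ⟨C, hC, fun ρ a ha => ?_⟩
  have := AmpH.amp le_rfl le_rfl (h ρ a ha)
  rwa [one_pow, mul_one] at this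

theorem A1_n {p : Pr} (hp : p.Ok) : 1 ≤ p.n := by
  by_contra h
  have h0 : p.n = 0 := by omega
  have := hp.big
  rw [h0, Nat.cast_zero, zero_mul] at this
  linarith

theorem A1_H {p : Pr} (hp : p.Ok) (k : ℕ) : 1 ≤ 1 / p.e k := by
  rw [le_div_iff₀ (e_pos p k), one_mul]
  exact e_le p hp.pos k

theorem A1_h (p : Pr) (k : ℕ) : 0 ≤ 1 / (2 ^ p.n * p.e k) := by
  have := e_pos p k
  positivity

theorem Fa_EA {p : Pr} (hp : p.Ok) {κ : ℝ} (hκ : 0 ≤ κ) {M : ℕ → ℝ} (k : ℕ) {a : ℝ → ℂ}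
    (ha : Am M (Lm κ k) a) :
    EA (Fa p k a) (Lm κ k) (5 * M 0) (1 / p.e k) (1 / (2 ^ p.n * p.e k)) :=
  mla_EA (A1_n hp) (e_pos p k) (e_le p hp.pos k) (zero_le_one.trans (Lm_one κ hκ k))
    ha.smooth.continuous ha.conj ha.supp fun t => by
      have := ha.bound 0 t
      rwa [iteratedDeriv_zero] at this

theorem Ra_smooth {p : Pr} (hp : p.Ok) {κ : ℝ} (hκ : 0 ≤ κ) {M : ℕ → ℝ} (k : ℕ) {a : ℝ → ℂ}
    (ha : Am M (Lm κ k) a) : ContDiff ℝ ∞ (Ra p k a) :=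
  rst_smooth (Fa_EA hp hκ k ha).diff

theorem A1_cut {κ : ℝ} (hκ : 0 ≤ κ) (k : ℕ) :
    CutN (Nk κ k + 2) (Lm κ k + 2) (chi (Nk κ k + 2) (Lm κ k + 2)) :=
  chi_spec (by omega) (by linarith [Lm_one κ hκ k])

theorem Ga_ampH {p : Pr} (hp : p.Ok) {κ : ℝ} (hκ : 0 ≤ κ) {M : ℕ → ℝ} (k : ℕ) {a : ℝ → ℂ}
    (ha : Am M (Lm κ k) a) :
    AmpH (Nk κ k + 2) (Ga p κ k a) (Lm κ k + 3) (10 * M 0)
      (2 * (1 / p.e k) * ((Nk κ k + 2 : ℕ) : ℝ) + 16 * ((Nk κ k + 2 : ℕ) : ℝ)) := by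
  have h := cta_amp (Fa_EA hp hκ k ha) (A1_H hp k) (A1_h p k) (A1_cut hκ k)
  have e : 2 * (5 * M 0) = 10 * M 0 := by ring
  rw [e] at h
  exact h

theorem A1_bdd {f : ℝ → ℂ} {R : ℝ} (hf : ContDiff ℝ ∞ f) (hs : ∀ t, R < |t| → f t = 0) (k : ℕ) :
    ∃ C : ℝ, ∀ t, ‖iteratedDeriv k f t‖ ≤ C := by
  have hc : Continuous (iteratedDeriv k f) := hf.continuous_iteratedDeriv k (by exact_mod_cast le_top)
  obtain ⟨C, hC⟩ := (isCompact_Icc (a := -R) (b := R)).exists_bound_of_continuousOn hc.continuousOn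
  refine ⟨max C 0, fun t => ?_⟩
  by_cases ht : |t| ≤ R
  · exact (hC t (abs_le.mp ht)).trans (le_max_left _ _)
  · rw [not_le] at ht
    have hev : f =ᶠ[𝓝 t] fun _ => (0 : ℂ) := by
      filter_upwards [(isOpen_lt continuous_const continuous_abs).mem_nhds ht] with s hs'
      exact hs s hs'
    rw [hev.iteratedDeriv_eq k]
    have : iteratedDeriv k (fun _ : ℝ => (0 : ℂ)) t = 0 := by
      simp
    rw [this, norm_zero]
    exact le_max_right _ _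

theorem Ga_amp {p : Pr} (hp : p.Ok) {κ : ℝ} (hκ : 0 ≤ κ) {M : ℕ → ℝ} (k : ℕ) {a : ℝ → ℂ}
    (ha : Am M (Lm κ k) a) : ∃ C : ℝ, BR.Amp (Ga p κ k a) (Lm κ k + 3) C := by
  have h := Ga_ampH hp hκ k ha
  choose C hC using fun j : ℕ => A1_bdd h.smooth h.supp j
  refine ⟨∑ j ∈ Finset.range 5, |C j|, h.smooth, h.conj, h.supp, fun j hj t => ?_⟩
  refine (hC j t).trans ((le_abs_self _).trans ?_)
  exact Finset.single_le_sum (f := fun j => |C j|) (fun j _ => abs_nonneg _)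
    (Finset.mem_range.mpr (Nat.lt_succ_of_le hj))

theorem Ra_bd {p : Pr} (hp : p.Ok) {κ : ℝ} (hκ : 0 ≤ κ) {M : ℕ → ℝ} (k : ℕ) {a : ℝ → ℂ}
    (ha : Am M (Lm κ k) a) (t : ℝ) : ‖Ra p k a t‖ ≤ 5 * M 0 := by
  have h := (Fa_EA hp hκ k ha).bound (t : ℂ)
  have hM : 0 ≤ 5 * M 0 := mul_nonneg (by norm_num) (Am_nonneg ha 0)
  refine h.trans ?_
  rw [Complex.ofReal_im, mul_zero]
  calc _ ≤ 5 * M 0 * 1 := by
        refine mul_le_mul_of_nonneg_left ?_ hM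
        rw [Real.exp_le_one_iff]
        nlinarith [sq_nonneg (1 / (2 ^ p.n * p.e k) * max 0 (|((t : ℂ)).re| - Lm κ k))]
    _ = 5 * M 0 := mul_one _

theorem Ra_lip {p : Pr} (hp : p.Ok) {κ : ℝ} (hκ : 0 ≤ κ) {M : ℕ → ℝ} (k : ℕ) {a : ℝ → ℂ}
    (ha : Am M (Lm κ k) a) (s t : ℝ) :
    ‖Ra p k a s - Ra p k a t‖ ≤ 20 * M 0 * (1 / p.e k) * |s - t| := by
  have hd : ∀ x, ‖deriv (Ra p k a) x‖ ≤ 20 * M 0 * (1 / p.e k) := fun x => by
    have h := EA_deriv (Fa_EA hp hκ k ha) (A1_H hp k) (A1_h p k) (le_refl 1) x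
    rw [iteratedDeriv_one] at h
    refine h.trans ?_
    have hM : 0 ≤ 2 * (5 * M 0) * (2 * (1 / p.e k) * ((1 : ℕ) : ℝ)) ^ 1 := by
      have := Am_nonneg ha 0
      have := e_pos p k
      positivity
    calc _ ≤ 2 * (5 * M 0) * (2 * (1 / p.e k) * ((1 : ℕ) : ℝ)) ^ 1 * 1 := by
          refine mul_le_mul_of_nonneg_left ?_ hM
          rw [Real.exp_le_one_iff]
          exact neg_nonpos.mpr (sq_nonneg _)
      _ = 20 * M 0 * (1 / p.e k) := by push_cast; ring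
  have hdf : Differentiable ℝ (Ra p k a) := (Ra_smooth hp hκ k ha).differentiable (by simp)
  have := Convex.norm_image_sub_le_of_norm_deriv_le (s := Set.univ) (f := Ra p k a)
    (C := 20 * M 0 * (1 / p.e k)) (fun x _ => hdf x) (fun x _ => hd x) convex_univ
    (Set.mem_univ t) (Set.mem_univ s)
  rwa [Real.norm_eq_abs] at this

/-- The cut changes the amplitude only far away, and there by a tiny amount. -/
theorem Ga_Ra {p : Pr} (hp : p.Ok) {κ : ℝ} (hκ : 0 ≤ κ) {M : ℕ → ℝ} (k : ℕ) {a : ℝ → ℂ}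
    (ha : Am M (Lm κ k) a) (t : ℝ) :
    ‖Ga p κ k a t - Ra p k a t‖ ≤ 10 * M 0 * Real.exp (-(1 / (2 ^ p.n * p.e k)) ^ 2) := by
  have hM : 0 ≤ M 0 := Am_nonneg ha 0
  obtain ⟨h1, h2⟩ := cta_tiny (Fa_EA hp hκ k ha) (zero_le_one.trans (Lm_one κ hκ k)) (A1_H hp k) (A1_h p k) (A1_cut hκ k)
    (Nat.zero_le (Nk κ k + 2)) t
  rw [iteratedDeriv_zero] at h1 h2
  have e : ‖Ga p κ k a t - Ra p k a t‖ = ‖Ra p k a t - Ga p κ k a t‖ := norm_sub_rev _ _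
  rw [e]
  by_cases ht : |t| ≤ Lm κ k + 2
  · have h3 : Ra p k a t - Ga p κ k a t = 0 := h1 ht
    rw [h3, norm_zero]
    positivity
  · rw [not_le] at ht
    refine le_trans (show ‖Ra p k a t - Ga p κ k a t‖ ≤ _ from h2) ?_
    rw [pow_zero, mul_one]
    have e2 : 2 * (5 * M 0) = 10 * M 0 := by ring
    rw [e2]
    refine mul_le_mul_of_nonneg_left ?_ (by positivity)
    rw [Real.exp_le_exp]
    have hmx : 1 ≤ max 0 (|t| - (Lm κ k + 1)) := le_max_of_le_right (by linarith)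
    have hh := A1_h p k
    have h4 : 1 / (2 ^ p.n * p.e k) ≤ 1 / (2 ^ p.n * p.e k) * max 0 (|t| - (Lm κ k + 1)) :=
      le_mul_of_one_le_right hh hmx
    have h5 := pow_le_pow_left₀ hh h4 2
    exact neg_le_neg h5

end F36
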