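import Pool.Agent.LibBE36F.FA3
import Pool.Agent.LibBE36M.M12
import Pool.Agent.LibBE36.GE2
import Pool.Agent.LibBE36.GE3
import Pool.Agent.LibBE36.GE5

/-! BE36: the holomorphic geometry of the families of the blocks (helper88): the interfaces of the parts
C', D', T for the families `sP` and `sC` (`CH_path`, `CH_cell` of `LibBE36M/M12`). -/

open MeasureTheory Set Filter Topology
open scoped ContDiff unitInterval

namespace F36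

open BGS BR BE B35
open Pool.BGR (upI)

variable {Γ : Type} [Group Γ] [MulAction Γ Pl] {D : Set Pl} {P : Dt} {κ : ℝ}

theorem GE_e_pos (p : Pr) (k : ℕ) : 0 < p.e k := by
  unfold Pr.e
  positivity

theorem GE_exp (p : Pr) (k : ℕ) : Real.exp (Real.log (1 / p.e k)) = 1 / p.e k :=
  Real.exp_log (one_div_pos.2 (GE_e_pos p k))

theorem CH_sub {ι ι' : Type} {m : Pl → Co} {a b : ℝ} {s : ι → ℝ × Pl → ℝ} {lQ : ι → ℝ}
    (h : BE36.CH Γ D m a b s lQ) (f : ι' → ι) :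
    BE36.CH Γ D m a b (fun i => s (f i)) (fun i => lQ (f i)) where
  cf := CF_sub h.cf f
  nonneg := fun i => h.nonneg (f i)
  hm := h.hm
  hG := h.hG
  hs := fun K hK => BE36.HB_pull (h.hs K hK) (fun q : Lx ι' ℝ K =>
    (⟨f q.i, q.p, q.z, q.w, q.hp, q.hz, q.hw⟩ : Lx ι ℝ K))

theorem PX_path (hP : Ok Γ D P) (hκ : 0 < κ) : ∃ k0 : ℕ,
    BD36.PX Γ P.m (fun q : Bi P Γ D κ k0 => sP P q.p Γ D q.k q.ξ q.η)
      (fun q => 1 / q.p.e q.k) := by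
  obtain ⟨k0, b, h⟩ := CH_path hP hκ
  refine ⟨k0, ?_⟩
  have h1 := h.px
  simp only [GE_exp] at h1
  exact h1

theorem PX_cell (hP : Ok Γ D P) (hκ : 0 < κ) : ∃ k0 : ℕ,
    BD36.PX Γ P.m (fun q : Bc P Γ D κ k0 => sC P q.p Γ D q.k q.ξ q.η q.c q.w)
      (fun q => 1 / q.p.e q.k) := by
  obtain ⟨k0, b, h⟩ := CH_cell hP hκ
  refine ⟨k0, ?_⟩
  have h1 := h.px
  simp only [GE_exp] at h1
  exact h1

theorem GI_path (hP : Ok Γ D P) (hκ : 0 < κ) : ∃ k0 : ℕ,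
    BE36C.GI Γ D P.m (fun q : Bi P Γ D κ k0 => sP P q.p Γ D q.k q.ξ q.η)
      (fun q => 1 / q.p.e q.k) := by
  obtain ⟨k0, b, h⟩ := CH_path hP hκ
  refine ⟨k0, ?_⟩
  have h1 := h.gi
  simp only [GE_exp] at h1
  exact h1

theorem GI_cell (hP : Ok Γ D P) (hκ : 0 < κ) : ∃ k0 : ℕ,
    BE36C.GI Γ D P.m (fun q : Bc P Γ D κ k0 => sC P q.p Γ D q.k q.ξ q.η q.c q.w)
      (fun q => 1 / q.p.e q.k) := by
  obtain ⟨k0, b, h⟩ := CH_cell hP hκ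
  refine ⟨k0, ?_⟩
  have h1 := h.gi
  simp only [GE_exp] at h1
  exact h1

theorem GE_root (hP : Ok Γ D P) (R : ℕ) : ‖√(P.c R)‖ ≤ 1 := by
  rw [Real.norm_eq_abs, abs_of_nonneg (Real.sqrt_nonneg _)]
  exact Real.sqrt_le_one.2 (c_pos hP R).2

theorem gk_block (hP : Ok Γ D P) (hκ : 0 < κ) : ∃ A k0 : ℕ, ∀ p : Pr, p.Ok → ∀ k ≥ k0,
    ∀ ξ ∈ Bs P p Γ D κ k, ∀ (η : Dir → I) (N : ℕ) (ρ : ℝ), 0 ≤ ρ →
      B36.GkB (closure D) (mE (Y P p Γ D k (mix (bk k) ξ η))) ρ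
        ((((N : ℝ) + 1) * (1 / p.e k * (2 + ρ))) ^ (A * (N + 1))) 2
        (BE73.cN (Y P p Γ D k (mix (bk k) ξ η)) N) := by
  obtain ⟨k0, b, h⟩ := CH_path hP hκ
  obtain ⟨A, hA⟩ := h.gk
  refine ⟨A, k0, fun p hp k hk ξ hξ η N ρ hρ => ?_⟩
  have h1 := hA N ⟨p, k, ξ, η, hp, hk, hξ⟩ (√(P.c (bk k))) (GE_root hP _) ρ hρ
  simp only [GE_exp, path_one hP] at h1
  exact h1

theorem u0_block (hP : Ok Γ D P) (hκ : 0 < κ) : ∃ A k0 : ℕ, ∀ p : Pr, p.Ok → ∀ k ≥ k0,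
    ∀ ξ ∈ Bs P p Γ D κ k, ∀ (η : Dir → I) (N j : ℕ), 1 ≤ j → j ≤ N → ∀ x ∈ closure D,
      |UU (Gx (Y P p Γ D k (mix (bk k) ξ η)) x) j 0| ≤
        ((((N : ℝ) + 1) * (4 * (1 / p.e k))) ^ A) ^ j := by
  obtain ⟨k0, b, h⟩ := CH_path hP hκ
  obtain ⟨A, hA⟩ := h.u0
  refine ⟨A, k0, fun p hp k hk ξ hξ η N j hj hj' x hx => ?_⟩
  have h1 := hA N ⟨p, k, ξ, η, hp, hk, hξ⟩ (√(P.c (bk k))) (GE_root hP _) j hj hj' x hx
  simp only [GE_exp, path_one hP] at h1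
  exact h1

end F36
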