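import Pool.Agent.LibBE36F.GQ2d
import Pool.Agent.LibB35.GB3
import Pool.Agent.LibB35.GL2

/-! ROW GB3 : the size of the diagonal moments, the variance of the moments. SHORT/MEDIUM. MODEL: LibB35/GB3.lean (`DD_le`), LibB35/GB4.lean (`var_block`; it is in GB4.lean here). PLAN. `deg_pair`, `pair_sum`, `GB3_norm` with `‖mt‖ ≤ 5 M 0 wg` (`fact3`), `Wt` from `wts` with
`V = C Lm (C' κ1) k`. -/

open MeasureTheory Set Filter Topology
open scoped ContDiff unitInterval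

namespace F36

open BGS BR BE B35

variable {Γ : Type} [Group Γ] [MulAction Γ Pl] {D : Set Pl} {P : Dt} {κ : ℝ}

theorem DD_le (hP : Ok Γ D P) (hκ : 0 < κ) {p : Pr} (hp : p.Ok) (r : ℕ) :
    ∃ C1 : ℝ, 1 ≤ C1 ∧ ∀ κ1 : ℝ, 0 < κ1 → ∀ M : ℕ → ℝ, ∃ (C : ℝ) (k0 : ℕ), 0 ≤ C ∧ ∀ k ≥ k0,
    ∀ ξ ∈ Bs P p Γ D κ k, ∀ a : ℝ → ℂ, Am M (Lm κ1 k) a →
      ‖DD (Cs (Γ := Γ) (Y0 P p Γ D k ξ) (Lm (2 * κ1) k)) (mt (Y0 P p Γ D k ξ) (Ra p k a)) r‖ ≤
        C * Lm (C1 * κ1) k := by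
  classical
  obtain ⟨C0, k1, hC0, H1⟩ := wts hP hκ hp
  obtain ⟨Cp, hCp, Hp⟩ := pair_sum (Fin r)
  refine ⟨2 * C0 * Cp, by nlinarith, fun κ1 hκ1 M => ?_⟩
  obtain ⟨k3, H3⟩ := fact3 hP hκ hp hκ1 M
  refine ⟨max (5 * M 0) 0 ^ r * (Cp * C0 ^ Cp), max k3 k1, by positivity,
    fun k hk ξ hξ a ha => ?_⟩
  have hk3 : k3 ≤ k := le_trans (le_max_left _ _) hk
  have hk1 : k1 ≤ k := le_trans (le_max_right _ _) hk
  obtain ⟨hw, hlp, hCs⟩ := H1 k hk1 ξ hξ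
  obtain ⟨t, ht⟩ : ∃ t, t = Lm (2 * κ1) k := ⟨_, rfl⟩
  have ht1 : 1 ≤ t := by
    rw [ht]
    exact Lm_one _ (by positivity) k
  rw [← ht]
  set μ0 := Y0 P p Γ D k ξ with hμ0
  set Q := Cs (Γ := Γ) μ0 t with hQ
  obtain ⟨hfin, -, hsq⟩ := hCs t ht1
  obtain ⟨V, hV⟩ : ∃ V, V = C0 * t ^ C0 := ⟨_, rfl⟩
  have htC : t ≤ t ^ C0 := by
    calc t = t ^ (1 : ℝ) := (Real.rpow_one t).symm
      _ ≤ t ^ C0 := Real.rpow_le_rpow_of_exponent_le ht1 hC0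
  have h1t : (1 : ℝ) ≤ t ^ C0 := ht1.trans htC
  have hwt : Wt Q (wg μ0) V := by
    constructor
    · rw [hV]
      nlinarith
    · exact fun q => (hw q).1
    · intro q
      refine (hw q).2.trans ?_
      rw [hV]
      nlinarith
    · rw [hV]
      exact hsq
    · intro q hq
      have h2 : ((q.2.1 : ℝ) + 1) * lp μ0 q.1 ≤ t := GB3_Cs_mem hq
      have h3 : ((q.2.1 : ℝ) + 1) * C0⁻¹ ≤ t := by
        refine le_trans ?_ h2
        gcongr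
        exact hlp q.1
      have hC10 : 0 < C0 := by linarith
      have h4 : (q.2.1 : ℝ) + 1 ≤ C0 * t := by
        rw [← div_eq_mul_inv, div_le_iff₀ hC10] at h3
        linarith
      refine h4.trans ?_
      rw [hV]
      gcongr
  have hsum := Hp (GH.PG Γ) Q (wg μ0) V hwt
  have hM : ∀ q ∈ Q, ‖mt μ0 (Ra p k a) q‖ ≤ max (5 * M 0) 0 * wg μ0 q := fun q hq =>
    ((H3 k hk3 ξ hξ ξ a ha q (by rw [← ht]; exact GB3_Cs_mem hq)).2).trans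
      (mul_le_mul_of_nonneg_right (le_max_left _ _) (hw q).1)
  have hV1 : V ^ Cp = C0 ^ Cp * Lm (2 * C0 * Cp * κ1) k := by
    have ht0 : 0 ≤ t := by linarith
    rw [hV, Real.mul_rpow (by positivity) (by positivity), ← Real.rpow_mul ht0, ht, Lm_pow]
    congr 2
    ring
  calc ‖DD Q (mt μ0 (Ra p k a)) r‖ ≤
      ∑ F ∈ Tu (Fin r) Q with Deg F, ‖tm (fun _ => mt μ0 (Ra p k a)) F‖ := norm_sum_le _ _
    _ ≤ ∑ F ∈ Tu (Fin r) Q with Deg F, max (5 * M 0) 0 ^ r * wF (wg μ0) F :=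
        Finset.sum_le_sum fun F hF =>
          GB3_norm hM (Finset.mem_filter.1 hF).1
    _ ≤ ∑ F ∈ Tu (Fin r) Q with Pair F, max (5 * M 0) 0 ^ r * wF (wg μ0) F := by
        refine Finset.sum_le_sum_of_subset_of_nonneg ?_ fun F _ _ => ?_
        · intro F hF
          rw [Finset.mem_filter] at hF ⊢
          exact ⟨hF.1, deg_pair hF.2⟩
        · exact mul_nonneg (by positivity) (Finset.prod_nonneg fun i _ => (hw _).1)
    _ = max (5 * M 0) 0 ^ r * ∑ F ∈ Tu (Fin r) Q with Pair F, wF (wg μ0) F :=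
        (Finset.mul_sum _ _ _).symm
    _ ≤ max (5 * M 0) 0 ^ r * (Cp * V ^ Cp) :=
        mul_le_mul_of_nonneg_left hsum (by positivity)
    _ = max (5 * M 0) 0 ^ r * (Cp * C0 ^ Cp) * Lm (2 * C0 * Cp * κ1) k := by
        rw [hV1]
        ring

end F36
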