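import Pool.Agent.LibBE36F.GB2
import Pool.Agent.LibBE36F.GB3
import Pool.Agent.LibB35.GB4

/-! ROW GB4 : consequences of the block theorem. SHORT/MEDIUM. MODEL: LibB35/GB4.lean. PLAN. `var_block`: `block` with `(r, r)` and `(r, 0)` (`Mom .. 0 .. = 1` by `block_neg` and `u < v`; `DD_zero`), `DD_le`; `κ0` the minimum of the two and `c/(4 C1)`. `Mom_bdd`, `Sb_bdd`: sizes from `fact1`, `fact2`, `fact3`, `wts` (finite sum).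
`Sb_sq`: `block1` with `r = 2` and `DD_le`: the bound is `Lm 1 k` if `κ1 ≤ κ0` is small. -/

open MeasureTheory Set Filter Topology
open scoped ContDiff unitInterval

namespace F36

open BGS BR BE B35

variable {Γ : Type} [Group Γ] [MulAction Γ Pl] {D : Set Pl} {P : Dt} {κ : ℝ}
  {ν : ℕ → Measure I}

theorem Lm_mono {κ κ' : ℝ} (h : κ ≤ κ') (k : ℕ) : Lm κ k ≤ Lm κ' k :=
  Real.rpow_le_rpow_of_exponent_le (by have : (0 : ℝ) ≤ bk k := Nat.cast_nonneg _; linarith) h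

theorem GB4_Lm_pos (κ : ℝ) (k : ℕ) : 0 < Lm κ k :=
  Real.rpow_pos_of_pos (by have : (0 : ℝ) ≤ bk k := Nat.cast_nonneg _; linarith) _

theorem GB4_Lm_neg {c : ℝ} (hc : 0 ≤ c) (k : ℕ) : Lm (-c) k ≤ 1 := by
  have h := Lm_mono (show -c ≤ 0 by linarith) k
  have h0 : Lm 0 k = 1 := Real.rpow_zero _
  rwa [h0] at h

theorem GB4_mz (m : Pl → Co) (b : ℝ → ℂ) (τ : ℝ) (q : Cg Γ) : ‖mz m b τ q‖ = ‖mt m b q‖ := by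
  unfold mz
  rw [norm_mul]
  have h : ‖Complex.exp (-(Complex.I * τ * ln m q))‖ = 1 := by
    rw [Complex.norm_exp]
    have : (-(Complex.I * τ * ln m q)).re = 0 := by
      simp
    rw [this, Real.exp_zero]
  rw [h, mul_one]

theorem GB4_Mom0 {p : Pr} {κ1 : ℝ} {a : ℝ → ℂ} {k : ℕ} {ξ : Dir → I} {u v : ℝ} (huv : u < v)
    (h : ∀ z, curv (Y P p Γ D k ξ) z < 0) : Mom P p Γ D κ1 a 0 u v k ξ = 1 := by
  unfold Mom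
  rw [if_pos h]
  have h2 : (0 : ℝ) < 2 ^ k := by positivity
  have h3 : 0 < v - u := by linarith
  simp only [pow_zero]
  rw [intervalIntegral.integral_const, smul_eq_mul, mul_one, ← sub_mul]
  field_simp

theorem Sb_bdd (hP : Ok Γ D P) (hκ : 0 < κ) {u v : ℝ} (hu : 0 < u) (huv : u < v) :
    ∃ δ0 : ℝ, 0 < δ0 ∧ ∀ p : Pr, p.Ok → p.δ ≤ δ0 → ∀ κ1 : ℝ, 0 < κ1 → ∀ M : ℕ → ℝ,
    ∃ k0 : ℕ, ∀ k ≥ k0, ∀ ξ ∈ Bs P p Γ D κ k, ∀ a : ℝ → ℂ, Am M (Lm κ1 k) a → ∃ B : ℝ,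
      ∀ (η : Dir → I) (τ : ℝ), u * 2 ^ k ≤ τ → τ ≤ v * 2 ^ k →
        |Sb P p Γ D κ1 k a τ (mix (bk k) ξ η)| ≤ B := by
  obtain ⟨δ1, hδ1, H1⟩ := fact1 hP hκ hu huv
  obtain ⟨δ2, hδ2, H2⟩ := fact2 hP hκ hu huv
  refine ⟨min δ1 δ2, lt_min hδ1 hδ2, fun p hp hpδ κ1 hκ1 M => ?_⟩
  obtain ⟨C1, k1, H1⟩ := H1 p hp (hpδ.trans (min_le_left _ _)) κ1 hκ1 M
  obtain ⟨C2, k2, H2⟩ := H2 p hp (hpδ.trans (min_le_right _ _)) κ1 hκ1 M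
  obtain ⟨k3, H3⟩ := fact3 hP hκ hp hκ1 M
  refine ⟨max k1 (max k2 k3), fun k hk ξ hξ a ha => ?_⟩
  simp only [ge_iff_le, max_le_iff] at hk
  obtain ⟨hk1, hk2, hk3⟩ := hk
  refine ⟨Real.exp (C1 * Lm (2 * κ1) k) * p.t k +
    ∑ q ∈ Cs (Γ := Γ) (Y0 P p Γ D k ξ) (Lm (2 * κ1) k),
      ((2 * (2 ^ k : ℝ) ^ (-(1 / 4) : ℝ) * wg (Y0 P p Γ D k ξ) q + C2 * p.t k) +
        ((2 ^ k : ℝ) ^ (-(1 / 12) : ℝ) * wg (Y0 P p Γ D k ξ) q +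
          5 * M 0 * wg (Y0 P p Γ D k ξ) q)), fun η τ hτ1 hτ2 => ?_⟩
  have e1 := H1 k hk1 ξ hξ η a ha τ hτ1 hτ2
  have e2 : |∑ q ∈ Cs (Γ := Γ) (Y0 P p Γ D k ξ) (Lm (2 * κ1) k), (zt (Y0 P p Γ D k ξ)
      (Y P p Γ D k (mix (bk k) ξ η)) k (Nk κ1 k) (Ra p k a) τ q).re| ≤
      ∑ q ∈ Cs (Γ := Γ) (Y0 P p Γ D k ξ) (Lm (2 * κ1) k),
      ((2 * (2 ^ k : ℝ) ^ (-(1 / 4) : ℝ) * wg (Y0 P p Γ D k ξ) q + C2 * p.t k) +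
        ((2 ^ k : ℝ) ^ (-(1 / 12) : ℝ) * wg (Y0 P p Γ D k ξ) q +
          5 * M 0 * wg (Y0 P p Γ D k ξ) q)) := by
    refine (Finset.abs_sum_le_sum_abs _ _).trans (Finset.sum_le_sum fun q hq => ?_)
    have hln : ln (Y0 P p Γ D k ξ) q ≤ Lm (2 * κ1) k := GB3_Cs_mem hq
    have f2 := H2 k hk2 ξ hξ η a ha τ hτ1 hτ2 q hln
    obtain ⟨f3, f4⟩ := H3 k hk3 ξ hξ η a ha q hln
    refine (Complex.abs_re_le_norm _).trans ?_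
    have g1 : ‖mt (Y P p Γ D k (mix (bk k) ξ η)) (Ra p k a) q‖ ≤
        (2 ^ k : ℝ) ^ (-(1 / 12) : ℝ) * wg (Y0 P p Γ D k ξ) q +
          5 * M 0 * wg (Y0 P p Γ D k ξ) q := by
      have := norm_sub_norm_le (mt (Y P p Γ D k (mix (bk k) ξ η)) (Ra p k a) q)
        (mt (Y0 P p Γ D k ξ) (Ra p k a) q)
      linarith
    have g2 := norm_sub_norm_le (zt (Y0 P p Γ D k ξ) (Y P p Γ D k (mix (bk k) ξ η)) k (Nk κ1 k)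
      (Ra p k a) τ q) (mz (Y P p Γ D k (mix (bk k) ξ η)) (Ra p k a) τ q)
    rw [GB4_mz] at g2
    linarith
  have e3 := abs_sub_abs_le_abs_sub (Sb P p Γ D κ1 k a τ (mix (bk k) ξ η))
    (∑ q ∈ Cs (Γ := Γ) (Y0 P p Γ D k ξ) (Lm (2 * κ1) k), (zt (Y0 P p Γ D k ξ)
      (Y P p Γ D k (mix (bk k) ξ η)) k (Nk κ1 k) (Ra p k a) τ q).re)
  linarith

theorem Mom_bdd (hP : Ok Γ D P) (hκ : 0 < κ) {u v : ℝ} (hu : 0 < u) (huv : u < v) (r : ℕ) :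
    ∃ δ0 : ℝ, 0 < δ0 ∧ ∀ p : Pr, p.Ok → p.δ ≤ δ0 → ∀ κ1 : ℝ, 0 < κ1 → ∀ M : ℕ → ℝ,
    ∃ k0 : ℕ, ∀ k ≥ k0, ∀ ξ ∈ Bs P p Γ D κ k, ∀ a : ℝ → ℂ, Am M (Lm κ1 k) a → ∃ B : ℝ,
      ∀ η : Dir → I, |Mom P p Γ D κ1 a r u v k (mix (bk k) ξ η)| ≤ B := by
  obtain ⟨δ0, hδ0, H⟩ := Sb_bdd hP hκ hu huv
  refine ⟨δ0, hδ0, fun p hp hpδ κ1 hκ1 M => ?_⟩
  obtain ⟨k0, H⟩ := H p hp hpδ κ1 hκ1 M
  refine ⟨k0, fun k hk ξ hξ a ha => ?_⟩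
  obtain ⟨B, hB⟩ := H k hk ξ hξ a ha
  refine ⟨|1 / ((v - u) * 2 ^ k)| * (|B| ^ r * |v * 2 ^ k - u * 2 ^ k|), fun η => ?_⟩
  unfold Mom
  split_ifs with h
  · rw [abs_mul]
    refine mul_le_mul_of_nonneg_left ?_ (abs_nonneg _)
    have h1 := intervalIntegral.norm_integral_le_of_norm_le_const
      (f := fun τ => Sb P p Γ D κ1 k a τ (mix (bk k) ξ η) ^ r) (C := |B| ^ r)
      (a := u * 2 ^ k) (b := v * 2 ^ k) (fun τ hτ => by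
        rw [Set.uIoc_of_le (by gcongr)] at hτ
        rw [norm_pow, Real.norm_eq_abs]
        exact pow_le_pow_left₀ (abs_nonneg _)
          ((hB η τ hτ.1.le hτ.2).trans (le_abs_self B)) r)
    rwa [Real.norm_eq_abs] at h1
  · rw [abs_zero]
    positivity

theorem var_block (hP : Ok Γ D P) (hν : Law ν) (hκ : 0 < κ) {u v : ℝ} (hu : 0 < u) (huv : u < v)
    (r : ℕ) : ∃ δ0 : ℝ, 0 < δ0 ∧ ∀ p : Pr, p.Ok → p.δ ≤ δ0 →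
    ∃ κ0 c : ℝ, 0 < κ0 ∧ 0 < c ∧ ∀ κ1 : ℝ, 0 < κ1 → κ1 ≤ κ0 → ∀ M : ℕ → ℝ,
    ∃ k0 : ℕ, ∀ k ≥ k0, ∀ ξ ∈ Bs P p Γ D κ k, ∀ a : ℝ → ℂ, Am M (Lm κ1 k) a →
      |(∫ η, Mom P p Γ D κ1 a r u v k (mix (bk k) ξ η) ^ 2 ∂Pm ν) -
        (∫ η, Mom P p Γ D κ1 a r u v k (mix (bk k) ξ η) ∂Pm ν) ^ 2| ≤ Lm (-c) k := by
  obtain ⟨δ1, hδ1, H1⟩ := block hP hν hκ hu huv r r
  obtain ⟨δ2, hδ2, H2⟩ := block hP hν hκ hu huv r 0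
  obtain ⟨k4, H4⟩ := block_neg hP hκ
  refine ⟨min δ1 δ2, lt_min hδ1 hδ2, fun p hp hpδ => ?_⟩
  obtain ⟨κ01, c1, hκ01, hc1, H1⟩ := H1 p hp (hpδ.trans (min_le_left _ _))
  obtain ⟨κ02, c2, hκ02, hc2, H2⟩ := H2 p hp (hpδ.trans (min_le_right _ _))
  obtain ⟨C1, hC1, H3⟩ := DD_le hP hκ hp r
  obtain ⟨c, hc⟩ : ∃ c, c = min c1 c2 := ⟨_, rfl⟩
  have hc0 : 0 < c := by
    rw [hc]
    exact lt_min hc1 hc2
  have hcc1 : c ≤ c1 := by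
    rw [hc]
    exact min_le_left _ _
  have hcc2 : c ≤ c2 := by
    rw [hc]
    exact min_le_right _ _
  refine ⟨min (min κ01 κ02) (c / (4 * C1)), c / 2,
    lt_min (lt_min hκ01 hκ02) (by positivity), by positivity, fun κ1 hκ1 hκ10 M => ?_⟩
  obtain ⟨k1, H1⟩ := H1 κ1 hκ1 (hκ10.trans ((min_le_left _ _).trans (min_le_left _ _))) M
  obtain ⟨k2, H2⟩ := H2 κ1 hκ1 (hκ10.trans ((min_le_left _ _).trans (min_le_right _ _))) M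
  obtain ⟨C, k3, hC, H3⟩ := H3 κ1 hκ1 M
  obtain ⟨k5, H5⟩ := eventually_atTop.1 (Lm_lt (show -(3 / 4 * c) < -(c / 2) by linarith)
    (2 * C + 2))
  have hκC : C1 * κ1 ≤ c / 4 := by
    have h1 := hκ10.trans (min_le_right _ _)
    rw [le_div_iff₀ (by positivity)] at h1
    linarith
  refine ⟨max (max (max k1 k2) (max k3 k4)) k5, fun k hk ξ hξ a ha => ?_⟩
  simp only [ge_iff_le, max_le_iff] at hk
  obtain ⟨⟨⟨hk1, hk2⟩, hk3, hk4⟩, hk5⟩ := hk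
  have e1 := H1 k hk1 ξ hξ a ha
  have e2 := H2 k hk2 ξ hξ a ha
  have e3 := H3 k hk3 ξ hξ a ha
  have e5 := H5 k hk5
  have hM0 : ∀ η : Dir → I, Mom P p Γ D κ1 a 0 u v k (mix (bk k) ξ η) = 1 := fun η => by
    refine GB4_Mom0 huv fun z => (H4 p hp k hk4 ξ hξ η z).trans_lt ?_
    have : 0 < (κ / 2) ^ 2 := by positivity
    linarith
  simp only [hM0, mul_one, GB4_DD0] at e2
  set x := ∫ η, Mom P p Γ D κ1 a r u v k (mix (bk k) ξ η) ∂Pm ν with hx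
  have hy : ∫ η, Mom P p Γ D κ1 a r u v k (mix (bk k) ξ η) *
      Mom P p Γ D κ1 a r u v k (mix (bk k) ξ η) ∂Pm ν =
      ∫ η, Mom P p Γ D κ1 a r u v k (mix (bk k) ξ η) ^ 2 ∂Pm ν := by
    congr 1
    funext η
    rw [sq]
  rw [hy] at e1
  set y := ∫ η, Mom P p Γ D κ1 a r u v k (mix (bk k) ξ η) ^ 2 ∂Pm ν with hyd
  set DD0 := DD (Cs (Γ := Γ) (Y0 P p Γ D k ξ) (Lm (2 * κ1) k))
    (mt (Y0 P p Γ D k ξ) (Ra p k a)) r with hDD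
  obtain ⟨E, hE⟩ : ∃ E, E = Lm (-c) k := ⟨_, rfl⟩
  have hE1 : E ≤ 1 := by
    rw [hE]
    exact GB4_Lm_neg hc0.le k
  have hE0 : 0 < E := by
    rw [hE]
    exact GB4_Lm_pos _ k
  have f1 : ‖((y : ℝ) : ℂ) - DD0 * DD0‖ ≤ E := by
    rw [hE]
    exact e1.trans (Lm_mono (by linarith) k)
  have f2 : ‖((x : ℝ) : ℂ) - DD0‖ ≤ E := by
    rw [hE]
    exact e2.trans (Lm_mono (by linarith) k)
  have f3 : ‖((y - x ^ 2 : ℝ) : ℂ)‖ ≤ E + E * (2 * (C * Lm (C1 * κ1) k) + 1) := by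
    have g1 : ((y - x ^ 2 : ℝ) : ℂ) = (((y : ℝ) : ℂ) - DD0 * DD0) -
        (((x : ℝ) : ℂ) - DD0) * ((((x : ℝ) : ℂ) - DD0) + 2 * DD0) := by
      push_cast
      ring
    rw [g1]
    refine (norm_sub_le _ _).trans (add_le_add f1 ?_)
    rw [norm_mul]
    refine mul_le_mul f2 ?_ (norm_nonneg _) hE0.le
    refine (norm_add_le _ _).trans ?_
    have g2 : ‖2 * DD0‖ = 2 * ‖DD0‖ := by
      rw [norm_mul]
      norm_num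
    rw [g2]
    linarith
  rw [Complex.norm_real, Real.norm_eq_abs] at f3
  refine f3.trans (le_trans ?_ e5)
  have g3 : Lm (C1 * κ1) k ≤ Lm (c / 4) k := Lm_mono hκC k
  have g4 : 1 ≤ Lm (c / 4) k := Lm_one _ (by positivity) k
  have g5 : Lm (-(3 / 4 * c)) k = E * Lm (c / 4) k := by
    rw [hE, ← Lm_add]
    congr 1
    ring
  rw [g5]
  have g6 : C * Lm (C1 * κ1) k ≤ C * Lm (c / 4) k := mul_le_mul_of_nonneg_left g3 hC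
  have g7 : E * (2 * (C * Lm (C1 * κ1) k) + 2) ≤ E * (2 * (C * Lm (c / 4) k) + 2 * Lm (c / 4) k) :=
    mul_le_mul_of_nonneg_left (by linarith) hE0.le
  calc E + E * (2 * (C * Lm (C1 * κ1) k) + 1) = E * (2 * (C * Lm (C1 * κ1) k) + 2) := by ring
    _ ≤ E * (2 * (C * Lm (c / 4) k) + 2 * Lm (c / 4) k) := g7
    _ = (2 * C + 2) * (E * Lm (c / 4) k) := by ring

/-- The second moment at one fixed time. -/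
theorem Sb_sq (hP : Ok Γ D P) (hν : Law ν) (hκ : 0 < κ) {u v : ℝ} (hu : 0 < u) (huv : u < v) :
    ∃ δ0 : ℝ, 0 < δ0 ∧ ∀ p : Pr, p.Ok → p.δ ≤ δ0 →
    ∃ κ0 : ℝ, 0 < κ0 ∧ ∀ κ1 : ℝ, 0 < κ1 → κ1 ≤ κ0 → ∀ M : ℕ → ℝ,
    ∃ k0 : ℕ, ∀ k ≥ k0, ∀ ξ ∈ Bs P p Γ D κ k, ∀ a : ℝ → ℂ, Am M (Lm κ1 k) a →
      ∀ τ : ℝ, u * 2 ^ k ≤ τ → τ ≤ v * 2 ^ k →
        ∫ η, Sb P p Γ D κ1 k a τ (mix (bk k) ξ η) ^ 2 ∂Pm ν ≤ Lm 1 k := by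
  obtain ⟨δ1, hδ1, H1⟩ := block1 hP hν hκ hu huv 2
  refine ⟨δ1, hδ1, fun p hp hpδ => ?_⟩
  obtain ⟨κ01, c1, hκ01, hc1, H1⟩ := H1 p hp hpδ
  obtain ⟨C1, hC1, H3⟩ := DD_le hP hκ hp 2
  refine ⟨min κ01 (1 / (2 * C1)), lt_min hκ01 (by positivity), fun κ1 hκ1 hκ10 M => ?_⟩
  obtain ⟨k1, H1⟩ := H1 κ1 hκ1 (hκ10.trans (min_le_left _ _)) M
  obtain ⟨C, k3, hC, H3⟩ := H3 κ1 hκ1 M
  obtain ⟨k5, H5⟩ := eventually_atTop.1 (Lm_lt (show (1 / 2 : ℝ) < 1 by norm_num) (C + 1))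
  have hκC : C1 * κ1 ≤ 1 / 2 := by
    have h1 := hκ10.trans (min_le_right _ _)
    rw [le_div_iff₀ (by positivity)] at h1
    linarith
  refine ⟨max k1 (max k3 k5), fun k hk ξ hξ a ha τ hτ1 hτ2 => ?_⟩
  simp only [ge_iff_le, max_le_iff] at hk
  obtain ⟨hk1, hk3, hk5⟩ := hk
  have e1 := H1 k hk1 ξ hξ a ha τ hτ1 hτ2
  have e3 := H3 k hk3 ξ hξ a ha
  have e5 := H5 k hk5
  set x := ∫ η, Sb P p Γ D κ1 k a τ (mix (bk k) ξ η) ^ 2 ∂Pm ν with hx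
  set DD0 := DD (Cs (Γ := Γ) (Y0 P p Γ D k ξ) (Lm (2 * κ1) k))
    (mt (Y0 P p Γ D k ξ) (Ra p k a)) 2 with hDD
  have g1 := norm_sub_norm_le ((x : ℝ) : ℂ) DD0
  rw [Complex.norm_real, Real.norm_eq_abs] at g1
  have g2 : Lm (-c1) k ≤ 1 := GB4_Lm_neg hc1.le k
  have g3 : C * Lm (C1 * κ1) k ≤ C * Lm (1 / 2) k :=
    mul_le_mul_of_nonneg_left (Lm_mono hκC k) hC
  have g4 : 1 ≤ Lm (1 / 2) k := Lm_one _ (by norm_num) k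
  have g5 := le_abs_self x
  have g6 : (C + 1) * Lm (1 / 2) k = C * Lm (1 / 2) k + Lm (1 / 2) k := by ring
  linarith

end F36
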