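import Pool.Agent.LibBE36F.BF4
import Pool.Agent.LibBE36F.GB4
import Pool.Agent.LibBF73.F5

/-! ROW BF5 : Borel–Cantelli for the moments; the second moment at a fixed time. SHORT/MEDIUM. MODEL: LibBF73/F5.lean (`ae_M`). PLAN. `cheb` with `B = Bs .. κ k`, `f = Mom ..` (`meas_Mom`, `Mom_bdd`, `var_block`), `V = Lm (-c) k`; the sum over `i < n k ≤ A (k+1)` and `k` of
`Lm (-c) k / t^2`: `A (k + 1) Lm (-c) k ≤ Lm (-c/2) k` eventually (`k_Lm`), `sum_bk`. `t = 1/(m+1)`, countable intersection. `sec`: `lint_mix` with `f = Sb^2` on `Bs` (use the indicator, `meas_ind`), `Sb_sq`, `Sb_bdd`; `Lm 1 k ≤ 2^(k/2)` (`Lm_sub`). -/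

open MeasureTheory Set Filter Topology
open scoped ContDiff unitInterval

namespace F36

open BGS BR BE B35

variable {Γ : Type} [Group Γ] [MulAction Γ Pl] {D : Set Pl} {P : Dt} {κ : ℝ}
  {ν : ℕ → Measure I}

/-- Borel-Cantelli with a general bound `w k` of the number of the amplitudes. -/
private theorem BF5_core (hP : Ok Γ D P) (hν : Law ν) (hκ : 0 < κ) {u v : ℝ} (hu : 0 < u)
    (huv : u < v) (r : ℕ) : ∃ δ0 : ℝ, 0 < δ0 ∧ ∀ p : Pr, p.Ok → p.δ ≤ δ0 →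
    ∃ κ0 c : ℝ, 0 < κ0 ∧ 0 < c ∧ ∀ κ1 : ℝ, 0 < κ1 → κ1 ≤ κ0 → ∀ (M : ℕ → ℝ)
    (fam : ℕ → ℕ → ℝ → ℂ) (n : ℕ → ℕ) (w : ℕ → ℝ),
    (∀ k, ∀ i < n k, Am M (Lm κ1 k) (fam k i)) → (∀ k, (n k : ℝ) ≤ w k) →
    (Summable fun k => w k * Lm (-c) k) →
    ∀ᵐ ξ ∂Pm ν, (∃ k1 : ℕ, ∀ k ≥ k1, ξ ∈ Bs P p Γ D κ k) → ∀ ε : ℝ, 0 < ε → ∃ k0 : ℕ,
      ∀ k ≥ k0, ∀ i < n k, |Mom P p Γ D κ1 (fam k i) r u v k ξ -
        ∫ η, Mom P p Γ D κ1 (fam k i) r u v k (mix (bk k) ξ η) ∂Pm ν| ≤ ε := by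
  classical
  obtain ⟨δ1, hδ1, H1⟩ := var_block hP hν hκ hu huv r
  obtain ⟨δ2, hδ2, H2⟩ := Mom_bdd hP hκ hu huv r
  refine ⟨min δ1 δ2, lt_min hδ1 hδ2, fun p hp hpδ => ?_⟩
  obtain ⟨κ0, c, hκ0, hc, H3⟩ := H1 p hp (hpδ.trans (min_le_left _ _))
  have H4 := H2 p hp (hpδ.trans (min_le_right _ _))
  refine ⟨κ0, c, hκ0, hc, fun κ1 hκ1 hκ10 M fam n w hfam hn hw => ?_⟩
  obtain ⟨k1, h1⟩ := H3 κ1 hκ1 hκ10 M
  obtain ⟨k2, h2⟩ := H4 κ1 hκ1 M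
  obtain ⟨k3, hk3⟩ : ∃ k3 : ℕ, k3 = max k1 k2 := ⟨_, rfl⟩
  obtain ⟨E, hE⟩ : ∃ E : ℝ → ℕ → ℕ → Set (Dir → I), E = fun t k i =>
    {ξ | ξ ∈ Bs P p Γ D κ k ∧ t ≤ |Mom P p Γ D κ1 (fam k i) r u v k ξ -
      ∫ η, Mom P p Γ D κ1 (fam k i) r u v k (mix (bk k) ξ η) ∂Pm ν|} := ⟨_, rfl⟩
  have h3 : ∀ t : ℝ, 0 < t → ∀ k ≥ k3, ∀ i < n k,
      Pm ν (E t k i) ≤ ENNReal.ofReal (Lm (-c) k / t ^ 2) := by
    intro t ht k hk i hi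
    have hk1 : k1 ≤ k := (le_max_left _ _).trans (hk3 ▸ hk)
    have hk2 : k2 ≤ k := (le_max_right _ _).trans (hk3 ▸ hk)
    have ha := hfam k i hi
    rw [hE]
    exact cheb hν.prob (bk k) (meas_Bs hP p κ k) (fun ξ η => Bs_mix p κ k ξ η)
      (meas_Mom hP hp hκ1.le k ha u v r) (fun ξ hξ => h2 k hk2 ξ hξ (fam k i) ha)
      (fun ξ hξ => h1 k hk1 ξ hξ (fam k i) ha) ht
  obtain ⟨s, hs⟩ : ∃ s : ℝ → ℕ → Set (Dir → I), s = fun t k =>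
    if k3 ≤ k then ⋃ i ∈ Finset.range (n k), E t k i else ∅ := ⟨_, rfl⟩
  have hLm0 : ∀ (x : ℝ) (k : ℕ), 0 < Lm x k := fun x k => by
    unfold Lm
    positivity
  have hw0 : ∀ k, 0 ≤ w k := fun k => (Nat.cast_nonneg _).trans (hn k)
  have h4 : ∀ t : ℝ, 0 < t → ∀ k, Pm ν (s t k) ≤
      ENNReal.ofReal (w k * (Lm (-c) k / t ^ 2)) := by
    intro t ht k
    have hL := hLm0 (-c) k
    rw [hs]
    by_cases hk : k3 ≤ k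
    · simp only [hk, if_true]
      refine (measure_biUnion_finset_le _ _).trans ?_
      refine (Finset.sum_le_card_nsmul _ _ _ fun i hi =>
        h3 t ht k hk i (Finset.mem_range.1 hi)).trans ?_
      rw [Finset.card_range, nsmul_eq_mul, ENNReal.ofReal_mul (hw0 k)]
      refine mul_le_mul_left ?_ _
      rw [← ENNReal.ofReal_natCast]
      exact ENNReal.ofReal_le_ofReal (hn k)
    · simp only [hk, if_false, measure_empty]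
      exact zero_le
  have hsum : ∀ t : ℝ, 0 < t → Summable fun k : ℕ => w k * (Lm (-c) k / t ^ 2) := by
    intro t ht
    refine (hw.mul_right (1 / t ^ 2)).congr fun k => ?_
    ring
  have h5 : ∀ m : ℕ, ∀ᵐ ξ ∂Pm ν, ∀ᶠ k in atTop, ξ ∉ s (1 / ((m : ℝ) + 1)) k := by
    intro m
    have ht : 0 < 1 / ((m : ℝ) + 1) := by positivity
    refine ae_eventually_notMem (ne_top_of_le_ne_top ?_ (ENNReal.tsum_le_tsum (h4 _ ht)))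
    exact (hsum _ ht).tsum_ofReal_ne_top
  filter_upwards [ae_all_iff.2 h5] with ξ hξ hB ε hε
  obtain ⟨k4, h6⟩ := hB
  obtain ⟨m, hm⟩ := exists_nat_one_div_lt hε
  obtain ⟨k5, h7⟩ := eventually_atTop.1 (hξ m)
  refine ⟨max k3 (max k4 k5), fun k hk i hi => ?_⟩
  have a1 : k3 ≤ k := (le_max_left _ _).trans hk
  have a2 : k4 ≤ k := ((le_max_left _ _).trans (le_max_right _ _)).trans hk
  have a3 : k5 ≤ k := ((le_max_right _ _).trans (le_max_right _ _)).trans hk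
  have h10 := h7 k a3
  have h11 : ξ ∉ E (1 / ((m : ℝ) + 1)) k i := by
    intro h12
    apply h10
    rw [hs]
    simp only [a1, if_true]
    exact mem_biUnion (x := i) (Finset.mem_coe.2 (Finset.mem_range.2 hi)) h12
  rw [hE] at h11
  have h12 : ¬ (1 / ((m : ℝ) + 1) ≤ |Mom P p Γ D κ1 (fam k i) r u v k ξ -
      ∫ η, Mom P p Γ D κ1 (fam k i) r u v k (mix (bk k) ξ η) ∂Pm ν|) := fun h =>
    h11 ⟨h6 k a2, h⟩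
  exact ((not_le.1 h12).trans hm).le

private theorem BF5_pos (x : ℝ) (k : ℕ) : 0 < Lm x k := by
  unfold Lm
  positivity

/-- The same for families whose number grows like `Lm κ1 k`. -/
theorem ae_net (hP : Ok Γ D P) (hν : Law ν) (hκ : 0 < κ) {u v : ℝ} (hu : 0 < u) (huv : u < v)
    (r : ℕ) : ∃ δ0 : ℝ, 0 < δ0 ∧ ∀ p : Pr, p.Ok → p.δ ≤ δ0 →
    ∃ κ0 : ℝ, 0 < κ0 ∧ ∀ κ1 : ℝ, 0 < κ1 → κ1 ≤ κ0 → ∀ (M : ℕ → ℝ) (fam : ℕ → ℕ → ℝ → ℂ)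
    (n : ℕ → ℕ) (A : ℝ), (∀ k, ∀ i < n k, Am M (Lm κ1 k) (fam k i)) →
    (∀ k, (n k : ℝ) ≤ A * Lm κ1 k) →
    ∀ᵐ ξ ∂Pm ν, (∃ k1 : ℕ, ∀ k ≥ k1, ξ ∈ Bs P p Γ D κ k) → ∀ ε : ℝ, 0 < ε → ∃ k0 : ℕ,
      ∀ k ≥ k0, ∀ i < n k, |Mom P p Γ D κ1 (fam k i) r u v k ξ -
        ∫ η, Mom P p Γ D κ1 (fam k i) r u v k (mix (bk k) ξ η) ∂Pm ν| ≤ ε := by
  obtain ⟨δ0, hδ0, H⟩ := BF5_core hP hν hκ hu huv r
  refine ⟨δ0, hδ0, fun p hp hpδ => ?_⟩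
  obtain ⟨κ0, c, hκ0, hc, H1⟩ := H p hp hpδ
  refine ⟨min κ0 (c / 2), lt_min hκ0 (by linarith), fun κ1 hκ1 hκ10 M fam n A hfam hn => ?_⟩
  refine H1 κ1 hκ1 (hκ10.trans (min_le_left _ _)) M fam n (fun k => A * Lm κ1 k) hfam hn ?_
  have hA : 0 ≤ A := by
    have h1 := (Nat.cast_nonneg (n 0)).trans (hn 0)
    exact nonneg_of_mul_nonneg_left h1 (BF5_pos κ1 0)
  have hb := (sum_bk (c := c / 2) (by linarith)).mul_left A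
  refine Summable.of_nonneg_of_le (fun k => ?_) (fun k => ?_) hb
  · have := BF5_pos κ1 k
    have := BF5_pos (-c) k
    positivity
  · rw [mul_assoc]
    apply mul_le_mul_of_nonneg_left _ hA
    rw [← Lm_add]
    have h1 : κ1 ≤ c / 2 := hκ10.trans (min_le_right _ _)
    unfold Lm
    exact Real.rpow_le_rpow_of_exponent_le (by
      have : (0 : ℝ) ≤ bk k := Nat.cast_nonneg _
      linarith) (by linarith)

theorem ae_Mom (hP : Ok Γ D P) (hν : Law ν) (hκ : 0 < κ) {u v : ℝ} (hu : 0 < u) (huv : u < v)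
    (r : ℕ) : ∃ δ0 : ℝ, 0 < δ0 ∧ ∀ p : Pr, p.Ok → p.δ ≤ δ0 →
    ∃ κ0 : ℝ, 0 < κ0 ∧ ∀ κ1 : ℝ, 0 < κ1 → κ1 ≤ κ0 → ∀ (M : ℕ → ℝ) (fam : ℕ → ℕ → ℝ → ℂ)
    (n : ℕ → ℕ) (A : ℕ), (∀ k, ∀ i < n k, Am M (Lm κ1 k) (fam k i)) →
    (∀ k, n k ≤ A * (k + 1)) →
    ∀ᵐ ξ ∂Pm ν, (∃ k1 : ℕ, ∀ k ≥ k1, ξ ∈ Bs P p Γ D κ k) → ∀ ε : ℝ, 0 < ε → ∃ k0 : ℕ,
      ∀ k ≥ k0, ∀ i < n k, |Mom P p Γ D κ1 (fam k i) r u v k ξ -
        ∫ η, Mom P p Γ D κ1 (fam k i) r u v k (mix (bk k) ξ η) ∂Pm ν| ≤ ε := by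
  obtain ⟨δ0, hδ0, H⟩ := BF5_core hP hν hκ hu huv r
  refine ⟨δ0, hδ0, fun p hp hpδ => ?_⟩
  obtain ⟨κ0, c, hκ0, hc, H1⟩ := H p hp hpδ
  refine ⟨κ0, hκ0, fun κ1 hκ1 hκ10 M fam n A hfam hn => ?_⟩
  refine H1 κ1 hκ1 hκ10 M fam n (fun k => (A : ℝ) * ((k : ℝ) + 1)) hfam (fun k => ?_) ?_
  · have h5 := hn k
    show (n k : ℝ) ≤ (A : ℝ) * ((k : ℝ) + 1)
    exact_mod_cast h5
  · refine Summable.of_norm_bounded_eventually_nat (sum_bk (c := c / 2) (by linarith)) ?_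
    filter_upwards [k_Lm (κ := c / 2) (by linarith) (A : ℝ)] with k hk
    have hL := BF5_pos (-c) k
    rw [Real.norm_of_nonneg (by positivity)]
    have e1 : Lm (-(c / 2)) k = Lm (c / 2) k * Lm (-c) k := by
      rw [← Lm_add]
      congr 1
      ring
    rw [e1]
    exact mul_le_mul_of_nonneg_right hk hL.le

/-- The second moment at one fixed time, for the Weyl law. -/
theorem sec (hP : Ok Γ D P) (hν : Law ν) (hκ : 0 < κ) {u v : ℝ} (hu : 0 < u) (huv : u < v) :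
    ∃ δ0 : ℝ, 0 < δ0 ∧ ∀ p : Pr, p.Ok → p.δ ≤ δ0 →
    ∃ κ0 : ℝ, 0 < κ0 ∧ ∀ κ1 : ℝ, 0 < κ1 → κ1 ≤ κ0 → ∀ M : ℕ → ℝ,
    ∃ k0 : ℕ, ∀ k ≥ k0, ∀ a : ℝ → ℂ, Am M (Lm κ1 k) a → ∀ τ : ℝ, u * 2 ^ k ≤ τ →
      τ ≤ v * 2 ^ k →
      Measurable (fun ξ => (Bs P p Γ D κ k).indicator (fun ξ => Sb P p Γ D κ1 k a τ ξ) ξ) ∧
      ∫⁻ ξ, ENNReal.ofReal ((Bs P p Γ D κ k).indicator
        (fun ξ => Sb P p Γ D κ1 k a τ ξ) ξ ^ 2) ∂(Pm ν) ≤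
          ENNReal.ofReal ((2 : ℝ) ^ ((k : ℝ) / 2)) := by
  obtain ⟨δ1, hδ1, H1⟩ := Sb_sq hP hν hκ hu huv
  obtain ⟨δ2, hδ2, H2⟩ := Sb_bdd hP hκ hu huv
  refine ⟨min δ1 δ2, lt_min hδ1 hδ2, fun p hp hpδ => ?_⟩
  obtain ⟨κ0, hκ0, H3⟩ := H1 p hp (hpδ.trans (min_le_left _ _))
  have H4 := H2 p hp (hpδ.trans (min_le_right _ _))
  refine ⟨κ0, hκ0, fun κ1 hκ1 hκ10 M => ?_⟩
  obtain ⟨k1, h1⟩ := H3 κ1 hκ1 hκ10 M
  obtain ⟨k2, h2⟩ := H4 κ1 hκ1 M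
  obtain ⟨k3, h3⟩ := meas_ind hP hκ hp hκ1
  obtain ⟨k4, h4⟩ := eventually_atTop.1 (Lm_sub 1 (A := 1) (d := 1 / 2) (by norm_num))
  refine ⟨max (max k1 k2) (max k3 k4), fun k hk a ha τ hτ1 hτ2 => ?_⟩
  have a1 : k1 ≤ k := ((le_max_left _ _).trans (le_max_left _ _)).trans hk
  have a2 : k2 ≤ k := ((le_max_right _ _).trans (le_max_left _ _)).trans hk
  have a3 : k3 ≤ k := ((le_max_left _ _).trans (le_max_right _ _)).trans hk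
  have a4 : k4 ≤ k := ((le_max_right _ _).trans (le_max_right _ _)).trans hk
  have hm := h3 k a3 M a ha τ
  refine ⟨hm, ?_⟩
  obtain ⟨g, hg⟩ : ∃ g : (Dir → I) → ℝ,
    g = (Bs P p Γ D κ k).indicator fun ξ => Sb P p Γ D κ1 k a τ ξ := ⟨_, rfl⟩
  have hmix : ∀ ξ ∈ Bs P p Γ D κ k, ∀ η, g (mix (bk k) ξ η) =
      Sb P p Γ D κ1 k a τ (mix (bk k) ξ η) := by
    intro ξ hξ η
    rw [hg]
    exact indicator_of_mem ((Bs_mix p κ k ξ η).2 hξ) _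
  rw [← hg] at hm
  have hL := lint_mix hν.prob (bk k) (meas_Bs hP p κ k) (fun ξ η => Bs_mix p κ k ξ η)
    (f := fun ξ => g ξ ^ 2) (hm.pow_const 2) (fun ξ => sq_nonneg _)
    (fun ξ hξ => by
      obtain ⟨B, hB⟩ := h2 k a2 ξ hξ a ha
      refine ⟨B ^ 2, fun η => ?_⟩
      show g (mix (bk k) ξ η) ^ 2 ≤ B ^ 2
      rw [hmix ξ hξ η]
      exact sq_le_sq' (abs_le.1 (hB η τ hτ1 hτ2)).1 (abs_le.1 (hB η τ hτ1 hτ2)).2)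
    (V := Lm 1 k)
    (fun ξ hξ => by
      have e1 : ∀ η, g (mix (bk k) ξ η) ^ 2 = Sb P p Γ D κ1 k a τ (mix (bk k) ξ η) ^ 2 :=
        fun η => by rw [hmix ξ hξ η]
      show ∫ η, g (mix (bk k) ξ η) ^ 2 ∂Pm ν ≤ Lm 1 k
      simp only [e1]
      exact h1 k a1 ξ hξ a ha τ hτ1 hτ2)
  rw [← hg]
  have e2 : ∀ ξ, g ξ ^ 2 = (Bs P p Γ D κ k).indicator (fun ξ => g ξ ^ 2) ξ := by
    intro ξ
    by_cases hξ : ξ ∈ Bs P p Γ D κ k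
    · rw [indicator_of_mem hξ]
    · rw [indicator_of_notMem hξ, hg, indicator_of_notMem hξ]
      norm_num
  have e3 : ∫⁻ ξ, ENNReal.ofReal (g ξ ^ 2) ∂(Pm ν) =
      ∫⁻ ξ, ENNReal.ofReal ((Bs P p Γ D κ k).indicator (fun ξ => g ξ ^ 2) ξ) ∂(Pm ν) :=
    lintegral_congr fun ξ => by rw [← e2]
  rw [e3]
  refine hL.trans (ENNReal.ofReal_le_ofReal ?_)
  have h5 := h4 k a4
  rw [one_mul] at h5
  rw [show (k : ℝ) / 2 = 1 / 2 * k by ring]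
  exact h5

end F36
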