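import Pool.Agent.LibBE36F.IFE1
import Pool.Agent.LibBE36F.IFE2

/-! Interface: part E (helper85, helper86): `undet` is in `IFE1`, `wts` in `IFE2`. -/
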