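import Pool.Agent.LibBE36F.BF5
import Pool.Agent.LibBE36F.BF6

/-! ROW BF7 : the moments of the levels over the blocks, almost surely. SHORT/MEDIUM. MODEL: LibBF73/F7.lean (`ae_blocks'`). PLAN. For `i, j, r : ℕ` and rationals `0 < u < v` put `κ = 1/(i+1)`; `δ0` the minimum of those of `ae_Mom`, `mean_block` (for `r` and `2 r`) and `st_of_Mom`, `p` from `exists_Pr`;
`κ1` the minimum of the `κ0`s; `M, R` from `sc_Am (A j)`; the family `fam k i' = sc (A j) (2^i')`, `i' < n k`, `n k` the number of `i'` with `R 2^i' ≤ Lm κ1 k` (bounded by `A (k + 1)`: `2^i' ≤ Lm κ1 k ≤ 2^(A' (k+1))`: `Lm_sub` for large `k` and a constant for the small ones; to avoid small `k` put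
`n k = 0` for `k < k2`). Countable intersection over `(i, j, r, u, v)` (`ae_all_iff`), then `in_block` gives `κ > 0`, choose `i` with `1/(i+1) ≤ κ` (`Bs` is monotone in `κ`). `Mom ξ` is close to its mean (`ae_Mom`), the mean is close to `gaussMom` (`mean_block`), `st_of_Mom`. `BLim` does not mention `R`:
replace `2^i ≤ Lm κ' k` by `κ' < κ1`: `R * 2^i ≤ R * Lm κ' k ≤ Lm κ1 k` (`Lm_lt`). -/

open MeasureTheory Set Filter Topology Mes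
open scoped ContDiff unitInterval

namespace F36

open BGS BR BE B35

variable {Γ : Type} [Group Γ] [MulAction Γ Pl] {D : Set Pl} {P : Dt} {κ : ℝ}
  {ν : ℕ → Measure I}

/-- The moments over the blocks. -/
def BLim (lev : ℕ → ℝ) (A : ℕ → ℝ → ℂ) : Prop :=
  ∀ (j r : ℕ) (u v : ℚ), 0 < u → u < v → ∃ κ1 : ℝ, 0 < κ1 ∧ ∀ ε : ℝ, 0 < ε →
    ∃ (Λ : ℝ) (k0 : ℕ), ∀ k ≥ k0, ∀ i : ℕ, Λ ≤ 2 ^ i → (2 : ℝ) ^ i ≤ Lm κ1 k →
      |1 / (((v : ℝ) - u) * 2 ^ k) * (∫ τ in ((u : ℝ) * 2 ^ k)..((v : ℝ) * 2 ^ k),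
        GWin.st lev (A j) (2 ^ i) τ ^ r) - gaussMom (GWin.vg (A j)) r| ≤ ε

private theorem BF7_B {p : Pr} {κ κ' : ℝ} (h0 : 0 ≤ κ') (h : κ' ≤ κ) (k : ℕ) {ξ : Dir → I}
    (hξ : ξ ∈ Bs P p Γ D κ k) : ξ ∈ Bs P p Γ D κ' k := by
  refine ⟨hξ.1, fun z => ?_⟩
  have h1 := hξ.2 z
  have h2 : κ' ^ 2 ≤ κ ^ 2 := pow_le_pow_left₀ h0 h 2
  linarith

private theorem BF7_zero {M : ℕ → ℝ} (hM : ∀ n, 0 ≤ M n) (ρ : ℝ) : Am M ρ fun _ => 0 where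
  smooth := contDiff_const
  conj := fun t => by simp
  supp := fun t _ => rfl
  bound := fun n t => by
    have h1 : iteratedDeriv n (fun _ : ℝ => (0 : ℂ)) t = 0 := by
      rcases Nat.eq_zero_or_pos n with h | h
      · subst h
        rw [iteratedDeriv_zero]
      · simp [iteratedDeriv_const]
    rw [h1, norm_zero]
    exact hM n

private theorem BF7_one (hP : Ok Γ D P) (hν : Law ν) {a : ℝ → ℂ} (ha : FG33.IsAmp a) (hκ : 0 < κ)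
    {u v : ℝ} (hu : 0 < u) (huv : u < v) (r : ℕ) :
    ∃ (κ1 : ℝ) (p : Pr), 0 < κ1 ∧ p.Ok ∧ ∀ᵐ ξ ∂Pm ν, (∃ k1 : ℕ, ∀ k ≥ k1, ξ ∈ Bs P p Γ D κ k) →
      ∀ m' : Mt Γ D, m'.1.1 = P.X Γ D ξ → ∀ ε : ℝ, 0 < ε →
      ∃ (Λ : ℝ) (k0 : ℕ), ∀ k ≥ k0, ∀ i : ℕ, Λ ≤ 2 ^ i → (2 : ℝ) ^ i ≤ Lm κ1 k →
      |1 / ((v - u) * 2 ^ k) * (∫ τ in (u * 2 ^ k)..(v * 2 ^ k),
        GWin.st (FG33.lam m') a (2 ^ i) τ ^ r) - gaussMom (GWin.vg a) r| ≤ ε := by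
  obtain ⟨δa, hδa, Ha⟩ := ae_Mom hP hν hκ hu huv r
  obtain ⟨δb, hδb, Hb⟩ := ae_Mom hP hν hκ hu huv (2 * r)
  obtain ⟨δc, hδc, Hc⟩ := mean_block hP hν hκ hu huv r
  obtain ⟨δd, hδd, Hd⟩ := mean_block hP hν hκ hu huv (2 * r)
  obtain ⟨δe, hδe, He⟩ := st_of_Mom hP hκ hu huv r
  obtain ⟨p, hp, hpδ⟩ := exists_Pr (lt_min (lt_min hδa hδb) (lt_min (lt_min hδc hδd) hδe))
  have pa : p.δ ≤ δa := hpδ.trans ((min_le_left _ _).trans (min_le_left _ _))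
  have pb : p.δ ≤ δb := hpδ.trans ((min_le_left _ _).trans (min_le_right _ _))
  have pc : p.δ ≤ δc := hpδ.trans ((min_le_right _ _).trans ((min_le_left _ _).trans (min_le_left _ _)))
  have pd : p.δ ≤ δd := hpδ.trans ((min_le_right _ _).trans ((min_le_left _ _).trans (min_le_right _ _)))
  have pe : p.δ ≤ δe := hpδ.trans ((min_le_right _ _).trans (min_le_right _ _))
  obtain ⟨κa, hκa, Ka⟩ := Ha p hp pa
  obtain ⟨κb, hκb, Kb⟩ := Hb p hp pb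
  obtain ⟨κc, hκc, Kc⟩ := Hc p hp pc
  obtain ⟨κd, hκd, Kd⟩ := Hd p hp pd
  obtain ⟨κ', hκ', qa, qb, qc, qd⟩ : ∃ κ' : ℝ, 0 < κ' ∧ κ' ≤ κa ∧ κ' ≤ κb ∧ κ' ≤ κc ∧ κ' ≤ κd :=
    ⟨min (min κa κb) (min κc κd), lt_min (lt_min hκa hκb) (lt_min hκc hκd),
      (min_le_left _ _).trans (min_le_left _ _), (min_le_left _ _).trans (min_le_right _ _),
      (min_le_right _ _).trans (min_le_left _ _), (min_le_right _ _).trans (min_le_right _ _)⟩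
  obtain ⟨M, R, hR, hsupp, hAm⟩ := sc_Am ha
  have hM : ∀ n, 0 ≤ M n := fun n =>
    (norm_nonneg _).trans ((hAm 1 (R * 1) le_rfl le_rfl).bound n 0)
  classical
  let fam : ℕ → ℕ → ℝ → ℂ := fun k i =>
    if R * 2 ^ i ≤ Lm κ' k then GWin.sc a (2 ^ i) else fun _ => 0
  have hfam : ∀ k, ∀ i < k + 1, Am M (Lm κ' k) (fam k i) := by
    intro k i _
    by_cases h : R * 2 ^ i ≤ Lm κ' k
    · have e : fam k i = GWin.sc a (2 ^ i) := if_pos h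
      rw [e]
      exact hAm _ _ (one_le_pow₀ (by norm_num)) h
    · have e : fam k i = fun _ => 0 := if_neg h
      rw [e]
      exact BF7_zero hM _
  have hA := Ka κ' hκ' qa M fam (fun k => k + 1) 1 hfam (fun k => by rw [one_mul])
  have hB := Kb κ' hκ' qb M fam (fun k => k + 1) 1 hfam (fun k => by rw [one_mul])
  refine ⟨κ' / 2, p, half_pos hκ', hp, ?_⟩
  filter_upwards [hA, hB] with ξ hξa hξb hBs m' hm' ε hε
  obtain ⟨k2, hk2⟩ := eventually_atTop.1 (Lm_sub κ' (A := 1) one_pos)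
  have hidx : ∀ k ≥ k2, ∀ i : ℕ, R * 2 ^ i ≤ Lm κ' k → i < k + 1 := by
    intro k hk i hi
    have h1 := hk2 k hk
    rw [one_mul, one_mul, Real.rpow_natCast] at h1
    have h2 : (2 : ℝ) ^ i ≤ R * 2 ^ i := le_mul_of_one_le_left (by positivity) hR
    have h3 : (2 : ℝ) ^ i ≤ 2 ^ k := h2.trans (hi.trans h1)
    have h4 := (pow_le_pow_iff_right₀ (by norm_num : (1 : ℝ) < 2)).1 h3
    omega
  have hyp : ∀ r' ∈ ({r, 2 * r} : Set ℕ), ∀ ε : ℝ, 0 < ε → ∃ (Λ : ℝ) (k0 : ℕ), ∀ k ≥ k0, ∀ i : ℕ,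
      Λ ≤ 2 ^ i → R * 2 ^ i ≤ Lm κ' k →
        |Mom P p Γ D κ' (GWin.sc a (2 ^ i)) r' u v k ξ - gaussMom (GWin.vg a) r'| ≤ ε := by
    have aux : ∀ r' : ℕ, (∀ ε : ℝ, 0 < ε → ∃ k0 : ℕ, ∀ k ≥ k0, ∀ i < k + 1,
        |Mom P p Γ D κ' (fam k i) r' u v k ξ -
          ∫ η, Mom P p Γ D κ' (fam k i) r' u v k (mix (bk k) ξ η) ∂Pm ν| ≤ ε) →
        (∀ ε : ℝ, 0 < ε → ∃ (Λ : ℝ) (k0 : ℕ), ∀ k ≥ k0, ξ ∈ Bs P p Γ D κ k →
          ∀ L : ℝ, Λ ≤ L → R * L ≤ Lm κ' k →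
          |(∫ η, Mom P p Γ D κ' (GWin.sc a L) r' u v k (mix (bk k) ξ η) ∂Pm ν) -
            gaussMom (GWin.vg a) r'| ≤ ε) → ∀ ε : ℝ, 0 < ε → ∃ (Λ : ℝ) (k0 : ℕ), ∀ k ≥ k0, ∀ i : ℕ,
        Λ ≤ 2 ^ i → R * 2 ^ i ≤ Lm κ' k →
        |Mom P p Γ D κ' (GWin.sc a (2 ^ i)) r' u v k ξ - gaussMom (GWin.vg a) r'| ≤ ε := by
      intro r' h1 h2 ε hε
      obtain ⟨k3, h3⟩ := h1 (ε / 2) (half_pos hε)
      obtain ⟨Λ, k4, h4⟩ := h2 (ε / 2) (half_pos hε)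
      obtain ⟨k1, hk1⟩ := hBs
      refine ⟨Λ, max (max k1 k2) (max k3 k4), fun k hk i hi hi' => ?_⟩
      have b1 : k1 ≤ k := ((le_max_left _ _).trans (le_max_left _ _)).trans hk
      have b2 : k2 ≤ k := ((le_max_right _ _).trans (le_max_left _ _)).trans hk
      have b3 : k3 ≤ k := ((le_max_left _ _).trans (le_max_right _ _)).trans hk
      have b4 : k4 ≤ k := ((le_max_right _ _).trans (le_max_right _ _)).trans hk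
      have c1 := h3 k b3 i (hidx k b2 i hi')
      have e : fam k i = GWin.sc a (2 ^ i) := if_pos hi'
      rw [e] at c1
      have c2 := h4 k b4 (hk1 k b1) (2 ^ i) hi hi'
      have c3 := abs_add_le (Mom P p Γ D κ' (GWin.sc a (2 ^ i)) r' u v k ξ -
          ∫ η, Mom P p Γ D κ' (GWin.sc a (2 ^ i)) r' u v k (mix (bk k) ξ η) ∂Pm ν)
        ((∫ η, Mom P p Γ D κ' (GWin.sc a (2 ^ i)) r' u v k (mix (bk k) ξ η) ∂Pm ν) -
            gaussMom (GWin.vg a) r')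
      rw [sub_add_sub_cancel] at c3
      linarith
    intro r' hr'
    rcases hr' with rfl | hr'
    · exact aux r' (hξa hBs) (Kc κ' hκ' qc a ha R hR hsupp ξ m' hm')
    · rw [mem_singleton_iff] at hr'
      subst hr'
      exact aux (2 * r) (hξb hBs) (Kd κ' hκ' qd a ha R hR hsupp ξ m' hm')
  obtain ⟨Λ, k0, hmain⟩ := He p hp pe κ' hκ' a ha R hR hsupp ξ m' hm' hBs hyp ε hε
  obtain ⟨k5, hk5⟩ := eventually_atTop.1 (Lm_lt (half_lt_self hκ') R)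
  refine ⟨Λ, max k0 k5, fun k hk i hi hi' => ?_⟩
  refine hmain k ((le_max_left _ _).trans hk) i hi ?_
  exact (mul_le_mul_of_nonneg_left hi' (by linarith)).trans (hk5 k ((le_max_right _ _).trans hk))

theorem ae_blocks (hP : Ok Γ D P) (hν : Law ν) {A : ℕ → ℝ → ℂ} (hA : ∀ j, FG33.IsAmp (A j)) :
    ∀ᵐ ξ ∂Pm ν, (∀ z, curv (P.X Γ D ξ) z < 0) → ∀ m' : Mt Γ D, m'.1.1 = P.X Γ D ξ →
      BLim (FG33.lam m') A := by
  have h1 : ∀ᵐ ξ ∂Pm ν, ∀ (n j r : ℕ) (q : {q : ℚ × ℚ // 0 < q.1 ∧ q.1 < q.2}),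
      ∃ (κ1 : ℝ) (p : Pr), 0 < κ1 ∧ p.Ok ∧
      ((∃ k1 : ℕ, ∀ k ≥ k1, ξ ∈ Bs P p Γ D (1 / ((n : ℝ) + 1)) k) →
      ∀ m' : Mt Γ D, m'.1.1 = P.X Γ D ξ → ∀ ε : ℝ, 0 < ε →
      ∃ (Λ : ℝ) (k0 : ℕ), ∀ k ≥ k0, ∀ i : ℕ, Λ ≤ 2 ^ i → (2 : ℝ) ^ i ≤ Lm κ1 k →
      |1 / (((q.1.2 : ℝ) - q.1.1) * 2 ^ k) * (∫ τ in ((q.1.1 : ℝ) * 2 ^ k)..((q.1.2 : ℝ) * 2 ^ k),
        GWin.st (FG33.lam m') (A j) (2 ^ i) τ ^ r) - gaussMom (GWin.vg (A j)) r| ≤ ε) := by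
    simp only [ae_all_iff]
    intro n j r q
    have h2 : (0 : ℝ) < q.1.1 := by exact_mod_cast q.2.1
    have h3 : (q.1.1 : ℝ) < q.1.2 := by exact_mod_cast q.2.2
    obtain ⟨κ1, p, hκ1, hp, h4⟩ := BF7_one hP hν (hA j) (κ := 1 / ((n : ℝ) + 1)) (by positivity)
      h2 h3 r
    filter_upwards [h4] with ξ hξ
    exact ⟨κ1, p, hκ1, hp, hξ⟩
  filter_upwards [h1] with ξ hξ hneg m' hm' j r u v hu huv
  obtain ⟨κ, hκ, hb⟩ := in_block hP hneg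
  obtain ⟨n, hn⟩ := exists_nat_one_div_lt hκ
  obtain ⟨κ1, p, hκ1, hp, h5⟩ := hξ n j r ⟨(u, v), hu, huv⟩
  obtain ⟨k1, hk1⟩ := hb p hp
  exact ⟨κ1, hκ1, h5 ⟨k1, fun k hk => BF7_B (by positivity) hn.le k (hk1 k hk)⟩ m' hm'⟩

end F36
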