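import Pool.Agent.LibB35.Defs

/-! BE36: the localised contribution of a closed geodesic (architect helper35). In the blocks
`θ = BE36C.thR h e` and `b = B36.rst F`, `F` entire. -/

open MeasureTheory Set Filter Topology

namespace F36

open BGS BR B35

/-- The contribution of the class of `g` for the metric `m1`, localised to the distance `2 h` of the
axis `(x0, v0)` of the metric `m0`, with the weight `θ`. -/
noncomputable def ZT {Γ : Type} [Group Γ] [MulAction Γ Pl] (m0 m1 : Pl → Co) (θ : ℝ → ℝ) (h : ℝ)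
    (N : ℕ) (b : ℝ → ℂ) (τ : ℝ) (g : Γ) (x0 v0 : Pl) (l0 : ℝ) : ℂ :=
  ∫ s in (0 : ℝ)..l0, ∫ y in (-(2 * h))..(2 * h), ((θ y : ℝ) : ℂ) *
    KE m1 N b τ g (Fm m0 x0 v0 (s, y)) *
    ((√(dt (m1 (Fm m0 x0 v0 (s, y)))) * |(fderiv ℝ (Fm m0 x0 v0) (s, y)).det| : ℝ) : ℂ)

end F36
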