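import Pool.Agent.LibB35.Fam
import Pool.Agent.LibB35.GA
import Pool.Agent.LibBE36T.Defs
import Pool.Agent.LibBE36M.Defs
import Pool.Agent.LibBE36C.TH
import Pool.Agent.LibBE36F.ZT

/-! BE36, definitions of the blocks (architect helper35). The data `P : B35.Dt` are as in BE35: `P.m` is
now the hyperbolic metric `mH`, `P.ψ` contains the logarithm of the conformal factor. -/

open MeasureTheory Set Filter Topology
open scoped ContDiff unitInterval

namespace F36

open BGS BR B35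
open Pool.BGR (upI PM)

/-! ### The coefficients, the blocks -/

/-- The size of the coefficients of the scale `R`: `(x + 1) ^ (-x)`, `x = log (R + 1)`. -/
noncomputable def cn (R : ℕ) : ℝ :=
  Real.exp (-(Real.log (R + 1) * Real.log (Real.log (R + 1) + 1)))

/-- The scale of the block `T = 2 ^ k`; its mesh is `1 / (bk k + 1)`; `cn (bk k)` is about
`2 ^ (-k / 2)`. -/
noncomputable def bk (k : ℕ) : ℕ := ⌈Real.exp (7 / 20 * k / Real.log (k + 2))⌉₊

/-- The exponent of the density of the coefficients of the scale `R`. -/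
noncomputable def Mx (R : ℕ) : ℕ := ⌈cn R ^ (-(1 / 5) : ℝ)⌉₊

/-- The density of the coefficients: `c_M (t (1 - t)) ^ M` on `[0, 1]`. -/
noncomputable def rh (M : ℕ) (t : ℝ) : ℝ :=
  (t * (1 - t)) ^ M / ∫ v in (0 : ℝ)..1, (v * (1 - v)) ^ M

/-- `u` is a continuous map of the unit interval, the image of the Lebesgue measure under `u` has the
density `rh M`. -/
structure Qt (M : ℕ) (u : I → I) : Prop where
  cont : Continuous u
  law : ∀ h : ℝ → ℝ, Continuous h → ∫ t : I, h (u t) = ∫ v in (0 : ℝ)..1, h v * rh M v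

/-- The law of the coefficients. -/
structure Law (ν : ℕ → Measure I) : Prop where
  prob : ∀ R, IsProbabilityMeasure (ν R)
  int : ∀ (R : ℕ) (f : ℝ → ℂ), Continuous f →
    ∫ t : I, f t ∂ν R = ∫ t in (0 : ℝ)..1, (rh (Mx R) t : ℂ) * f t

noncomputable def Pm (ν : ℕ → Measure I) : Measure (Dir → I) :=
  Measure.infinitePi fun d : Dir => ν d.1

/-- Apply the maps `u` to the coordinates. -/
def um (u : ℕ → I → I) (ξ : Dir → I) (d : Dir) : I := u d.1 (ξ d)

/-- The hypotheses on the data. -/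
structure Ok (Γ : Type) [Group Γ] [MulAction Γ Pl] (D : Set Pl) (P : Dt) : Prop where
  cx : BGM.Cx Γ D P.m P.ψ P.L P.c
  ori : Ori Γ
  hyp : B36.Hyp Γ
  hm : HM Γ P.m
  eq : P.m = B36.mH
  c : ∃ s : ℝ, 0 < s ∧ s ≤ 1 ∧ ∀ R, P.c R = s * cn R

/-- The parameters of the mollification: in the block `k` the width is `2 ^ (-δ k)`, the order `n`. -/
structure Pr where
  δ : ℝ
  n : ℕ

/-- The parameters are admissible: the error `2 ^ (-2 n δ k)` of the mollification is at most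
`2 ^ (-100 k)`. -/
structure Pr.Ok (p : Pr) : Prop where
  pos : 0 < p.δ
  le : p.δ ≤ 1 / 40
  big : 50 ≤ p.n * p.δ

/-- The width. -/
noncomputable def Pr.e (p : Pr) (k : ℕ) : ℝ := (2 : ℝ) ^ (-(p.δ * k))

/-- The error of the contour shifts: `exp (-T ^ δ)`. -/
noncomputable def Pr.t (p : Pr) (k : ℕ) : ℝ := Real.exp (-(2 : ℝ) ^ (p.δ * k))

/-- The exponent of the metric of the block `k` (area one). -/
noncomputable def hY (P : Dt) (p : Pr) (Γ : Type) [Group Γ] [MulAction Γ Pl] (D : Set Pl) (k : ℕ)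
    (ξ : Dir → I) (z : Pl) : ℝ := nx D P.m (B36.Mo p.n (p.e k) (BGM.ex Γ P.ψ P.L P.c ξ)) z

/-- The metric of the block `k` (area one). -/
noncomputable def Y (P : Dt) (p : Pr) (Γ : Type) [Group Γ] [MulAction Γ Pl] (D : Set Pl) (k : ℕ)
    (ξ : Dir → I) (z : Pl) : Co := Real.exp (hY P p Γ D k ξ z) • P.m z

/-- The base metric of the block `k`. -/
noncomputable def Y0 (P : Dt) (p : Pr) (Γ : Type) [Group Γ] [MulAction Γ Pl] (D : Set Pl) (k : ℕ)
    (ξ : Dir → I) : Pl → Co := Y P p Γ D k (zer (bk k) ξ)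

/-- The base metric of the block `k` has curvature at most `-κ²`; the width is small. -/
def Bs (P : Dt) (p : Pr) (Γ : Type) [Group Γ] [MulAction Γ Pl] (D : Set Pl) (κ : ℝ) (k : ℕ) :
    Set (Dir → I) := {ξ | 2 ^ p.n * p.e k ≤ 1 ∧ ∀ z, curv (Y0 P p Γ D k ξ) z ≤ -κ ^ 2}

/-! ### The families -/

/-- A bounded smooth function that is the identity on `[-4, 4]`. -/
noncomputable def thd (t : ℝ) : ℝ := t * cut (t / 4)

/-- The indices of the blocks: the parameters, the number of the block, the coefficients, the new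
coefficients of the scale `bk k`. -/
structure Bi (P : Dt) (Γ : Type) [Group Γ] [MulAction Γ Pl] (D : Set Pl) (κ : ℝ) (k0 : ℕ) where
  p : Pr
  k : ℕ
  ξ : Dir → I
  η : Dir → I
  ok : p.Ok
  hk : k0 ≤ k
  hξ : ξ ∈ Bs P p Γ D κ k

/-- The indices of the blocks with a cell of the grid and a factor. -/
structure Bc (P : Dt) (Γ : Type) [Group Γ] [MulAction Γ Pl] (D : Set Pl) (κ : ℝ) (k0 : ℕ) extends
    Bi P Γ D κ k0 where
  c : ℤ × ℤ
  w : ℝ
  hc : c ∈ grid P.L (bk k + 1)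
  w0 : 0 ≤ w
  hw : w ≤ P.c (bk k) ^ (1 / 3 : ℝ)

/-- The path from the base metric of the block `k` to the metric with the coefficients `η`; the
latter is reached at the parameter `√(c n)`, `n = bk k`. -/
noncomputable def sP (P : Dt) (p : Pr) (Γ : Type) [Group Γ] [MulAction Γ Pl] (D : Set Pl) (k : ℕ)
    (ξ η : Dir → I) (e : ℝ × Pl) : ℝ :=
  nx D P.m (B36.Mo p.n (p.e k) fun z => BGM.ex Γ P.ψ P.L P.c (zer (bk k) ξ) z +
    thd e.1 / √(P.c (bk k)) * (BGM.ex Γ P.ψ P.L P.c (mix (bk k) ξ η) z -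
      BGM.ex Γ P.ψ P.L P.c (zer (bk k) ξ) z)) e.2

/-- The dependence on the coefficient `t` of the cell `c`: `w e.1 = c (bk k) t`. -/
noncomputable def sC (P : Dt) (p : Pr) (Γ : Type) [Group Γ] [MulAction Γ Pl] (D : Set Pl) (k : ℕ)
    (ξ η : Dir → I) (c : ℤ × ℤ) (w : ℝ) (e : ℝ × Pl) : ℝ :=
  nx D P.m (B36.Mo p.n (p.e k) fun z => BGM.ex Γ P.ψ P.L P.c (upI (mix (bk k) ξ η) (bk k, c) 0) z +
    thd e.1 * w * per Γ (BGM.bmq (bk k + 1) c) z) e.2

/-! ### The geometric side -/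

/-- The half width and the smoothness of the localisation in the block `k`. -/
noncomputable def dw (k : ℕ) : ℝ := (2 : ℝ) ^ (-((k : ℝ) / 20))
noncomputable def de (k : ℕ) : ℝ := (2 : ℝ) ^ (-((k : ℝ) / 10))

/-- The longest lengths in the block `k`: `(bk k + 1) ^ κ`. -/
noncomputable def Lm (κ : ℝ) (k : ℕ) : ℝ := ((bk k : ℝ) + 1) ^ κ

/-- The number of the terms of the parametrix. -/
noncomputable def Nk (κ : ℝ) (k : ℕ) : ℕ := ⌈Lm (2 * κ) k⌉₊

/-- The amplitudes: one sequence of bounds of the derivatives. -/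
structure Am (M : ℕ → ℝ) (ρ : ℝ) (a : ℝ → ℂ) : Prop where
  smooth : ContDiff ℝ ∞ a
  conj : ∀ t, a (-t) = (starRingEnd ℂ) (a t)
  supp : ∀ t, ρ < |t| → a t = 0
  bound : ∀ n t, ‖iteratedDeriv n a t‖ ≤ M n

open Classical in
/-- A cut-off function of order `N`. -/
noncomputable def chi (N : ℕ) (ρ : ℝ) : ℝ → ℝ :=
  if h : ∃ χ : ℝ → ℝ, B36.CutN N ρ χ then h.choose else fun _ => 0

/-- The entire amplitude of the block `k`, its restriction to the line, the cut amplitude. -/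
noncomputable def Fa (p : Pr) (k : ℕ) (a : ℝ → ℂ) : ℂ → ℂ := B36.mla p.n (p.e k) a

noncomputable def Ra (p : Pr) (k : ℕ) (a : ℝ → ℂ) : ℝ → ℂ := B36.rst (Fa p k a)

noncomputable def Ga (p : Pr) (κ : ℝ) (k : ℕ) (a : ℝ → ℂ) : ℝ → ℂ :=
  B36.cta (chi (Nk κ k + 2) (Lm κ k + 2)) (Fa p k a)

/-- The contribution of the closed geodesic `q` to the metric `m1`. -/
noncomputable def zt {Γ : Type} [Group Γ] [MulAction Γ Pl] (m0 m1 : Pl → Co) (k N : ℕ)
    (b : ℝ → ℂ) (τ : ℝ) (q : Cg Γ) : ℂ :=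
  ZT m0 m1 (BE36C.thR (dw k) (de k)) (dw k) N b τ (gel q) (ax m0 (gpr q)).1 (ax m0 (gpr q)).2
    (lp m0 q.1)

/-- The geometric side in the block `k`. -/
noncomputable def Sb (P : Dt) (p : Pr) (Γ : Type) [Group Γ] [MulAction Γ Pl] (D : Set Pl) (κ : ℝ)
    (k : ℕ) (a : ℝ → ℂ) (τ : ℝ) (ξ : Dir → I) : ℝ :=
  Sg (Γ := Γ) D (Y P p Γ D k ξ) (Nk κ k) (Ga p κ k a) τ

open Classical in
/-- The `r`-th moment of the geometric side over the window `[u T, v T]`, `T = 2 ^ k`. -/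
noncomputable def Mom (P : Dt) (p : Pr) (Γ : Type) [Group Γ] [MulAction Γ Pl] (D : Set Pl) (κ : ℝ)
    (a : ℝ → ℂ) (r : ℕ) (u v : ℝ) (k : ℕ) (ξ : Dir → I) : ℝ :=
  if ∀ z, curv (Y P p Γ D k ξ) z < 0 then
    1 / ((v - u) * 2 ^ k) * ∫ τ in (u * 2 ^ k)..(v * 2 ^ k), Sb P p Γ D κ k a τ ξ ^ r
  else 0

end F36
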