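import Pool.Agent.LibBE36F.Defs

/-! ROW N1a : the coefficients. SHORT/MEDIUM. PLAN. `x = log (R + 1) ≥ 0`, `cn R = exp (-(x log (x + 1)))`; `x log (x + 1)` is nonnegative, monotone (product of two nonnegative monotone
functions) and `x log (x+1) ≥ (B + 1) x` as soon as `log (x + 1) ≥ B + 1`. `cn_Cs`: copy of `BE33.cn_Cs` (LibBE33/G1.lean, 45 lines). `cn_sq`: the same for the square root and the cube root:
`(R+1)^B cn R^(1/3) = exp (B x - x log(x+1)/3) → 0`. -/

open MeasureTheory Set Filter Topology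
open scoped ContDiff unitInterval

namespace F36

open BGS BR B35

theorem cn_pos (R : ℕ) : 0 < cn R := Real.exp_pos _

private theorem N1a_x (R : ℕ) : 0 ≤ Real.log ((R : ℝ) + 1) :=
  Real.log_nonneg (by have : (0 : ℝ) ≤ R := Nat.cast_nonneg R; linarith)

private theorem N1a_y (R : ℕ) : 0 ≤ Real.log (Real.log ((R : ℝ) + 1) + 1) :=
  Real.log_nonneg (by linarith [N1a_x R])

private theorem N1a_lim (B : ℕ) {c : ℝ} (hc : 0 < c) : Tendsto (fun R : ℕ => ((R : ℝ) + 1) ^ B *
    Real.exp (-(Real.log (R + 1) * Real.log (Real.log (R + 1) + 1)) * c)) atTop (𝓝 0) := by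
  have hlog : Tendsto (fun R : ℕ => Real.log ((R : ℝ) + 1)) atTop atTop :=
    Real.tendsto_log_atTop.comp (tendsto_atTop_add_const_right _ _ tendsto_natCast_atTop_atTop)
  have hlog2 : Tendsto (fun R : ℕ => Real.log (Real.log ((R : ℝ) + 1) + 1)) atTop atTop :=
    Real.tendsto_log_atTop.comp (tendsto_atTop_add_const_right _ _ hlog)
  refine squeeze_zero' (Eventually.of_forall fun R => by positivity) ?_
    tendsto_one_div_add_atTop_nhds_zero_nat
  filter_upwards [hlog2.eventually_ge_atTop (((B : ℝ) + 1) / c)] with R hR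
  have hx0 := N1a_x R
  set x := Real.log ((R : ℝ) + 1) with hx
  have hR0 : (0 : ℝ) ≤ R := Nat.cast_nonneg R
  have hR1 : (0 : ℝ) < (R : ℝ) + 1 := by linarith
  have h4 : (B : ℝ) + 1 ≤ Real.log (x + 1) * c := (div_le_iff₀ hc).1 hR
  have h6 : ((B : ℝ) + 1) * x ≤ x * Real.log (x + 1) * c := by
    rw [mul_assoc, mul_comm]
    exact mul_le_mul_of_nonneg_left h4 hx0
  have h7 : ((R : ℝ) + 1) ^ B = Real.exp (B * x) := by
    rw [Real.exp_nat_mul, hx, Real.exp_log hR1]
  have h8 : Real.exp (-(x * Real.log (x + 1)) * c) ≤ Real.exp (-(((B : ℝ) + 1) * x)) := by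
    rw [Real.exp_le_exp]
    linarith
  calc ((R : ℝ) + 1) ^ B * Real.exp (-(x * Real.log (x + 1)) * c)
      ≤ Real.exp (B * x) * Real.exp (-(((B : ℝ) + 1) * x)) := by
        rw [h7]
        exact mul_le_mul_of_nonneg_left h8 (Real.exp_pos _).le
    _ = Real.exp (-x) := by
        rw [← Real.exp_add]
        congr 1
        ring
    _ = 1 / ((R : ℝ) + 1) := by
        rw [Real.exp_neg, hx, Real.exp_log hR1, one_div]

theorem cn_le (R : ℕ) : cn R ≤ 1 := by
  unfold cn
  rw [Real.exp_le_one_iff]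
  have := mul_nonneg (N1a_x R) (N1a_y R)
  linarith

theorem cn_anti : Antitone cn := by
  intro R R' hR
  unfold cn
  rw [Real.exp_le_exp, neg_le_neg_iff]
  have hR' : (R : ℝ) ≤ R' := by exact_mod_cast hR
  have h1 : Real.log ((R : ℝ) + 1) ≤ Real.log ((R' : ℝ) + 1) :=
    Real.log_le_log (by positivity) (by linarith)
  have h2 : Real.log (Real.log ((R : ℝ) + 1) + 1) ≤ Real.log (Real.log ((R' : ℝ) + 1) + 1) :=
    Real.log_le_log (by linarith [N1a_x R]) (by linarith)
  exact mul_le_mul h1 h2 (N1a_y R) (N1a_x R')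

theorem cn_Cs {s : ℝ} (h0 : 0 < s) (h1 : s ≤ 1) : Cs fun R => s * cn R := by
  refine ⟨fun R => mul_pos h0 (cn_pos R), fun R => mul_le_one₀ h1 (cn_pos R).le (cn_le R),
    fun R R' hR => mul_le_mul_of_nonneg_left (cn_anti hR) h0.le, fun B => ?_⟩
  refine squeeze_zero (fun R => mul_nonneg (by positivity) (mul_pos h0 (cn_pos R)).le) (fun R => ?_)
    (N1a_lim B one_pos)
  have hR0 : (0 : ℝ) ≤ R := Nat.cast_nonneg R
  have e1 : Real.exp (-(Real.log (R + 1) * Real.log (Real.log (R + 1) + 1)) * 1) = cn R := by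
    rw [mul_one]
    rfl
  rw [e1]
  refine mul_le_mul (pow_le_pow_left₀ hR0 (by linarith) B) ?_ (mul_pos h0 (cn_pos R)).le
    (by positivity)
  exact mul_le_of_le_one_left (cn_pos R).le h1

theorem cn_third (B : ℕ) : Tendsto (fun R : ℕ => ((R : ℝ) + 1) ^ B * cn R ^ (1 / 3 : ℝ)) atTop
    (𝓝 0) := by
  refine (N1a_lim B (c := 1 / 3) (by norm_num)).congr fun R => ?_
  unfold cn
  rw [← Real.exp_mul]

theorem cn_half (B : ℕ) : Tendsto (fun R : ℕ => ((R : ℝ) + 1) ^ B * √(cn R)) atTop (𝓝 0) := by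
  refine (N1a_lim B (c := 1 / 2) (by norm_num)).congr fun R => ?_
  unfold cn
  rw [Real.sqrt_eq_rpow, ← Real.exp_mul]

end F36
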