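import Pool.Agent.LibBE36F.FA0
import Pool.Agent.LibBE36F.IFM
import Pool.Agent.LibBE36F.N1a
import Pool.Agent.LibBE36F.N1c

/-! ROW FA1 : the path of the block is a family of class `CF`. MEDIUM. MODEL: LibB35/FA1.lean (adapt it). PLAN. `ex_agree`: copy of `B35.F0_agree` (LibB35/FA0.lean, end; there `BE33.G1_agree`, which needs the old `cn`; look for the general statement
in LibBGM20 (`BGM.D2_..`, `BGM.ps_up`) or copy the proof of `BE33.G1_agree` for a general sequence `c` with `Cs c`: replace `fun R => s * BE33.cn R` by `c`).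
`ex_test`: `BGM.D2_smooth` + `ps_mem`. With `B = Mo n e (ex (zer ξ))`, `δ = Mo n e (Sg0 Γ L n (fun p => √(c n) η (n, p)))` and `Mo_add` the exponent of `sP` is `B + thd e.1 * δ`.
Bounds: `FA0_ex`, `FA0_sum` (LibB35/FA0) and `Mo_bd` (uniform in `p`; `2 ^ n e ≤ 1` is in `Bs`). `√c (bk k + 1)^r` is bounded and tends to 0 (`cn_half`, `bk_tendsto`). Curvature: `FA0_neg` with `f = B`, `g = thd t * δ` (`|thd| ≤ 8`),
`Y0 = exp (nx (Mo (ex (zer ξ)))) • m`, hypothesis from `Bs`. -/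

open MeasureTheory Set Filter Topology
open scoped ContDiff unitInterval

namespace F36

open BGS BR BE B35
open Pool.BGR (upI)

variable {Γ : Type} [Group Γ] [MulAction Γ Pl] {D : Set Pl} {P : Dt} {κ : ℝ}

theorem ex_test (hP : Ok Γ D P) (ξ : Dir → I) : BGM.ex Γ P.ψ P.L P.c ξ ∈ Test Γ :=
  BGM.D2_smooth hP.cx ξ

/-- Change of the coefficients of one scale. -/
theorem ex_agree (hP : Ok Γ D P) {n : ℕ} {ζ ζ' : Dir → I} (ha : ∀ d : Dir, d.1 ≠ n → ζ d = ζ' d)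
    (z : Pl) : BGM.ex Γ P.ψ P.L P.c ζ' z = BGM.ex Γ P.ψ P.L P.c ζ z +
      Sg0 Γ P.L n (fun p => P.c n * (((ζ' (n, p) : I) : ℝ) - ζ (n, p))) z := by
  unfold BGM.ex
  rw [add_assoc]
  congr 1
  unfold BGM.ps Sg0
  have h1 : ∀ R' : ℕ, P.c R' * BGM.psR Γ P.L ζ' R' z = P.c R' * BGM.psR Γ P.L ζ R' z +
      (if R' = n then ∑ p ∈ grid P.L (n + 1), P.c n * (((ζ' (n, p) : I) : ℝ) - ζ (n, p)) *
        per Γ (BGM.bmq (n + 1) p) z else 0) := by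
    intro R'
    unfold BGM.psR
    split_ifs with hR
    · subst hR
      rw [Finset.mul_sum, Finset.mul_sum, ← Finset.sum_add_distrib]
      refine Finset.sum_congr rfl fun p _ => ?_
      ring
    · rw [add_zero]
      congr 1
      refine Finset.sum_congr rfl fun p _ => ?_
      rw [ha (R', p) hR]
  rw [tsum_congr h1]
  have h2 : Summable fun R' : ℕ =>
      (if R' = n then ∑ p ∈ grid P.L (n + 1), P.c n * (((ζ' (n, p) : I) : ℝ) - ζ (n, p)) *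
        per Γ (BGM.bmq (n + 1) p) z else 0) :=
    summable_of_ne_finset_zero (s := {n}) fun R' hR' => by
      rw [Finset.mem_singleton] at hR'
      exact if_neg hR'
  rw [(BGM.QH2_summable hP.cx.hX P.L hP.cx.cs ζ z).tsum_add h2, tsum_ite_eq]

private theorem FA1_agr (n : ℕ) (ξ η : Dir → I) (d : Dir) (hd : d.1 ≠ n) :
    zer n ξ d = mix n ξ η d := by
  simp [zer, mix, hd]

/-- The difference of the two exponents, divided by the square root of the coefficient. -/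
private theorem FA1_form (hP : Ok Γ D P) (n : ℕ) (ξ η : Dir → I) (x : ℝ) (z : Pl) :
    x / √(P.c n) * (BGM.ex Γ P.ψ P.L P.c (mix n ξ η) z - BGM.ex Γ P.ψ P.L P.c (zer n ξ) z) =
      x * Sg0 Γ P.L n (fun p => √(P.c n) * ((η (n, p) : I) : ℝ)) z := by
  rw [ex_agree hP (FA1_agr n ξ η) z, add_sub_cancel_left]
  have hc := hP.cx.cs.pos n
  have hs : 0 < √(P.c n) := Real.sqrt_pos.2 hc
  have hss : √(P.c n) * √(P.c n) = P.c n := Real.mul_self_sqrt hc.le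
  have e : Sg0 Γ P.L n (fun p => P.c n * (((mix n ξ η (n, p) : I) : ℝ) - zer n ξ (n, p))) z =
      √(P.c n) * Sg0 Γ P.L n (fun p => √(P.c n) * ((η (n, p) : I) : ℝ)) z := by
    unfold Sg0
    rw [Finset.mul_sum]
    refine Finset.sum_congr rfl fun p _ => ?_
    beta_reduce
    have hz : ((zer n ξ (n, p) : I) : ℝ) = 0 := by simp [zer]
    have hm : mix n ξ η (n, p) = η (n, p) := by simp [mix]
    rw [hz, hm, sub_zero, ← mul_assoc, ← mul_assoc, hss]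
  rw [e, ← mul_assoc, div_mul_cancel₀ _ hs.ne']

/-- The exponent of the path. -/
theorem sP_form (hP : Ok Γ D P) (p : Pr) (k : ℕ) (ξ η : Dir → I) :
    sP P p Γ D k ξ η = fun e => nx D P.m (fun z =>
      B36.Mo p.n (p.e k) (BGM.ex Γ P.ψ P.L P.c (zer (bk k) ξ)) z + thd e.1 *
        B36.Mo p.n (p.e k) (Sg0 Γ P.L (bk k) fun c => √(P.c (bk k)) * ((η (bk k, c) : I) : ℝ)) z)
          e.2 := by
  funext e
  unfold sP
  congr 1
  funext z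
  rw [← Mo_add hP.cx.hX hP.hyp p.n (e_pos p k) (ex_test hP _) (Sg0_test hP.cx.hX _ _ _)]
  congr 1
  funext w
  rw [FA1_form hP]

theorem c_half (hP : Ok Γ D P) (r : ℕ) :
    Tendsto (fun k : ℕ => ((bk k : ℝ) + 1) ^ r * √(P.c (bk k))) atTop (𝓝 0) := by
  obtain ⟨s, hs0, hs1, hc⟩ := hP.c
  have h := ((cn_half r).comp bk_tendsto).const_mul √s
  rw [mul_zero] at h
  refine h.congr fun k => ?_
  show √s * (((bk k : ℝ) + 1) ^ r * √(cn (bk k))) = _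
  rw [hc, Real.sqrt_mul hs0.le]
  ring

theorem c_third (hP : Ok Γ D P) (r : ℕ) :
    Tendsto (fun k : ℕ => ((bk k : ℝ) + 1) ^ r * P.c (bk k) ^ (1 / 3 : ℝ)) atTop (𝓝 0) := by
  obtain ⟨s, hs0, hs1, hc⟩ := hP.c
  have h := ((cn_third r).comp bk_tendsto).const_mul (s ^ (1 / 3 : ℝ))
  rw [mul_zero] at h
  refine h.congr fun k => ?_
  show s ^ (1 / 3 : ℝ) * (((bk k : ℝ) + 1) ^ r * cn (bk k) ^ (1 / 3 : ℝ)) = _
  rw [hc, Real.mul_rpow hs0.le (cn_pos _).le]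
  ring

/-- The exponents of the base metrics and the perturbations, mollified: uniform bounds. -/
theorem Mo_ex_bd (hP : Ok Γ D P) (r : ℕ) : ∃ C : ℝ, 0 ≤ C ∧ ∀ (n : ℕ) (e : ℝ), 0 < e →
    2 ^ n * e ≤ 1 → ∀ (ξ : Dir → I), ∀ j ≤ r, ∀ z ∈ closure D,
      ‖iteratedFDeriv ℝ j (B36.Mo n e (BGM.ex Γ P.ψ P.L P.c ξ)) z‖ ≤ C := by
  obtain ⟨C1, hC1, h1⟩ := FA0_ex hP.cx r
  obtain ⟨C2, hC2, h2⟩ := Mo_bd hP.cx.hX hP.hyp r
  exact ⟨C2 * C1, by positivity, fun n e he hne ξ j hj z hz =>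
    h2 n e he hne _ (ex_test hP ξ) C1 (fun i hi w hw => h1 i hi ξ w hw) j hj z hz⟩

theorem Mo_Sg_bd (hP : Ok Γ D P) (r : ℕ) : ∃ C : ℝ, 0 < C ∧ ∀ (n : ℕ) (e : ℝ), 0 < e →
    2 ^ n * e ≤ 1 → ∀ (R : ℕ) (t : ℤ × ℤ → ℝ) (τ : ℝ), (∀ c, |t c| ≤ τ) → ∀ j ≤ r,
      ∀ z ∈ closure D, ‖iteratedFDeriv ℝ j (B36.Mo n e (Sg0 Γ P.L R t)) z‖ ≤
        C * ((R : ℝ) + 1) ^ (r + 2) * τ := by
  obtain ⟨C1, hC1, h1⟩ := FA0_sum hP.cx.hX P.L r
  obtain ⟨C2, hC2, h2⟩ := Mo_bd hP.cx.hX hP.hyp r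
  refine ⟨(C2 + 1) * C1, by positivity, fun n e he hne R t τ ht j hj z hz => ?_⟩
  have hτ : 0 ≤ τ := (abs_nonneg _).trans (ht (0, 0))
  refine (h2 n e he hne _ (Sg0_test hP.cx.hX _ _ _) (C1 * ((R : ℝ) + 1) ^ (r + 2) * τ)
    (fun i hi w hw => h1 R t τ ht i hi w hw) j hj z hz).trans ?_
  have h3 : 0 ≤ C1 * ((R : ℝ) + 1) ^ (r + 2) * τ := by positivity
  nlinarith

/-- A factor in front of a mollified function: the derivatives. -/
private theorem FA1_smul (x : ℝ) {f : Pl → ℝ} (hf : ContDiff ℝ ∞ f) (j : ℕ) (z : Pl) :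
    ‖iteratedFDeriv ℝ j (fun w => x * f w) z‖ = |x| * ‖iteratedFDeriv ℝ j f z‖ := by
  have h0 : (fun w => x * f w) = x • f := rfl
  rw [h0]
  have h2 : ContDiffAt ℝ j f z := (hf.of_le (by exact_mod_cast le_top)).contDiffAt
  have h1 : iteratedFDeriv ℝ j (x • f) z = x • iteratedFDeriv ℝ j f z :=
    iteratedFDeriv_const_smul_apply h2
  rw [h1, norm_smul, Real.norm_eq_abs]

private theorem FA1_test (x : ℝ) {f : Pl → ℝ} (hf : f ∈ Test Γ) : (fun w => x * f w) ∈ Test Γ :=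
  ⟨contDiff_const.mul hf.1, fun γ z => by
    show x * f (γ • z) = x * f z
    rw [hf.2 γ z]⟩

theorem CF_path (hP : Ok Γ D P) (hκ : 0 < κ) : ∃ (k0 : ℕ) (b : ℝ),
    CF Γ D P.m (κ / 2) b (fun q : Bi P Γ D κ k0 => sP P q.p Γ D q.k q.ξ q.η) := by
  have hX := hP.cx.hX
  obtain ⟨M, hM0, hM⟩ := Mo_ex_bd hP 2
  obtain ⟨ε, b, hε, hneg⟩ := FA0_neg (Γ := Γ) (D := D) hX hP.hm hκ hM0
  obtain ⟨C, hC, hsum⟩ := Mo_Sg_bd hP 2
  have hten : Tendsto (fun k : ℕ => 8 * (C * ((bk k : ℝ) + 1) ^ 4 * √(P.c (bk k)))) atTop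
      (𝓝 0) := by
    have h1 := (c_half hP 4).const_mul (8 * C)
    rw [mul_zero] at h1
    refine h1.congr fun k => ?_
    ring
  obtain ⟨k0, hk0⟩ := eventually_atTop.1 (hten.eventually (Iio_mem_nhds hε))
  refine ⟨k0, b, ?_⟩
  have e : (fun q : Bi P Γ D κ k0 => sP P q.p Γ D q.k q.ξ q.η) =
      fun (q : Bi P Γ D κ k0) (e : ℝ × Pl) => nx D P.m (fun z =>
        B36.Mo q.p.n (q.p.e q.k) (BGM.ex Γ P.ψ P.L P.c (zer (bk q.k) q.ξ)) z + thd e.1 *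
          B36.Mo q.p.n (q.p.e q.k) (Sg0 Γ P.L (bk q.k)
            fun c => √(P.c (bk q.k)) * ((q.η (bk q.k, c) : I) : ℝ)) z) e.2 := by
    funext q
    exact sP_form hP _ _ _ _
  rw [e]
  have hco : ∀ (q : Bi P Γ D κ k0) (p : ℤ × ℤ),
      |√(P.c (bk q.k)) * ((q.η (bk q.k, p) : I) : ℝ)| ≤ √(P.c (bk q.k)) := by
    intro q p
    have h3 := (q.η (bk q.k, p)).2
    rw [abs_mul, abs_of_nonneg (Real.sqrt_nonneg _), abs_of_nonneg h3.1]
    exact mul_le_of_le_one_right (Real.sqrt_nonneg _) h3.2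
  have hBt : ∀ q : Bi P Γ D κ k0,
      B36.Mo q.p.n (q.p.e q.k) (BGM.ex Γ P.ψ P.L P.c (zer (bk q.k) q.ξ)) ∈ Test Γ := fun q =>
    Mo_test hX hP.hyp _ (e_pos _ _) (ex_test hP _)
  have hδt : ∀ q : Bi P Γ D κ k0, B36.Mo q.p.n (q.p.e q.k) (Sg0 Γ P.L (bk q.k)
      fun c => √(P.c (bk q.k)) * ((q.η (bk q.k, c) : I) : ℝ)) ∈ Test Γ := fun q =>
    Mo_test hX hP.hyp _ (e_pos _ _) (Sg0_test hX _ _ _)
  refine CF_gen4 (Γ := Γ) (D := D) hX hP.ori hP.hm (by positivity) hBt hδt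
    (fun k => ?_) (fun k => ?_) fun q t z => ?_
  · obtain ⟨C, -, hC⟩ := Mo_ex_bd hP k
    exact ⟨C, fun q z hz => hC _ _ (e_pos _ _) q.hξ.1 _ k le_rfl z hz⟩
  · obtain ⟨C, hC, h1⟩ := Mo_Sg_bd hP k
    obtain ⟨T, hT⟩ := (c_half hP (k + 2)).bddAbove_range
    refine ⟨C * T, fun q z hz => ?_⟩
    refine (h1 _ _ (e_pos _ _) q.hξ.1 (bk q.k) _ (√(P.c (bk q.k))) (hco q) k le_rfl z hz).trans ?_
    rw [mul_assoc]
    exact mul_le_mul_of_nonneg_left (hT ⟨q.k, rfl⟩) hC.le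
  · refine hneg _ (fun w => thd t * B36.Mo q.p.n (q.p.e q.k) (Sg0 Γ P.L (bk q.k)
      fun c => √(P.c (bk q.k)) * ((q.η (bk q.k, c) : I) : ℝ)) w) (hBt q) (FA1_test _ (hδt q))
      (fun j hj z hz => hM _ _ (e_pos _ _) q.hξ.1 _ j hj z hz) (fun j hj z hz => ?_) q.hξ.2 z
    rw [FA1_smul _ (hδt q).1]
    refine le_trans ?_ (hk0 _ q.hk).le
    exact mul_le_mul (thd_le t) (hsum _ _ (e_pos _ _) q.hξ.1 (bk q.k) _ (√(P.c (bk q.k))) (hco q)
      j hj z hz) (norm_nonneg _) (by norm_num)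

end F36
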