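import Pool.Agent.LibBE36F.BF7
import Pool.Agent.LibB35.Fin1

/-! ROW Fin1 : from the blocks to all windows with `log L = o (log T / log log T)`. SHORT/MEDIUM. PLAN. `dk` is in LibFB23/Defs (`log_le_dk`). Given `L` put `κ k = sSup (L '' {T | 1 ≤ T ∧ dk T = k} ∪ {1})`... For every `κ1 > 0` eventually in `T`: `L T ≤ Lm κ1 (dk T)`:
`Lm κ1 k ≥ exp (7/20 κ1 k / log (k+2))` (`bk k + 1 ≥ exp (..)`), `k = dk T ≥ log T`, `x / log (x + 2)` is increasing for `x ≥ 1`, `log (log T + 2) ≤ 2 log log T`: so `exp (c log T / log log T) ≤ Lm κ1 (dk T)` with `c = 7/40 κ1`. Hence `κ k ≤ Lm κ1 k` for large `k` (`csSup_le`) and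
`L T ≤ κ (dk T)` for large `T` (`le_csSup`, the set is bounded above for large `k`). `FB23.BA lev κ (A j)` from `BLim` and `from_blocks_f` (LibFB23/Fin), then `goe_of_mom` (LibB35/Fin1), `GD.lev`. -/

open MeasureTheory Set Filter Topology Mes
open scoped ContDiff unitInterval

namespace F36

open BGS BR BE B35

variable {Γ : Type} [Group Γ] [MulAction Γ Pl] {D : Set Pl} {P : Dt} {κ : ℝ}
  {ν : ℕ → Measure I}

theorem L_le {L : ℝ → ℝ} (hL : ∀ c : ℝ, 0 < c → ∀ᶠ T in atTop,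
    L T ≤ Real.exp (c * Real.log T / Real.log (Real.log T))) {κ1 : ℝ} (hκ1 : 0 < κ1) :
    ∀ᶠ T in atTop, L T ≤ Lm κ1 (FB23.dk T) := by
  have hlog : Tendsto (fun T : ℝ => Real.log T) atTop atTop := Real.tendsto_log_atTop
  filter_upwards [hL (7 / 40 * κ1) (by positivity), FB23.log_le_dk,
    hlog.eventually_ge_atTop 2] with T h1 h2 h3
  refine h1.trans ?_
  set x := Real.log T with hx
  set k := FB23.dk T with hk
  have hk2 : (2 : ℝ) ≤ k := h3.trans h2
  have hlx : 0 < Real.log x := Real.log_pos (by linarith)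
  have hlx2 : 0 < Real.log (x + 2) := Real.log_pos (by linarith)
  have hlk2 : 0 < Real.log ((k : ℝ) + 2) := Real.log_pos (by linarith)
  have e1 : Real.log (x + 2) ≤ 2 * Real.log x := by
    rw [← Real.log_rpow (by linarith) 2]
    apply Real.log_le_log (by linarith)
    rw [Real.rpow_two]
    nlinarith
  have e2 : 1 ≤ Real.log (x + 2) := by
    rw [Real.le_log_iff_exp_le (by linarith)]
    linarith [Real.exp_one_lt_d9]
  have e3 : Real.log ((k : ℝ) + 2) ≤ Real.log (x + 2) + ((k : ℝ) - x) / (x + 2) := by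
    have h4 : Real.log ((k : ℝ) + 2) - Real.log (x + 2) = Real.log (((k : ℝ) + 2) / (x + 2)) := by
      rw [Real.log_div (by linarith) (by linarith)]
    have h5 := Real.log_le_sub_one_of_pos (x := ((k : ℝ) + 2) / (x + 2))
      (div_pos (by linarith) (by linarith))
    have h6 : ((k : ℝ) + 2) / (x + 2) - 1 = ((k : ℝ) - x) / (x + 2) := by
      have : x + 2 ≠ 0 := by linarith
      field_simp
      ring
    rw [h6] at h5
    linarith
  have e4 : x * Real.log ((k : ℝ) + 2) ≤ k * Real.log (x + 2) := by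
    have h4 : x * (((k : ℝ) - x) / (x + 2)) ≤ (k : ℝ) - x := by
      rw [← mul_div_assoc, div_le_iff₀ (by linarith)]
      nlinarith
    have h5 : (k : ℝ) - x ≤ ((k : ℝ) - x) * Real.log (x + 2) :=
      le_mul_of_one_le_right (by linarith) e2
    have h6 := mul_le_mul_of_nonneg_left e3 (by linarith : 0 ≤ x)
    nlinarith
  have e5 : x / (2 * Real.log x) ≤ k / Real.log ((k : ℝ) + 2) := by
    have h4 : x / Real.log (x + 2) ≤ k / Real.log ((k : ℝ) + 2) := by
      rw [div_le_div_iff₀ hlx2 hlk2]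
      linarith
    exact (div_le_div_of_nonneg_left (by linarith) hlx2 e1).trans h4
  have e6 : Real.exp (7 / 20 * k / Real.log ((k : ℝ) + 2)) ≤ (bk k : ℝ) + 1 :=
    (Nat.le_ceil _).trans (by unfold bk; linarith)
  calc Real.exp (7 / 40 * κ1 * x / Real.log x)
      ≤ Real.exp (7 / 20 * k / Real.log ((k : ℝ) + 2) * κ1) := by
        rw [Real.exp_le_exp]
        have h4 : 7 / 40 * κ1 * x / Real.log x = 7 / 20 * κ1 * (x / (2 * Real.log x)) := by
          field_simp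
          ring
        have h5 : 7 / 20 * k / Real.log ((k : ℝ) + 2) * κ1 =
            7 / 20 * κ1 * (k / Real.log ((k : ℝ) + 2)) := by
          ring
        rw [h4, h5]
        exact mul_le_mul_of_nonneg_left e5 (by positivity)
    _ = Real.exp (7 / 20 * k / Real.log ((k : ℝ) + 2)) ^ κ1 := by
        rw [Real.exp_mul]
    _ ≤ Lm κ1 k := by
        unfold Lm
        exact Real.rpow_le_rpow (Real.exp_pos _).le e6 hκ1.le

theorem goe_of_BLim : ∃ A : ℕ → ℝ → ℂ, (∀ j, FG33.IsAmp (A j)) ∧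
    ∀ (Γ : Type) [Group Γ] [MulAction Γ Pl] (D : Set Pl), Surface Γ D → ∀ m' : Mt Γ D,
      BLim (FG33.lam m') A → ∀ L : ℝ → ℝ, Tendsto L atTop atTop →
      (∀ c : ℝ, 0 < c → ∀ᶠ T in atTop,
        L T ≤ Real.exp (c * Real.log T / Real.log (Real.log T))) → FG33.GOEWindows m' L := by
  obtain ⟨A, hA, hfb⟩ := FB23.from_blocks_f
  refine ⟨A, hA, ?_⟩
  intro Γ _ _ D hX m' hB L hL hLc
  have hlev : GWin.Lev (FG33.lam m') := GD.lev hX m'
  let S : ℕ → Set ℝ := fun k => {y | ∃ T : ℝ, 1 ≤ T ∧ FB23.dk T = k ∧ L T = y}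
  let κf : ℕ → ℝ := fun k => sSup (S k)
  have hbd : ∀ κ1 : ℝ, 0 < κ1 → ∀ᶠ k : ℕ in atTop, (∀ y ∈ S k, y ≤ Lm κ1 k) := by
    intro κ1 hκ1
    obtain ⟨T0, hT0⟩ := eventually_atTop.1 (L_le hLc hκ1)
    have h2 : Tendsto (fun k : ℕ => (2 : ℝ) ^ k) atTop atTop :=
      tendsto_pow_atTop_atTop_of_one_lt (by norm_num)
    filter_upwards [h2.eventually_ge_atTop T0] with k hk
    rintro y ⟨T, hT1, hTk, rfl⟩
    have h3 : T0 ≤ T := by
      refine hk.trans ?_
      rw [← hTk]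
      exact FB23.dk_le hT1
    have h4 := hT0 T h3
    rwa [hTk] at h4
  have hne : ∀ k : ℕ, (S k).Nonempty := by
    intro k
    refine ⟨L (2 ^ k), 2 ^ k, one_le_pow₀ (by norm_num), ?_, rfl⟩
    unfold FB23.dk
    have h1 : ⌊((2 : ℝ) ^ k)⌋₊ = 2 ^ k := by
      have h2 : ((2 : ℝ) ^ k) = ((2 ^ k : ℕ) : ℝ) := by push_cast; rfl
      rw [h2, Nat.floor_natCast]
    rw [h1, Nat.log_pow (by norm_num)]
  have hBA : ∀ j, FB23.BA (FG33.lam m') κf (A j) := by
    intro j r u v hu huv ε hε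
    obtain ⟨κ1, hκ1, h1⟩ := hB j r u v hu huv
    obtain ⟨Λ, k0, h2⟩ := h1 ε hε
    obtain ⟨k1, hk1⟩ := eventually_atTop.1 (hbd κ1 hκ1)
    refine ⟨Λ, max k0 k1, fun k hk i hi hi' => ?_⟩
    refine h2 k ((le_max_left _ _).trans hk) i hi (hi'.trans ?_)
    exact csSup_le (hne k) (hk1 k ((le_max_right _ _).trans hk))
  have hLκ : ∀ᶠ T in atTop, L T ≤ κf (FB23.dk T) := by
    filter_upwards [FB23.dk_tendsto.eventually (hbd 1 one_pos), eventually_ge_atTop 1] with T h1 h2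
    exact le_csSup ⟨_, h1⟩ ⟨T, h2, rfl, rfl⟩
  exact goe_of_mom hlev hL (hfb _ κf hlev hBA L hL hLκ)

/-- All windows, almost surely. -/
theorem ae_all (hP : Ok Γ D P) (hν : Law ν) : ∀ᵐ ξ ∂Pm ν, ∀ m' : Mt Γ D,
    m'.1.1 = P.X Γ D ξ → ∀ L : ℝ → ℝ, Tendsto L atTop atTop →
      (∀ c : ℝ, 0 < c → ∀ᶠ T in atTop,
        L T ≤ Real.exp (c * Real.log T / Real.log (Real.log T))) → FG33.GOEWindows m' L := by
  obtain ⟨A, hA, hfb⟩ := goe_of_BLim
  filter_upwards [ae_blocks hP hν hA] with ξ hξ m' hm' L hL hLc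
  have hneg : ∀ z, curv (P.X Γ D ξ) z < 0 := by
    intro z
    rw [← hm']
    exact m'.2.neg z
  exact hfb Γ D hP.cx.hX m' (hξ hneg m' hm') L hL hLc

end F36
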