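import Pool.Agent.LibBE36M.M12
import Pool.Agent.LibBE36F.GE

/-! Interface: `CH_path`, `CH_cell` (helper73, LibBE36M/M12), `GI_path`, `gk_block`, `u0_block` etc. (helper88, GE). -/
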