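import Pool.Agent.LibBE36F.IFC1
import Pool.Agent.LibBE36F.IFC2

/-! Interface: part C' in the blocks: `C1B` (IFC1), `C2B` (IFC2). -/
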