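import Pool.Agent.LibBE36D.DB6

/-! Interface: part D' (helper66): `decor` is proved in `LibBE36D/DB6`. -/
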