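import Pool.Agent.LibB35.GR10c

/-! ROW GR11 : the moments at ONE fixed time. SHORT/MEDIUM. PLAN. `expand` (GR1) with `r' = 0` (the second factor is 1) gives
`(∑ q, (Z τ ω q).re)^r = ∑ F ∈ Tu (Fin r ⊕ Fin 0) Q, tm (..) F`; integrate term by term (bounded measurable: `size_est`, `HB.meas`; see GR10a). For `F` with `Deg (F ∘ inl)` (`Deg (F ∘ inr)` is trivial) `deg_est`; otherwise `HB.und` at `τ' = τ`: if the third
alternative holds then for every `p` the integer `A = ∑ sgn (n+1)` (`GR9c_A`) satisfies `(τ/T) |A| ≤ θ < u ≤ τ/T`, so `A = 0` and `F` is degenerate: contradiction; the other two: `εD`, or `F ∈ Bd` and `size_est`. Sum: `GR10c_card`, `GR10c_Bd`, `pair_sum` (for the degenerate ones,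
`pair_sum_type`), `DD_mul` with `r' = 0` and `DD Q m0 0 = 1` (`DD_zero` in GL2), `GR10c_num`. Copy the end of the proof of `comb`. -/

open MeasureTheory Set Filter Topology

namespace F36

open B35

private theorem GR11_mem {P0 I : Type} [Fintype I] {Q : Finset (Ag P0)}
    {F : I → Ag P0 × Bool} : F ∈ Tu I Q ↔ ∀ i, (F i).1 ∈ Q := by
  unfold Tu
  simp only [Fintype.mem_piFinset, Finset.mem_product, Finset.mem_univ, and_true]

private theorem GR11_DD {P0 : Type} (Q : Finset (Ag P0)) (M : Ag P0 → ℂ) : DD Q M 0 = 1 := by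
  classical
  unfold DD
  rw [Finset.sum_eq_single_of_mem (Fin.elim0 : Fin 0 → Ag P0 × Bool)]
  · unfold tm
    exact Finset.prod_of_isEmpty _
  · rw [Finset.mem_filter]
    refine ⟨?_, fun p => Finset.sum_eq_zero fun i _ => i.elim0⟩
    rw [GR11_mem]
    exact fun i => i.elim0
  · intro b _ hb
    exact absurd (Subsingleton.elim _ _) hb

/-- the third alternative at one time makes the tuple degenerate -/
private theorem GR11_deg {P0 : Type} {r : ℕ} {u T τ θ : ℝ} (hT : 0 < T) (hθ : θ < u)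
    (hu : 0 < u) (hτ : u * T ≤ τ) (F : Fin r ⊕ Fin 0 → Ag P0 × Bool)
    (c : open Classical in
      ∀ p : P0, |∑ i with (F i).1.1 = p, sgn (F i).2 *
        ((Sum.elim (fun _ => τ) (fun _ => τ) i : ℝ) / T) * ((F i).1.2.1 + 1)| ≤ θ) :
    Deg (F ∘ Sum.inl) ∧ Deg (F ∘ Sum.inr) := by
  classical
  refine ⟨fun p => ?_, fun p => Finset.sum_eq_zero fun i _ => i.elim0⟩
  obtain ⟨A, hA⟩ := GR9c_A (fun i => F (Sum.inl i)) p
  have hτT : u ≤ τ / T := by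
    rw [le_div_iff₀ hT]
    exact hτ
  have hind : |τ / T * (A : ℝ)| ≤ θ := by
    have c1 := c p
    rw [Finset.sum_filter, Fintype.sum_sum_type] at c1
    rw [Finset.sum_eq_zero (s := (Finset.univ : Finset (Fin 0))) (fun i _ => i.elim0),
      add_zero] at c1
    rw [hA, Finset.mul_sum, Finset.sum_filter]
    refine le_trans (le_of_eq ?_) c1
    congr 1
    refine Finset.sum_congr rfl fun i _ => ?_
    by_cases hi : (F (Sum.inl i)).1.1 = p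
    · rw [if_pos hi, if_pos hi]
      simp only [Sum.elim_inl]
      ring
    · rw [if_neg hi, if_neg hi]
  have hA0 : A = 0 := by
    by_contra hne
    have h1 : (1 : ℝ) ≤ |(A : ℝ)| := by
      have h2 : (1 : ℤ) ≤ |A| := Int.one_le_abs hne
      exact_mod_cast h2
    rw [abs_mul, abs_of_nonneg (hu.le.trans hτT)] at hind
    have h3 : u * 1 ≤ τ / T * |(A : ℝ)| := mul_le_mul hτT h1 zero_le_one (hu.le.trans hτT)
    linarith
  rw [hA0, Int.cast_zero] at hA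
  exact hA.symm

theorem comb1 (r : ℕ) {u v : ℝ} (hu : 0 < u) (huv : u < v) : ∃ C : ℝ, 1 ≤ C ∧
    ∀ (P0 Ω : Type) (_ : MeasurableSpace Ω)
    (μ : Measure Ω) (T : ℝ) (Q : Finset (Ag P0)) (w : Ag P0 → ℝ) (V ε ε' εD θ : ℝ)
    (Z : ℝ → Ω → Ag P0 → ℂ) (Mw : Ω → Ag P0 → ℂ) (l : Ω → P0 → ℝ) (m0 : Ag P0 → ℂ)
    (Bd : (Fin r ⊕ Fin 0 → Bool) → Finset (Fin r ⊕ Fin 0 → Ag P0)),
    HB μ u v T r 0 Q w V ε ε' εD θ Z Mw l m0 Bd → ∀ τ : ℝ, u * T ≤ τ → τ ≤ v * T →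
    ‖((∫ ω, (∑ q ∈ Q, (Z τ ω q).re) ^ r ∂μ : ℝ) : ℂ) - DD Q m0 r‖ ≤
      C * V ^ C * (((Q.card : ℝ) + 1) ^ r * (ε' + εD) + ε +
        ∑ e : Fin r ⊕ Fin 0 → Bool, ∑ q ∈ Bd e, ∏ i, w (q i)) := by
  classical
  obtain ⟨C₁, hC₁, hdeg⟩ := deg_est r 0
  obtain ⟨C₂, hC₂, hsize⟩ := size_est r 0
  obtain ⟨C₃, hC₃, hpair⟩ := pair_sum (Fin r ⊕ Fin 0)
  have hN1 : (1 : ℝ) ≤ 2 ^ r := one_le_pow₀ (by norm_num)
  refine ⟨(C₁ + C₂) * C₃ + 2 ^ r * (C₁ + C₂ * (1 + u) + 1) + C₁ + C₂ + C₃, ?_, ?_⟩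
  · obtain ⟨C, hC, hC1, -⟩ := GR10c_num (V := 1) le_rfl hC₁ hC₂ hC₃ hu hN1
    rw [← hC]
    exact hC1
  intro P0 Ω _ μ T Q w V ε ε' εD θ Z Mw l m0 Bd h τ hτ1 hτ2
  obtain ⟨C, hC, hC1, n1, n2, n3, n4, n5⟩ := GR10c_num h.wt.one hC₁ hC₂ hC₃ hu hN1
  rw [← hC]
  have hprob := h.prob
  have hT : 0 < T := lt_of_lt_of_le one_pos h.T_pos
  have hw := h.wt.nonneg
  have hε := h.ε0.1
  have hε' := h.ε1.1
  have hεD := h.εD0
  have hθu := h.θ0.2
  have hV0 : 0 < V := by linarith [h.wt.one]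
  have hS := hsize P0 Ω _ μ u v T Q w V ε ε' εD θ Z Mw l m0 Bd h
  have hD := hdeg P0 Ω _ μ u v T Q w V ε ε' εD θ Z Mw l m0 Bd h
  obtain ⟨a₁, ha₁⟩ : ∃ a₁, a₁ = C₁ * V ^ C₁ := ⟨_, rfl⟩
  obtain ⟨a₂, ha₂⟩ : ∃ a₂, a₂ = C₂ * V ^ C₂ := ⟨_, rfl⟩
  obtain ⟨a₃, ha₃⟩ : ∃ a₃, a₃ = C₃ * V ^ C₃ := ⟨_, rfl⟩
  obtain ⟨A, hA⟩ : ∃ A, A = C * V ^ C := ⟨_, rfl⟩
  have ha₁0 : 0 ≤ a₁ := by rw [ha₁]; positivity
  have ha₂0 : 0 ≤ a₂ := by rw [ha₂]; positivity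
  have ha₃0 : 0 ≤ a₃ := by rw [ha₃]; positivity
  rw [← ha₁, ← ha₃, ← hA] at n1
  rw [← ha₂, ← hA] at n3
  rw [← hA] at n4
  rw [← ha₁, ← ha₂, ← hA] at n5
  rw [← ha₂] at hS
  rw [← ha₁] at hD
  rw [← hA]
  obtain ⟨K, hK⟩ : ∃ K : ℝ, K = ((Q.card : ℝ) + 1) ^ r := ⟨_, rfl⟩
  obtain ⟨B, hB⟩ : ∃ B : ℝ, B = ∑ e : Fin r ⊕ Fin 0 → Bool, ∑ q ∈ Bd e, ∏ i, w (q i) := ⟨_, rfl⟩
  obtain ⟨N, hN⟩ : ∃ N : ℝ, N = 2 ^ r := ⟨_, rfl⟩
  rw [← hN] at n4 n5 hN1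
  rw [← hK, ← hB]
  have hK0 : 0 ≤ K := by rw [hK]; positivity
  have hB0 : 0 ≤ B := by
    rw [hB]
    exact Finset.sum_nonneg fun e _ => Finset.sum_nonneg fun q _ =>
      Finset.prod_nonneg fun _ _ => hw _
  have hcard : ((Tu (Fin r ⊕ Fin 0) Q).card : ℝ) ≤ N * K := by
    have h1 := GR10c_card r 0 Q
    rw [Nat.add_zero] at h1
    rw [hN, hK]
    exact h1
  have hSP : ∑ F ∈ Tu (Fin r ⊕ Fin 0) Q, (if Pair F then wF w F else 0) ≤ a₃ := by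
    have h1 := hpair P0 Q w V h.wt
    rw [Finset.sum_filter] at h1
    rw [ha₃]
    exact h1
  have hSB : ∑ F ∈ Tu (Fin r ⊕ Fin 0) Q,
      (if (fun i => (F i).1) ∈ Bd (fun i => (F i).2) then wF w F else 0) ≤ B := by
    have h1 := GR10c_Bd Q hw Bd
    rw [hB]
    refine h1.trans (le_of_eq (Finset.sum_congr ?_ fun _ _ => rfl))
    ext e
    exact iff_of_true (@Finset.mem_univ _ (_) e) (@Finset.mem_univ _ (_) e)
  have hDD := DD_mul Q m0 r 0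
  rw [Finset.sum_filter, GR11_DD, mul_one] at hDD
  have hint : ∀ F ∈ Tu (Fin r ⊕ Fin 0) Q,
      Integrable (fun ω => tm (fun i => Z (Sum.elim (fun _ => τ) (fun _ => τ) i) ω) F) μ := by
    intro F hF
    refine Integrable.of_bound (C := a₂ * (wF w F + ε')) ?_
      (Eventually.of_forall (hS F hF τ τ hτ1 hτ2 hτ1 hτ2))
    exact ((GR10b_tm h.meas F).comp (measurable_const.prodMk measurable_id :
      Measurable fun ω : Ω => (((τ, τ) : ℝ × ℝ), ω))).aestronglyMeasurable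
  have hsum : ((∫ ω, (∑ q ∈ Q, (Z τ ω q).re) ^ r ∂μ : ℝ) : ℂ) = ∑ F ∈ Tu (Fin r ⊕ Fin 0) Q,
      ∫ ω, tm (fun i => Z (Sum.elim (fun _ => τ) (fun _ => τ) i) ω) F ∂μ := by
    rw [← integral_finsetSum _ hint]
    refine (integral_ofReal (𝕜 := ℂ) (f := fun ω => (∑ q ∈ Q, (Z τ ω q).re) ^ r)).symm.trans ?_
    refine integral_congr_ae (Eventually.of_forall fun ω => ?_)
    have e1 := expand Q (Z τ ω) (Z τ ω) r 0
    rw [pow_zero, mul_one] at e1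
    refine e1.trans (Finset.sum_congr rfl fun F _ => ?_)
    congr 1
    funext i
    cases i <;> rfl
  have hpt : ∀ F ∈ Tu (Fin r ⊕ Fin 0) Q,
      ‖(∫ ω, tm (fun i => Z (Sum.elim (fun _ => τ) (fun _ => τ) i) ω) F ∂μ) -
        (if Deg (F ∘ Sum.inl) ∧ Deg (F ∘ Sum.inr) then tm (fun _ => m0) F else 0)‖ ≤
        (a₁ * ε) * (if Pair F then wF w F else 0) +
        a₂ * (if (fun i => (F i).1) ∈ Bd (fun i => (F i).2) then wF w F else 0) +
        (a₁ * ε' + εD + a₂ * ε') := by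
    intro F hF
    have hwF := GR10c_wF hw F
    have m1 : 0 ≤ a₁ * ε := mul_nonneg ha₁0 hε
    have m3 : 0 ≤ a₂ * ε' := mul_nonneg ha₂0 hε'
    have m5 : 0 ≤ a₁ * ε' := mul_nonneg ha₁0 hε'
    have m9 : 0 ≤ (if (fun i => (F i).1) ∈ Bd (fun i => (F i).2) then wF w F else 0) := by
      split_ifs
      · exact hwF
      · exact le_rfl
    have m10 := mul_nonneg ha₂0 m9
    have m11 : 0 ≤ (if Pair F then wF w F else 0) := by
      split_ifs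
      · exact hwF
      · exact le_rfl
    have m12 := mul_nonneg m1 m11
    by_cases hd : Deg (F ∘ Sum.inl) ∧ Deg (F ∘ Sum.inr)
    · rw [if_pos hd, if_pos (pair_sum_type hd.1 hd.2)]
      have h1 := hD F hF hd.1 hd.2 τ τ hτ1 hτ2 hτ1 hτ2
      have e : (∫ ω, tm (fun i => Z (Sum.elim (fun _ => τ) (fun _ => τ) i) ω) F ∂μ) -
          tm (fun _ => m0) F =
          ∫ ω, (tm (fun i => Z (Sum.elim (fun _ => τ) (fun _ => τ) i) ω) F -
            tm (fun _ => m0) F) ∂μ := by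
        rw [integral_sub (hint F hF) (integrable_const _)]
        simp
      rw [e]
      refine (GR9c_int h.prob _ h1).trans ?_
      have h2 : a₁ * (ε * wF w F + ε') = a₁ * ε * wF w F + a₁ * ε' := by ring
      rw [h2]
      linarith
    · rw [if_neg hd, sub_zero]
      have h1 : ‖∫ ω, tm (fun i => Z (Sum.elim (fun _ => τ) (fun _ => τ) i) ω) F ∂μ‖ ≤
          a₂ * (wF w F + ε') := GR9c_int h.prob _ (hS F hF τ τ hτ1 hτ2 hτ1 hτ2)
      have h2 : a₂ * (wF w F + ε') = a₂ * wF w F + a₂ * ε' := by ring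
      rw [h2] at h1
      rcases h.und F hF τ τ hτ1 hτ2 hτ1 hτ2 with c | c | c
      · linarith
      · rw [if_pos c]
        linarith
      · exact absurd (GR11_deg hT hθu hu hτ1 F c) hd
  have e1 : (a₁ * ε) * (∑ F ∈ Tu (Fin r ⊕ Fin 0) Q, (if Pair F then wF w F else 0)) ≤ A * ε := by
    calc (a₁ * ε) * (∑ F ∈ Tu (Fin r ⊕ Fin 0) Q, (if Pair F then wF w F else 0))
        ≤ (a₁ * ε) * a₃ := mul_le_mul_of_nonneg_left hSP (mul_nonneg ha₁0 hε)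
      _ = (a₁ * a₃) * ε := by ring
      _ ≤ A * ε := mul_le_mul_of_nonneg_right n1 hε
  have e2 : a₂ * (∑ F ∈ Tu (Fin r ⊕ Fin 0) Q,
      (if (fun i => (F i).1) ∈ Bd (fun i => (F i).2) then wF w F else 0)) ≤ A * B :=
    (mul_le_mul_of_nonneg_left hSB ha₂0).trans (mul_le_mul_of_nonneg_right n3 hB0)
  have e3 : ((Tu (Fin r ⊕ Fin 0) Q).card : ℝ) * (a₁ * ε' + εD + a₂ * ε') ≤
      A * (K * (ε' + εD)) := by
    have m3 : 0 ≤ a₂ * ε' := mul_nonneg ha₂0 hε'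
    have m5 : 0 ≤ a₁ * ε' := mul_nonneg ha₁0 hε'
    have t0 : 0 ≤ a₁ * ε' + εD + a₂ * ε' := by linarith
    have t1 : a₁ * ε' + εD + a₂ * ε' ≤ (a₁ + a₂ * (1 + u)) * ε' + εD := by
      have m4 : 0 ≤ a₂ * ε' * u := mul_nonneg m3 hu.le
      have m6 : (a₁ + a₂ * (1 + u)) * ε' + εD = a₁ * ε' + εD + a₂ * ε' + a₂ * ε' * u := by ring
      linarith
    calc ((Tu (Fin r ⊕ Fin 0) Q).card : ℝ) * (a₁ * ε' + εD + a₂ * ε')
        ≤ (N * K) * ((a₁ + a₂ * (1 + u)) * ε' + εD) := mul_le_mul hcard t1 t0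
          (mul_nonneg (by linarith) hK0)
      _ = K * ((N * (a₁ + a₂ * (1 + u))) * ε' + N * εD) := by ring
      _ ≤ K * (A * ε' + A * εD) := mul_le_mul_of_nonneg_left
          (add_le_add (mul_le_mul_of_nonneg_right n5 hε') (mul_le_mul_of_nonneg_right n4 hεD)) hK0
      _ = A * (K * (ε' + εD)) := by ring
  rw [hsum, ← hDD, ← Finset.sum_sub_distrib]
  refine (norm_sum_le _ _).trans ((Finset.sum_le_sum hpt).trans ?_)
  rw [Finset.sum_add_distrib, Finset.sum_add_distrib, ← Finset.mul_sum, ← Finset.mul_sum,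
    Finset.sum_const, nsmul_eq_mul]
  have e4 : A * (K * (ε' + εD) + ε + B) = A * (K * (ε' + εD)) + A * ε + A * B := by
    ring
  rw [e4]
  linarith

end F36
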