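import Pool.Agent.LibBE36F.GQ2a
import Pool.Agent.LibBE36F.A1
import Pool.Agent.LibBE36F.IFC
import Pool.Agent.LibBE36F.IFE
import Pool.Agent.LibB35.GQ2b

/-! ROW GQ2b : the geometric side is the sum of the localised contributions. MEDIUM. MODEL: LibB35/GQ2b.lean (`fact1`). PLAN. `Sb = Sg D (Y mix) N Ga τ`, `Ga_amp` gives `Amp Ga (Lm κ1 k + 3) C`. `Y_mt` (curvature `block_neg`) gives `m' : Mt` with `m'.1.1 = Y (mix)`; `S_fin` with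
`ρ = Lm κ1 k + 3`, `Sg_eq`, `sum_cls` with `Q = Cs (Y0) (Lm (2 κ1) k)`: if `q` is conjugate to `γ ∈ S` then `ln (Y mix) q ≤ Lm κ1 k + 3`... careful: `γ ∈ S` only says that SOME `x ∈ closure D` has `ds x (γ • x) ≤ ρ`, so `ln (Y mix) q ≤ ρ` (`ln_le`),
`ln (Y0) q ≤ 2 ρ ≤ Lm (2 κ1) k` eventually (`ln_cmp`, `Lm_add`, `Lm_lt`: `2 Lm κ1 k + 6 ≤ Lm (2 κ1) k`). `C1B` for every `q ∈ Cs`, `card ≤ exp (C Lm (2 κ1) k)` (`wts`). Order of quantifiers: `δ0` from `C1B`. -/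

open MeasureTheory Set Filter Topology
open scoped ContDiff unitInterval

namespace F36

open BGS BR BE B35

variable {Γ : Type} [Group Γ] [MulAction Γ Pl] {D : Set Pl} {P : Dt} {κ : ℝ}

theorem fact1 (hP : Ok Γ D P) (hκ : 0 < κ) {u v : ℝ} (hu : 0 < u) (huv : u < v) :
    ∃ δ0 : ℝ, 0 < δ0 ∧ ∀ p : Pr, p.Ok → p.δ ≤ δ0 → ∀ κ1 : ℝ, 0 < κ1 → ∀ M : ℕ → ℝ,
    ∃ (C : ℝ) (k0 : ℕ), ∀ k ≥ k0, ∀ ξ ∈ Bs P p Γ D κ k, ∀ (η : Dir → I) (a : ℝ → ℂ),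
      Am M (Lm κ1 k) a → ∀ τ : ℝ, u * 2 ^ k ≤ τ → τ ≤ v * 2 ^ k →
      |Sb P p Γ D κ1 k a τ (mix (bk k) ξ η) -
        ∑ q ∈ Cs (Γ := Γ) (Y0 P p Γ D k ξ) (Lm (2 * κ1) k), (zt (Y0 P p Γ D k ξ)
          (Y P p Γ D k (mix (bk k) ξ η)) k (Nk κ1 k) (Ra p k a) τ q).re| ≤
        Real.exp (C * Lm (2 * κ1) k) * p.t k := by
  classical
  obtain ⟨_, b, hCF⟩ := CF_path hP hκ
  have hX : Surface Γ D := hCF.hX
  have hO : Ori Γ := hCF.hO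
  obtain ⟨δ0, hδ0, hC1⟩ := C1B hP hκ hu huv
  refine ⟨δ0, hδ0, fun p hp hpδ κ1 hκ1 M => ?_⟩
  obtain ⟨C1, k1, h1⟩ := hC1 p hp hpδ κ1 hκ1 M
  obtain ⟨C', k2, hC'1, hwts⟩ := wts hP hκ hp
  obtain ⟨k3, hln⟩ := ln_cmp hP hκ hκ1
  obtain ⟨k4, hneg⟩ := block_neg hP hκ
  obtain ⟨k5, hk5⟩ := eventually_atTop.1 (Lm_lt (κ := κ1) (κ' := 2 * κ1) (by linarith) 8)
  refine ⟨C' + |C1|, max (max k1 k2) (max (max k3 k4) k5), ?_⟩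
  intro k hk ξ hξ η a ha τ hτ1 hτ2
  have hk1 : k1 ≤ k := (le_max_left _ _).trans ((le_max_left _ _).trans hk)
  have hk2 : k2 ≤ k := (le_max_right _ _).trans ((le_max_left _ _).trans hk)
  have hk34 : max (max k3 k4) k5 ≤ k := (le_max_right _ _).trans hk
  have hk3 : k3 ≤ k := (le_max_left _ _).trans ((le_max_left _ _).trans hk34)
  have hk4 : k4 ≤ k := (le_max_right _ _).trans ((le_max_left _ _).trans hk34)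
  have hk5' : k5 ≤ k := (le_max_right _ _).trans hk34
  set μ0 : Pl → Co := Y0 P p Γ D k ξ with hμ0
  set μ : Pl → Co := Y P p Γ D k (mix (bk k) ξ η) with hμ
  have hn1 : ∀ z, curv μ z < 0 := fun z => lt_of_le_of_lt (hneg p hp k hk4 ξ hξ η z) (by
    have : 0 < (κ / 2) ^ 2 := by positivity
    linarith)
  have hm0 : HM Γ μ0 := Y0_hm hP hκ hξ
  have hm1 : HM Γ μ := Y_hm hP p k hn1
  obtain ⟨m', hm'⟩ : ∃ m' : Mt Γ D, m'.1.1 = μ := Y_mt hP p k hn1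
  have hL1 : 1 ≤ Lm κ1 k := Lm_one κ1 hκ1.le k
  have hL2 : 1 ≤ Lm (2 * κ1) k := Lm_one _ (by linarith) k
  have hL8 : 8 * Lm κ1 k ≤ Lm (2 * κ1) k := hk5 k hk5'
  set ρ : ℝ := Lm κ1 k + 3 with hρ
  have hρ0 : 0 ≤ ρ := by linarith
  obtain ⟨Cb, hamp⟩ := Ga_amp hp hκ1.le k ha
  obtain ⟨S, hS1, hS⟩ := S_fin hX hO hm1 hρ0
  have hS' : ∀ γ : Γ, γ ≠ 1 → (∃ z ∈ closure D, BR.ds μ z (γ • z) ≤ ρ) → γ ∈ S :=
    fun γ h1 h2 => (hS γ).2 ⟨h1, h2⟩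
  have hSg : Sb P p Γ D κ1 k a τ (mix (bk k) ξ η) =
      ∑ γ ∈ S, B35.IKN D μ (Nk κ1 k) (osc (Ga p κ1 k a) τ) γ := by
    have h2 := Sg_eq hX hO m' (Nk κ1 k) (b := Ga p κ1 k a) (ρ := ρ) (M := Cb) hρ0 hamp τ
      (S := S) hS1 (by rw [hm']; exact hS')
    rw [hm'] at h2
    exact h2
  have hQ : ∀ q : Cg Γ, (∃ γ ∈ S, IsConj (gel q) γ) → q ∈ Cs (Γ := Γ) μ0 (Lm (2 * κ1) k) := by
    rintro q ⟨γ, hγ, hconj⟩
    obtain ⟨-, z, -, hz⟩ := (hS γ).1 hγ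
    rw [Cs_mem hX hO hm0]
    have h2 : ln μ q ≤ ρ := (ln_le hX hO hm1 hconj z).trans hz
    have h3 : ln μ0 q ≤ 2 * ln μ q := (hln p hp k hk3 ξ hξ η q).1
    linarith
  have hsum := sum_cls hX hO hm1 hS1 hQ
    (fun γ => B35.IKN D μ (Nk κ1 k) (osc (Ga p κ1 k a) τ) γ)
  have hone : ∀ q ∈ Cs (Γ := Γ) μ0 (Lm (2 * κ1) k),
      |(∑ γ ∈ S with IsConj (gel q) γ, B35.IKN D μ (Nk κ1 k) (osc (Ga p κ1 k a) τ) γ) -
        (zt μ0 μ k (Nk κ1 k) (Ra p k a) τ q).re| ≤ C1 * p.t k := by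
    intro q hq
    have hq' : ln μ0 q ≤ Lm (2 * κ1) k := (Cs_mem hX hO hm0).1 hq
    exact h1 k hk1 ξ hξ η a ha τ hτ1 hτ2 q hq' S hS'
  have hcard : ((Cs (Γ := Γ) μ0 (Lm (2 * κ1) k)).card : ℝ) ≤ Real.exp (C' * Lm (2 * κ1) k) :=
    ((hwts k hk2 ξ hξ).2.2 (Lm (2 * κ1) k) hL2).2.1
  have ht0 : 0 ≤ p.t k := (Real.exp_pos _).le
  rw [hSg, hsum, ← Finset.sum_sub_distrib]
  refine (Finset.abs_sum_le_sum_abs _ _).trans ?_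
  refine (Finset.sum_le_sum fun q hq => hone q hq).trans ?_
  rw [Finset.sum_const, nsmul_eq_mul]
  have h2 : C1 * p.t k ≤ Real.exp (|C1| * Lm (2 * κ1) k) * p.t k := by
    refine mul_le_mul_of_nonneg_right ?_ ht0
    have h3 : |C1| * 1 ≤ |C1| * Lm (2 * κ1) k := mul_le_mul_of_nonneg_left hL2 (abs_nonneg _)
    have h4 := Real.add_one_le_exp (|C1| * Lm (2 * κ1) k)
    have h5 := le_abs_self C1
    linarith
  calc ((Cs (Γ := Γ) μ0 (Lm (2 * κ1) k)).card : ℝ) * (C1 * p.t k)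
      ≤ ((Cs (Γ := Γ) μ0 (Lm (2 * κ1) k)).card : ℝ) *
          (Real.exp (|C1| * Lm (2 * κ1) k) * p.t k) :=
        mul_le_mul_of_nonneg_left h2 (Nat.cast_nonneg _)
    _ ≤ Real.exp (C' * Lm (2 * κ1) k) * (Real.exp (|C1| * Lm (2 * κ1) k) * p.t k) :=
        mul_le_mul_of_nonneg_right hcard (mul_nonneg (Real.exp_pos _).le ht0)
    _ = Real.exp ((C' + |C1|) * Lm (2 * κ1) k) * p.t k := by
        rw [← mul_assoc, ← Real.exp_add, add_mul]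

end F36
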