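import Pool.Agent.LibBE36F.A1
import Pool.Agent.LibBE36C.Defs

/-! ROW IC0 : the amplitudes of the block satisfy the hypotheses `AH` of part C'. SHORT/MEDIUM. PLAN. `F = Fa p k a` is `B36.EA` with `ρ = Lm κ1 k`, `M = 5 M 0`, `H = Q = 1/e`, `h = 1/(2^n e)` (`Fa_EA`); put `q = h/2 = 1/(2^(n+1) e)`. `BE36C.EA F Q q ρ (5 M 0)`: `(Q im)^2 - (h max)^2 ≤ Q^2 im^2 - q^2 max^2`.
`CutD`: `cta_tiny` with `k = 0` and `k = 1` (`iteratedDeriv_one`, `deriv (rst F) t = deriv F t` for real `t`: `HasDerivAt.comp_ofReal`): zero for `t ≤ ρ + 2`, and for `s = t - ρ ≥ 2`: `s - 1 ≥ s/2`, so `exp (-(h (s-1))^2) ≤ exp (-q^2 s^2) ≤ exp (-2 q^2) exp (-(q^2/2) s^2)`;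
`κ' = 10 M 0 (2 Q N' + 16 N') exp (-2 q^2)`, `N' = Nk κ1 k + 2`; `κ' ≤ exp (-q^2)` for large `k` (`q^2 = 2^(2δk)/4^(n+1) ≥ 2^(δk)` for large `k`; `t_beats`, `Nk_le`, `Lm_sub`). `AmpN 4`: from `Ga_ampH` (`Nk + 2 ≥ 4`) with `M' = 10 M 0 (2 Q N' + 16 N')^4`; look at the definition of `BE73.AmpN`.
`M' ≤ 2^(k/8)`: `Q^4 = 2^(4δk) ≤ 2^(k/10)`. `q ≥ 1`, `q ≤ Q`, `ρ + 4 ≤ R`: large `k` (`Lm_lt`). -/

open MeasureTheory Set Filter Topology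
open scoped ContDiff unitInterval

namespace F36

open BGS BR B35

/-- The decay of the amplitude. -/
noncomputable def qd (p : Pr) (k : ℕ) : ℝ := 1 / (2 ^ (p.n + 1) * p.e k)

private theorem IC0_H (p : Pr) (k : ℕ) : 1 / p.e k = (2 : ℝ) ^ (p.δ * k) := by
  unfold Pr.e
  rw [Real.rpow_neg zero_le_two, one_div, inv_inv]

private theorem IC0_q (p : Pr) (k : ℕ) : qd p k = (2 : ℝ) ^ (p.δ * k) / 2 ^ (p.n + 1) := by
  unfold qd
  rw [← IC0_H, div_div, mul_comm]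

private theorem IC0_big {p : Pr} (hp : p.Ok) (C : ℝ) : ∀ᶠ k : ℕ in atTop,
    C * (2 : ℝ) ^ (p.δ * k) ≤ qd p k ^ 2 := by
  have h0 : Tendsto (fun k : ℕ => Real.exp (Real.log 2 * (p.δ * k))) atTop atTop :=
    Real.tendsto_exp_atTop.comp ((tendsto_natCast_atTop_atTop.const_mul_atTop hp.pos).const_mul_atTop
      (Real.log_pos one_lt_two))
  filter_upwards [h0.eventually_ge_atTop (C * (2 ^ (p.n + 1)) ^ 2)] with k hk
  rw [← Real.rpow_def_of_pos two_pos] at hk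
  have hX : 0 < (2 : ℝ) ^ (p.δ * k) := Real.rpow_pos_of_pos two_pos _
  rw [IC0_q, div_pow, le_div_iff₀ (by positivity)]
  have h1 := mul_le_mul_of_nonneg_right hk hX.le
  calc C * (2 : ℝ) ^ (p.δ * k) * (2 ^ (p.n + 1)) ^ 2
      = C * (2 ^ (p.n + 1)) ^ 2 * (2 : ℝ) ^ (p.δ * k) := by ring
    _ ≤ (2 : ℝ) ^ (p.δ * k) * (2 : ℝ) ^ (p.δ * k) := h1
    _ = ((2 : ℝ) ^ (p.δ * k)) ^ 2 := by ring

/-- the decay -/
private theorem IC0_dec {h q s m : ℝ} (hq : 0 ≤ q) (hh : h = 2 * q) (hs : 2 ≤ s) (hm : m = s - 1) :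
    Real.exp (-(h * m) ^ 2) ≤ Real.exp (-2 * q ^ 2) * Real.exp (-(q ^ 2 / 2 * s ^ 2)) := by
  rw [← Real.exp_add, Real.exp_le_exp, hh, hm]
  have h1 : s / 2 ≤ s - 1 := by linarith
  have h2 : q * s ≤ 2 * q * (s - 1) := by nlinarith
  have h3 : 0 ≤ q * s := mul_nonneg hq (by linarith)
  have h4 : (q * s) ^ 2 ≤ (2 * q * (s - 1)) ^ 2 := pow_le_pow_left₀ h3 h2 2
  have h5 : 4 ≤ s ^ 2 := by nlinarith
  have h6 : q ^ 2 * 4 ≤ q ^ 2 * s ^ 2 := mul_le_mul_of_nonneg_left h5 (sq_nonneg q)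
  nlinarith

/-- the cut amplitude -/
private theorem IC0_cut {F : ℂ → ℂ} {χ : ℝ → ℝ} {ρ M H h q : ℝ} {N : ℕ} (hF : B36.EA F ρ M H h)
    (hρ : 0 ≤ ρ) (hH : 1 ≤ H) (hq : 0 ≤ q) (hh : h = 2 * q) (hN : 1 ≤ N)
    (hχ : B36.CutN N (ρ + 2) χ) (hM : 0 ≤ M) (hs : Differentiable ℝ (B36.cta χ F)) :
    BE36C.CutD F (B36.cta χ F) q ρ (2 * M * (2 * H * N + 16 * N) * Real.exp (-2 * q ^ 2)) := by
  have hh0 : 0 ≤ h := by
    rw [hh]
    positivity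
  have hNr : (1 : ℝ) ≤ N := by exact_mod_cast hN
  have hB : 1 ≤ 2 * H * N + 16 * N := by nlinarith
  have hκ : 0 ≤ 2 * M * (2 * H * N + 16 * N) * Real.exp (-2 * q ^ 2) := by positivity
  have key : ∀ k : ℕ, k ≤ 1 → ∀ t : ℝ, 0 ≤ t →
      ‖iteratedDeriv k (fun s : ℝ => B36.rst F s - B36.cta χ F s) t‖ ≤
      2 * M * (2 * H * N + 16 * N) * Real.exp (-2 * q ^ 2) *
        Real.exp (-(q ^ 2 / 2 * (max 0 (t - ρ)) ^ 2)) := by
    intro k hk t ht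
    obtain ⟨h1, h2⟩ := B36.cta_tiny hF hρ hH hh0 hχ (hk.trans hN) t
    rw [abs_of_nonneg ht] at h1 h2
    rcases le_or_gt t (ρ + 2) with h3 | h3
    · rw [h1 h3, norm_zero]
      exact mul_nonneg hκ (Real.exp_pos _).le
    · rw [max_eq_right (by linarith : 0 ≤ t - (ρ + 1))] at h2
      rw [max_eq_right (by linarith : 0 ≤ t - ρ)]
      have h4 := IC0_dec hq hh (by linarith : 2 ≤ t - ρ) (by ring : t - (ρ + 1) = t - ρ - 1)
      have h5 : (2 * H * N + 16 * N) ^ k ≤ 2 * H * N + 16 * N := by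
        calc (2 * H * N + 16 * N) ^ k ≤ (2 * H * N + 16 * N) ^ 1 := pow_le_pow_right₀ hB hk
          _ = _ := pow_one _
      refine h2.trans ?_
      calc 2 * M * (2 * H * N + 16 * N) ^ k * Real.exp (-(h * (t - (ρ + 1))) ^ 2)
          ≤ 2 * M * (2 * H * N + 16 * N) *
            (Real.exp (-2 * q ^ 2) * Real.exp (-(q ^ 2 / 2 * (t - ρ) ^ 2))) := by
            refine mul_le_mul (mul_le_mul_of_nonneg_left h5 (by linarith)) h4 (Real.exp_pos _).le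
              (by positivity)
        _ = _ := by ring
  refine ⟨hκ, ?_, ?_⟩
  · intro t ht
    have h1 := key 0 zero_le_one t ht
    rw [iteratedDeriv_zero, norm_sub_rev] at h1
    exact h1
  · intro t ht
    have h1 := key 1 le_rfl t ht
    have h2 : HasDerivAt (B36.rst F) (deriv F (t : ℂ)) t := (hF.diff (t : ℂ)).hasDerivAt.comp_ofReal
    have h3 : deriv (fun s : ℝ => B36.rst F s - B36.cta χ F s) t =
        deriv F (t : ℂ) - deriv (B36.cta χ F) t := (h2.sub (hs t).hasDerivAt).deriv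
    rw [iteratedDeriv_one, h3, norm_sub_rev] at h1
    exact h1

/-- the numbers -/
private theorem IC0_num {p : Pr} (hp : p.Ok) {κ1 : ℝ} (hκ1 : 0 < κ1) (m : ℝ) : ∀ᶠ k : ℕ in atTop,
    1 ≤ qd p k ∧ 2 * (2 : ℝ) ^ (p.δ * k) ≤ qd p k ^ 2 ∧ Lm κ1 k + 4 ≤ Lm (3 * κ1) k ∧
    4 ≤ Nk κ1 k + 2 ∧ (0 ≤ m → 10 * m * (2 * (1 / p.e k) * ((Nk κ1 k + 2 : ℕ) : ℝ) +
      16 * ((Nk κ1 k + 2 : ℕ) : ℝ)) ^ 4 ≤ (2 ^ k : ℝ) ^ (1 / 8 : ℝ)) ∧
    (0 ≤ m → 10 * m * (2 * (1 / p.e k) * ((Nk κ1 k + 2 : ℕ) : ℝ) +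
      16 * ((Nk κ1 k + 2 : ℕ) : ℝ)) ≤ Real.exp (qd p k ^ 2)) := by
  filter_upwards [IC0_big hp 1, IC0_big hp 2, Lm_lt (κ := κ1) (κ' := 3 * κ1) (by linarith) 5,
    Lm_lt (κ := 0) (κ' := 2 * κ1) (by linarith) 2,
    Lm_sub (2 * κ1 * ((4 : ℕ) : ℝ)) (A := 10 * m * 72 ^ 4) (d := 1 / 40) (by norm_num),
    Lm_sub (2 * κ1) (A := 10 * m * 72) (d := p.δ) hp.pos] with k e1 e2 e3 e4 e5 e6
  obtain ⟨X, hX⟩ : ∃ X : ℝ, X = (2 : ℝ) ^ (p.δ * k) := ⟨_, rfl⟩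
  have hk0 : (0 : ℝ) ≤ k := Nat.cast_nonneg k
  have hX1 : 1 ≤ X := by
    rw [hX]
    exact Real.one_le_rpow one_le_two (mul_nonneg hp.pos.le hk0)
  rw [← hX] at e1 e2 e6
  rw [IC0_H, ← hX]
  have hq0 : 0 < qd p k := by
    rw [IC0_q]
    positivity
  have hq1 : 1 ≤ qd p k := by
    by_contra hlt
    push Not at hlt
    nlinarith
  have hL1 := Lm_one κ1 hκ1.le k
  have hL0 := Lm_one 0 le_rfl k
  have hL2 := Lm_one (2 * κ1) (by linarith) k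
  obtain ⟨n1, n2, n3⟩ := Nk_le hκ1.le k
  have hN2 : 2 ≤ Nk κ1 k := by
    have h1 : (2 : ℝ) ≤ Nk κ1 k := by linarith
    exact_mod_cast h1
  obtain ⟨L, hL⟩ : ∃ L, L = Lm (2 * κ1) k := ⟨_, rfl⟩
  obtain ⟨B, hB⟩ : ∃ B : ℝ, B = 2 * X * ((Nk κ1 k + 2 : ℕ) : ℝ) + 16 * ((Nk κ1 k + 2 : ℕ) : ℝ) :=
    ⟨_, rfl⟩
  rw [← hB]
  rw [← hL] at n3 hL2 e6
  have hNc : ((Nk κ1 k + 2 : ℕ) : ℝ) ≤ 4 * L := by
    push_cast
    linarith
  have hNc0 : (0 : ℝ) ≤ ((Nk κ1 k + 2 : ℕ) : ℝ) := Nat.cast_nonneg _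
  have hB0 : 0 ≤ B := by
    rw [hB]
    positivity
  have hBle : B ≤ 72 * (X * L) := by
    have h1 : 16 * ((Nk κ1 k + 2 : ℕ) : ℝ) ≤ 16 * X * ((Nk κ1 k + 2 : ℕ) : ℝ) := by
      have h2 := le_mul_of_one_le_left hNc0 hX1
      linarith
    have h3 : X * ((Nk κ1 k + 2 : ℕ) : ℝ) ≤ X * (4 * L) :=
      mul_le_mul_of_nonneg_left hNc (by linarith)
    rw [hB]
    linarith
  have hL4 : Lm (2 * κ1 * ((4 : ℕ) : ℝ)) k = L ^ 4 := by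
    rw [← Lm_pow, hL, Real.rpow_natCast]
  rw [hL4] at e5
  refine ⟨hq1, e2, by linarith, by omega, ?_, ?_⟩
  · intro hm
    have h1 : B ^ 4 ≤ (72 * (X * L)) ^ 4 := pow_le_pow_left₀ hB0 hBle 4
    have h2 : X ^ 4 ≤ (2 : ℝ) ^ ((1 / 10 : ℝ) * k) := by
      rw [hX, ← Real.rpow_natCast, ← Real.rpow_mul zero_le_two]
      refine Real.rpow_le_rpow_of_exponent_le one_le_two ?_
      have h3 := mul_le_mul_of_nonneg_right hp.le hk0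
      push_cast
      linarith
    have h4 : (2 ^ k : ℝ) ^ (1 / 8 : ℝ) =
        (2 : ℝ) ^ ((1 / 40 : ℝ) * k) * (2 : ℝ) ^ ((1 / 10 : ℝ) * k) := by
      rw [← Real.rpow_add two_pos, ← Real.rpow_natCast 2 k, ← Real.rpow_mul zero_le_two]
      congr 1
      ring
    rw [h4]
    calc 10 * m * B ^ 4 ≤ 10 * m * (72 * (X * L)) ^ 4 :=
          mul_le_mul_of_nonneg_left h1 (by linarith)
      _ = (10 * m * 72 ^ 4 * L ^ 4) * X ^ 4 := by ring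
      _ ≤ (2 : ℝ) ^ ((1 / 40 : ℝ) * k) * (2 : ℝ) ^ ((1 / 10 : ℝ) * k) :=
          mul_le_mul e5 h2 (by positivity) (by positivity)
  · intro hm
    calc 10 * m * B ≤ 10 * m * (72 * (X * L)) := mul_le_mul_of_nonneg_left hBle (by linarith)
      _ = (10 * m * 72 * L) * X := by ring
      _ ≤ X * X := mul_le_mul_of_nonneg_right e6 (by linarith)
      _ ≤ Real.exp X * Real.exp X := by
          have h1 : X ≤ Real.exp X := by linarith [Real.add_one_le_exp X]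
          exact mul_le_mul h1 h1 (by linarith) (Real.exp_pos _).le
      _ = Real.exp (2 * X) := by rw [← Real.exp_add, two_mul]
      _ ≤ Real.exp (qd p k ^ 2) := Real.exp_le_exp.2 e2

theorem AH_block {p : Pr} (hp : p.Ok) {κ1 : ℝ} (hκ1 : 0 < κ1) (M : ℕ → ℝ) : ∃ k0 : ℕ, ∀ k ≥ k0,
    ∀ a : ℝ → ℂ, Am M (Lm κ1 k) a → ∃ M' κ' : ℝ,
      BE36C.AH (Fa p k a) (Ga p κ1 k a) (1 / p.e k) (qd p k) (Lm κ1 k) (Lm (3 * κ1) k) (5 * M 0)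
        M' κ' ∧ BE73.AmpN 4 (Ga p κ1 k a) (Lm κ1 k + 3) M' ∧ 0 ≤ M' ∧
        M' ≤ (2 ^ k : ℝ) ^ (1 / 8 : ℝ) ∧
        κ' ≤ Real.exp (-(qd p k) ^ 2) := by
  obtain ⟨k0, hk0⟩ := eventually_atTop.1 (IC0_num hp hκ1 (M 0))
  refine ⟨k0, fun k hk a ha => ?_⟩
  obtain ⟨hq1, hq2, hR, hN4, hM4, hMe⟩ := hk0 k hk
  have hm := Am_nonneg ha 0
  have hEA := Fa_EA hp hκ1.le k ha
  have hGa := Ga_ampH hp hκ1.le k ha
  have hρ : 0 ≤ Lm κ1 k := zero_le_one.trans (Lm_one κ1 hκ1.le k)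
  have hH : 1 ≤ 1 / p.e k := by
    rw [IC0_H]
    exact Real.one_le_rpow one_le_two (mul_nonneg hp.pos.le (Nat.cast_nonneg k))
  have hh : 1 / (2 ^ p.n * p.e k) = 2 * qd p k := by
    have h1 := e_pos p k
    unfold qd
    rw [pow_succ]
    field_simp
  have hq0 : 0 ≤ qd p k := by linarith
  have hχ : B36.CutN (Nk κ1 k + 2) (Lm κ1 k + 2) (chi (Nk κ1 k + 2) (Lm κ1 k + 2)) :=
    chi_spec (by omega) (by linarith)
  have hdiff : Differentiable ℝ (Ga p κ1 k a) := hGa.smooth.differentiable (by simp)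
  have hcut := IC0_cut hEA hρ hH hq0 hh (by omega) hχ (by linarith) hdiff
  obtain ⟨B, hB⟩ : ∃ B : ℝ, B = 2 * (1 / p.e k) * ((Nk κ1 k + 2 : ℕ) : ℝ) +
    16 * ((Nk κ1 k + 2 : ℕ) : ℝ) := ⟨_, rfl⟩
  rw [← hB] at hGa hM4 hMe hcut
  have hN4r : (4 : ℝ) ≤ ((Nk κ1 k + 2 : ℕ) : ℝ) := by exact_mod_cast hN4
  have hB1 : 1 ≤ B := by
    rw [hB]
    nlinarith
  have hbd : ∀ j ≤ 4, ∀ t, ‖iteratedDeriv j (Ga p κ1 k a) t‖ ≤ 10 * M 0 * B ^ 4 := by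
    intro j hj t
    refine (hGa.bound j (hj.trans hN4) t).trans ?_
    exact mul_le_mul_of_nonneg_left (pow_le_pow_right₀ hB1 hj) (by linarith)
  have hamp : Amp (Ga p κ1 k a) (Lm κ1 k + 3) (10 * M 0 * B ^ 4) :=
    ⟨hGa.smooth, hGa.conj, hGa.supp, hbd⟩
  refine ⟨10 * M 0 * B ^ 4, 2 * (5 * M 0) * B * Real.exp (-2 * qd p k ^ 2),
    ⟨⟨hEA.diff, fun z => ?_⟩, hamp, hcut, hρ, hq1, ?_, hR⟩, ⟨hamp, hbd⟩, by positivity, hM4 hm, ?_⟩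
  · refine (hEA.bound z).trans (mul_le_mul_of_nonneg_left (Real.exp_le_exp.2 ?_) (by linarith))
    rw [hh, mul_pow, mul_pow, mul_pow]
    have h1 : 0 ≤ qd p k ^ 2 * max 0 (|z.re| - Lm κ1 k) ^ 2 := by positivity
    nlinarith
  · rw [IC0_q, IC0_H]
    refine div_le_self (by positivity) ?_
    exact one_le_pow₀ one_le_two
  · have h1 := hMe hm
    have h2 := Real.exp_pos (-2 * qd p k ^ 2)
    calc 2 * (5 * M 0) * B * Real.exp (-2 * qd p k ^ 2)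
        = 10 * M 0 * B * Real.exp (-2 * qd p k ^ 2) := by ring
      _ ≤ Real.exp (qd p k ^ 2) * Real.exp (-2 * qd p k ^ 2) :=
          mul_le_mul_of_nonneg_right h1 h2.le
      _ = Real.exp (-(qd p k) ^ 2) := by
          rw [← Real.exp_add]
          congr 1
          ring

theorem qd_big {p : Pr} (hp : p.Ok) (C : ℝ) : ∀ᶠ k : ℕ in atTop,
    C * (2 : ℝ) ^ (p.δ * k) ≤ qd p k ^ 2 := by
  exact IC0_big hp C

end F36
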