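import Pool.Agent.LibBE36F.IC0
import Pool.Agent.LibBE36F.N1b
import Pool.Agent.LibBE36F.N1c

/-! ROW IC1 : numbers of part C'. MEDIUM, only real analysis. PLAN. `XN N Q R = (N + 2) Q (2 + R)` with `N = Nk κ1 k ≤ 2 Lm (2 κ1) k`, `Q = 1/e = 2^(δk)`, `R = Lm (3 κ1) k`: `XN ≤ 2^(δk) * 20 Lm (5 κ1) k`, so `XN^A ≤ 2^(k/20) (20 Lm (5κ1) k)^A ≤ 2^(k/15)` (`A δ ≤ 1/20`, `Lm_pow`, `Lm_sub`).
`TN_le`: the factor `XN^(A(N+1)) exp (A R) τ Lm (3 κ1) k M''` is at most `exp (C Lm (6 κ1) k + C k)` (`log XN ≤ C k`); `τ δ e / A ≥ u 2^(k - k/20 - k/10)/A ≥ 2^(k/2)`; `τ δ^2 / XN^A ≥ u 2^(9k/10 - k/15) ≥ 2^(k/2)`; `δ^2/(A e^2) = 2^(k/10)/A ≥ 2 * 2^(δk)` (`δ ≤ 1/40`); `q^2 / A ≥ 2 * 2^(δk)`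
(`qd_big`); so the bracket is at most `4 (1 + M'') exp (-(2 * 2^(δ k)))` and `exp (C Lm (5κ1) k + C k) exp (-2^(δk)) ≤ 1/8` (`t_beats`). -/

open MeasureTheory Set Filter Topology
open scoped ContDiff unitInterval

namespace F36

open BGS BR B35

private theorem IC1_e (p : Pr) (k : ℕ) : 1 / p.e k = (2 : ℝ) ^ (p.δ * k) := by
  rw [Pr.e, Real.rpow_neg two_pos.le, one_div, inv_inv]

private theorem IC1_pow2 (k : ℕ) : (2 ^ k : ℝ) = (2 : ℝ) ^ (k : ℝ) := (Real.rpow_natCast 2 k).symm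

/-- the crude bound of the scale -/
private theorem IC1_X {p : Pr} {κ1 : ℝ} (hκ1 : 0 < κ1) (k : ℕ) :
    BE36C.XN (Nk κ1 k) (1 / p.e k) (Lm (3 * κ1) k) ≤ 12 * Lm (5 * κ1) k * (2 : ℝ) ^ (p.δ * k) ∧
      1 ≤ BE36C.XN (Nk κ1 k) (2 ^ (p.δ * k)) (Lm (3 * κ1) k) ∨ p.δ < 0 := by
  rcases lt_or_ge p.δ 0 with h | h
  · exact Or.inr h
  left
  have h1 := Nk_le hκ1.le k
  have h2 : 1 ≤ Lm (2 * κ1) k := Lm_one _ (by linarith) k
  have h3 : 1 ≤ Lm (3 * κ1) k := Lm_one _ (by linarith) k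
  have h4 : Lm (5 * κ1) k = Lm (2 * κ1) k * Lm (3 * κ1) k := by
    rw [← Lm_add]
    congr 1
    ring
  have h5 : (1 : ℝ) ≤ (2 : ℝ) ^ (p.δ * k) := Real.one_le_rpow one_le_two (by positivity)
  have h6 : (0 : ℝ) ≤ (Nk κ1 k : ℝ) := Nat.cast_nonneg _
  constructor
  · rw [IC1_e, BE36C.XN, h4]
    calc ((Nk κ1 k : ℝ) + 2) * (2 : ℝ) ^ (p.δ * k) * (2 + Lm (3 * κ1) k)
        ≤ (4 * Lm (2 * κ1) k) * (2 : ℝ) ^ (p.δ * k) * (3 * Lm (3 * κ1) k) := by
          apply mul_le_mul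
          · exact mul_le_mul_of_nonneg_right (by linarith) (by positivity)
          · linarith
          · linarith
          · positivity
      _ = 12 * (Lm (2 * κ1) k * Lm (3 * κ1) k) * (2 : ℝ) ^ (p.δ * k) := by ring
  · rw [BE36C.XN]
    have a1 : (1 : ℝ) ≤ (Nk κ1 k : ℝ) + 2 := by linarith
    have a2 : (1 : ℝ) ≤ 2 + Lm (3 * κ1) k := by linarith
    calc (1 : ℝ) = 1 * 1 * 1 := by norm_num
      _ ≤ _ := by
        apply mul_le_mul _ a2 (by norm_num) (by positivity)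
        exact mul_le_mul a1 h5 (by norm_num) (by positivity)

private theorem IC1_X' {p : Pr} (hp : p.Ok) {κ1 : ℝ} (hκ1 : 0 < κ1) (k : ℕ) :
    BE36C.XN (Nk κ1 k) (1 / p.e k) (Lm (3 * κ1) k) ≤ 12 * Lm (5 * κ1) k * (2 : ℝ) ^ (p.δ * k) ∧
      1 ≤ BE36C.XN (Nk κ1 k) (1 / p.e k) (Lm (3 * κ1) k) := by
  rcases IC1_X (p := p) hκ1 k with h | h
  · rw [IC1_e] at *
    exact h
  · exact absurd hp.pos (not_lt.2 h.le)

/-- comparison of two exponentials -/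
private theorem IC1_cmp {δ θ : ℝ} (h : δ < θ) (B : ℝ) {c : ℝ} (hc : 0 < c) : ∀ᶠ k : ℕ in atTop,
    B * (2 : ℝ) ^ (δ * k) ≤ c * (2 : ℝ) ^ (θ * k) := by
  have h1 : Tendsto (fun k : ℕ => (2 : ℝ) ^ ((θ - δ) * k)) atTop atTop := by
    have h2 : Tendsto (fun k : ℕ => Real.exp (Real.log 2 * ((θ - δ) * k))) atTop atTop := by
      apply Real.tendsto_exp_atTop.comp
      apply Tendsto.const_mul_atTop (Real.log_pos one_lt_two)
      exact Tendsto.const_mul_atTop (sub_pos.2 h) tendsto_natCast_atTop_atTop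
    refine h2.congr fun k => ?_
    rw [Real.rpow_def_of_pos two_pos]
  filter_upwards [h1.eventually_ge_atTop (B / c)] with k hk
  have h3 : (2 : ℝ) ^ (θ * k) = (2 : ℝ) ^ ((θ - δ) * k) * (2 : ℝ) ^ (δ * k) := by
    rw [← Real.rpow_add two_pos]
    congr 1
    ring
  have h4 : B ≤ c * (2 : ℝ) ^ ((θ - δ) * k) := by
    rw [div_le_iff₀ hc] at hk
    linarith
  rw [h3, ← mul_assoc]
  exact mul_le_mul_of_nonneg_right h4 (Real.rpow_nonneg two_pos.le _)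

theorem XN_le (A : ℕ) {p : Pr} (hp : p.Ok) (hA : (A : ℝ) * p.δ ≤ 1 / 20) {κ1 : ℝ}
    (hκ1 : 0 < κ1) : ∀ᶠ k : ℕ in atTop,
    BE36C.XN (Nk κ1 k) (1 / p.e k) (Lm (3 * κ1) k) ^ A ≤ (2 ^ k : ℝ) ^ (1 / 15 : ℝ) := by
  filter_upwards [Lm_sub (5 * κ1 * A) (A := 12 ^ A) (d := 1 / 60) (by norm_num)] with k hk
  obtain ⟨h1, h2⟩ := IC1_X' hp hκ1 k
  have h3 : 0 ≤ Lm (5 * κ1) k := by linarith [Lm_one (5 * κ1) (by linarith) k]
  calc BE36C.XN (Nk κ1 k) (1 / p.e k) (Lm (3 * κ1) k) ^ A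
      ≤ (12 * Lm (5 * κ1) k * (2 : ℝ) ^ (p.δ * k)) ^ A := pow_le_pow_left₀ (by linarith) h1 A
    _ = (12 ^ A * Lm (5 * κ1 * A) k) * (2 : ℝ) ^ (A * p.δ * k) := by
        rw [mul_pow, mul_pow, ← Real.rpow_natCast (Lm (5 * κ1) k), Lm_pow,
          ← Real.rpow_natCast ((2 : ℝ) ^ (p.δ * k)), ← Real.rpow_mul two_pos.le]
        congr 2
        ring
    _ ≤ (2 : ℝ) ^ (1 / 60 * k : ℝ) * (2 : ℝ) ^ (1 / 20 * k : ℝ) := by
        apply mul_le_mul hk _ (Real.rpow_nonneg two_pos.le _) (Real.rpow_nonneg two_pos.le _)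
        apply Real.rpow_le_rpow_of_exponent_le one_le_two
        exact mul_le_mul_of_nonneg_right hA (Nat.cast_nonneg k)
    _ = (2 ^ k : ℝ) ^ (1 / 15 : ℝ) := by
        rw [← Real.rpow_add two_pos, IC1_pow2, ← Real.rpow_mul two_pos.le]
        congr 1
        ring

theorem TN_le (A : ℕ) (hA1 : 1 ≤ A) {p : Pr} (hp : p.Ok) (hA : (A : ℝ) * p.δ ≤ 1 / 20) {κ1 : ℝ}
    (hκ1 : 0 < κ1) {u v : ℝ} (hu : 0 < u) (huv : u < v) (C : ℝ) : ∀ᶠ k : ℕ in atTop,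
    ∀ M' κ' τ : ℝ, 0 ≤ M' → M' ≤ C * 2 ^ k → 0 ≤ κ' → κ' ≤ Real.exp (-(qd p k) ^ 2) →
      u * 2 ^ k ≤ τ → τ ≤ v * 2 ^ k →
      Lm (3 * κ1) k * BE36C.TN A (Nk κ1 k) (1 / p.e k) (Lm (3 * κ1) k) M' κ' τ (dw k) (de k)
        (qd p k) ≤ p.t k := by
  have hA0 : (0 : ℝ) < A := by exact_mod_cast (by omega : 0 < A)
  have hv : 0 < v := by linarith
  have hδ := hp.le
  obtain ⟨C1, hC1⟩ : ∃ C1 : ℝ, C1 = 4 * A + 3 := ⟨_, rfl⟩
  filter_upwards [XN_le A hp hA hκ1, Lm_sub (5 * κ1) (A := 12) (d := 1 / 2) (by norm_num),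
    k_Lm hκ1 1, Lm_sub (3 * κ1) (A := 1) (d := 1) one_pos, t_beats p hp.pos (3 * κ1) C1 1,
    IC1_cmp (δ := p.δ) (θ := 17 / 20) (by linarith) (2 * A) hu,
    IC1_cmp (δ := p.δ) (θ := 5 / 6) (by linarith) 2 hu,
    IC1_cmp (δ := p.δ) (θ := 1 / 10) (by linarith) (2 * A) one_pos,
    qd_big hp (2 * A), qd_big hp 2,
    IC1_cmp (δ := 0) (θ := 1) one_pos (v * (1 + 4 * |C|)) one_pos] with
    k g1 g2 g3 g4 g5 g6 g7 g8 g9 g10 g11
  intro M' κ' τ hM0 hM1 hκ0 hκ' hτu hτv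
  obtain ⟨x1, x2⟩ := IC1_X' hp hκ1 k
  obtain ⟨X, hX⟩ : ∃ X : ℝ, X = BE36C.XN (Nk κ1 k) (1 / p.e k) (Lm (3 * κ1) k) := ⟨_, rfl⟩
  obtain ⟨L, hL⟩ : ∃ L : ℝ, L = Lm (3 * κ1) k := ⟨_, rfl⟩
  obtain ⟨E, hE⟩ : ∃ E : ℝ, E = (2 : ℝ) ^ (p.δ * k) := ⟨_, rfl⟩
  obtain ⟨T, hT⟩ : ∃ T : ℝ, T = (2 : ℝ) ^ k := ⟨_, rfl⟩
  have hT' : T = (2 : ℝ) ^ (k : ℝ) := by rw [hT, IC1_pow2]
  have hk0 : (0 : ℝ) ≤ k := Nat.cast_nonneg k
  have hT1 : 1 ≤ T := by
    rw [hT]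
    exact one_le_pow₀ one_le_two
  have hTe : T = Real.exp (k * Real.log 2) := by
    rw [hT', Real.rpow_def_of_pos two_pos, mul_comm]
  have hlog2 : Real.log 2 ≤ 1 := by
    have := Real.log_two_lt_d9
    linarith
  have hlog20 : 0 ≤ Real.log 2 := Real.log_nonneg one_le_two
  rw [← hX] at g1 x1 x2
  rw [← hL] at g4 g5
  rw [← hE] at g6 g7 g8 g9 g10 x1
  rw [← hT] at hM1 hτu hτv g1
  have hL1 : 1 ≤ L := by rw [hL]; exact Lm_one _ (by linarith) k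
  have hE1 : 1 ≤ E := by
    rw [hE]
    exact Real.one_le_rpow one_le_two (mul_nonneg hp.pos.le hk0)
  have hX0 : 0 < X := by linarith
  have hXT : X ≤ T := by
    refine x1.trans ?_
    have h1 : E ≤ (2 : ℝ) ^ (1 / 2 * k : ℝ) := by
      rw [hE]
      apply Real.rpow_le_rpow_of_exponent_le one_le_two
      exact mul_le_mul_of_nonneg_right (by linarith) hk0
    calc 12 * Lm (5 * κ1) k * E ≤ (2 : ℝ) ^ (1 / 2 * k : ℝ) * (2 : ℝ) ^ (1 / 2 * k : ℝ) :=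
          mul_le_mul g2 h1 (by linarith) (Real.rpow_nonneg two_pos.le _)
      _ = T := by
          rw [← Real.rpow_add two_pos, hT']
          congr 1
          ring
  have hN := (Nk_le hκ1.le k).2.2
  have hN1 : ((Nk κ1 k : ℝ) + 1) * k ≤ 3 * L := by
    have h2 : 1 ≤ Lm (2 * κ1) k := Lm_one _ (by linarith) k
    have h4 : L = Lm (2 * κ1) k * Lm κ1 k := by
      rw [hL, ← Lm_add]
      congr 1
      ring
    have h5 : (k : ℝ) ≤ Lm κ1 k := by linarith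
    calc ((Nk κ1 k : ℝ) + 1) * k ≤ (3 * Lm (2 * κ1) k) * Lm κ1 k :=
          mul_le_mul (by linarith) h5 hk0 (by linarith)
      _ = 3 * L := by rw [h4]; ring
  have hXp : X ^ (A * (Nk κ1 k + 1)) ≤ Real.exp (3 * A * L) := by
    have h1 : X ^ (A * (Nk κ1 k + 1)) ≤ T ^ (A * (Nk κ1 k + 1)) :=
      pow_le_pow_left₀ hX0.le hXT _
    refine h1.trans ?_
    rw [hTe, ← Real.exp_nat_mul]
    apply Real.exp_le_exp.2
    push_cast
    have h2 : (A : ℝ) * (((Nk κ1 k : ℝ) + 1) * k) ≤ A * (3 * L) :=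
      mul_le_mul_of_nonneg_left hN1 hA0.le
    have h3 : 0 ≤ (A : ℝ) * (((Nk κ1 k : ℝ) + 1) * k) := by positivity
    calc (A : ℝ) * ((Nk κ1 k : ℝ) + 1) * (k * Real.log 2)
        = (A : ℝ) * (((Nk κ1 k : ℝ) + 1) * k) * Real.log 2 := by ring
      _ ≤ (A : ℝ) * (((Nk κ1 k : ℝ) + 1) * k) * 1 := mul_le_mul_of_nonneg_left hlog2 h3
      _ ≤ 3 * A * L := by linarith
  -- the bracket
  obtain ⟨W, hW⟩ : ∃ W : ℝ, W = Real.exp (-(2 * E)) := ⟨_, rfl⟩
  have hW0 : 0 < W := by rw [hW]; exact Real.exp_pos _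
  have hdw : 0 < dw k := Real.rpow_pos_of_pos two_pos _
  have hde : 0 < de k := Real.rpow_pos_of_pos two_pos _
  have r1 : Real.exp (-(τ * dw k * de k / A)) ≤ W := by
    rw [hW]
    apply Real.exp_le_exp.2
    apply neg_le_neg
    rw [le_div_iff₀ hA0]
    have h1 : T * dw k * de k = (2 : ℝ) ^ (17 / 20 * k : ℝ) := by
      rw [hT', dw, de, ← Real.rpow_add two_pos, ← Real.rpow_add two_pos]
      congr 1
      ring
    calc 2 * E * A = 2 * A * E := by ring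
      _ ≤ u * (2 : ℝ) ^ (17 / 20 * k : ℝ) := g6
      _ = u * T * (dw k * de k) := by rw [← h1]; ring
      _ ≤ τ * (dw k * de k) := mul_le_mul_of_nonneg_right hτu (by positivity)
      _ = τ * dw k * de k := by ring
  have r2 : Real.exp (-(τ * dw k ^ 2 / X ^ A)) ≤ W := by
    rw [hW]
    apply Real.exp_le_exp.2
    apply neg_le_neg
    rw [le_div_iff₀ (by positivity)]
    have h1 : T ^ (1 / 15 : ℝ) = (2 : ℝ) ^ (1 / 15 * k : ℝ) := by
      rw [hT', ← Real.rpow_mul two_pos.le]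
      congr 1
      ring
    have h2 : T * dw k ^ 2 = (2 : ℝ) ^ (5 / 6 * k : ℝ) * (2 : ℝ) ^ (1 / 15 * k : ℝ) := by
      rw [hT', dw, ← Real.rpow_natCast, ← Real.rpow_mul two_pos.le, ← Real.rpow_add two_pos,
        ← Real.rpow_add two_pos]
      congr 1
      push_cast
      ring
    calc 2 * E * X ^ A ≤ (u * (2 : ℝ) ^ (5 / 6 * k : ℝ)) * (2 : ℝ) ^ (1 / 15 * k : ℝ) := by
          apply mul_le_mul g7 _ (by positivity) (by positivity)
          rw [← h1]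
          exact g1
      _ = u * T * dw k ^ 2 := by rw [mul_assoc, ← h2]; ring
      _ ≤ τ * dw k ^ 2 := mul_le_mul_of_nonneg_right hτu (by positivity)
  have r3 : Real.exp (-(dw k ^ 2 / (A * de k ^ 2))) ≤ W := by
    rw [hW]
    apply Real.exp_le_exp.2
    apply neg_le_neg
    rw [le_div_iff₀ (by positivity)]
    have h2 : (2 : ℝ) ^ (1 / 10 * k : ℝ) * de k ^ 2 = dw k ^ 2 := by
      rw [dw, de, ← Real.rpow_natCast, ← Real.rpow_natCast, ← Real.rpow_mul two_pos.le,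
        ← Real.rpow_mul two_pos.le, ← Real.rpow_add two_pos]
      congr 1
      push_cast
      ring
    calc 2 * E * (A * de k ^ 2) = (2 * A * E) * de k ^ 2 := by ring
      _ ≤ (1 * (2 : ℝ) ^ (1 / 10 * k : ℝ)) * de k ^ 2 :=
          mul_le_mul_of_nonneg_right g8 (by positivity)
      _ = dw k ^ 2 := by rw [one_mul, h2]
  have r4 : Real.exp (-(qd p k ^ 2 / A)) ≤ W := by
    rw [hW]
    apply Real.exp_le_exp.2
    apply neg_le_neg
    rw [le_div_iff₀ hA0]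
    linarith
  have r5 : κ' ≤ W := by
    refine hκ'.trans ?_
    rw [hW]
    apply Real.exp_le_exp.2
    linarith
  have hCT : M' ≤ |C| * T := hM1.trans (mul_le_mul_of_nonneg_right (le_abs_self C) (by linarith))
  have hbr : κ' + M' * (Real.exp (-(τ * dw k * de k / A)) + Real.exp (-(τ * dw k ^ 2 / X ^ A)) +
      Real.exp (-(dw k ^ 2 / (A * de k ^ 2))) + Real.exp (-(qd p k ^ 2 / A))) ≤
      (1 + 4 * |C|) * T * W := by
    have h1 : M' * (Real.exp (-(τ * dw k * de k / A)) + Real.exp (-(τ * dw k ^ 2 / X ^ A)) +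
      Real.exp (-(dw k ^ 2 / (A * de k ^ 2))) + Real.exp (-(qd p k ^ 2 / A))) ≤
      (|C| * T) * (4 * W) := by
      apply mul_le_mul hCT (by linarith) (by positivity) (by positivity)
    have h2 : W ≤ T * W := le_mul_of_one_le_left hW0.le hT1
    calc _ ≤ W + (|C| * T) * (4 * W) := add_le_add r5 h1
      _ ≤ T * W + (|C| * T) * (4 * W) := by linarith
      _ = _ := by ring
  have hLT : L ≤ T := by
    rw [one_mul, one_mul] at g4
    rw [hT']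
    exact g4
  have hWt : W = p.t k * p.t k := by
    rw [hW, Pr.t, ← hE, ← Real.exp_add]
    congr 1
    ring
  have ht0 : 0 < p.t k := Real.exp_pos _
  have hτ0 : 0 < τ := lt_of_lt_of_le (by positivity) hτu
  rw [BE36C.TN, ← hX, ← hL]
  have hg5 : Real.exp (C1 * L + C1 * k) * p.t k ≤ 1 / T := by
    refine g5.trans (le_of_eq ?_)
    rw [one_mul, Real.rpow_neg two_pos.le, ← hT', one_div]
  have hbig : T * T * T * (Real.exp (3 * A * L) * Real.exp (A * L)) ≤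
      Real.exp (C1 * L + C1 * k) := by
    have h1 : T * T * T = Real.exp (3 * (k * Real.log 2)) := by
      rw [hTe, ← Real.exp_add, ← Real.exp_add]
      congr 1
      ring
    rw [h1, ← Real.exp_add, ← Real.exp_add]
    apply Real.exp_le_exp.2
    rw [hC1]
    have h2 : (k : ℝ) * Real.log 2 ≤ k := by
      have := mul_le_mul_of_nonneg_left hlog2 hk0
      linarith
    have h3 : 0 ≤ (A : ℝ) * k := by positivity
    have h4 : 0 ≤ L := by linarith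
    nlinarith
  have hvT : v * (1 + 4 * |C|) ≤ T := by
    have h1 := g11
    rw [zero_mul, Real.rpow_zero, mul_one, one_mul, one_mul, ← hT'] at h1
    exact h1
  calc L * (X ^ (A * (Nk κ1 k + 1)) * Real.exp (A * L) * τ * (κ' + M' *
      (Real.exp (-(τ * dw k * de k / A)) + Real.exp (-(τ * dw k ^ 2 / X ^ A)) +
      Real.exp (-(dw k ^ 2 / (A * de k ^ 2))) + Real.exp (-(qd p k ^ 2 / A)))))
      ≤ T * (Real.exp (3 * A * L) * Real.exp (A * L) * (v * T) * ((1 + 4 * |C|) * T * W)) := by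
        apply mul_le_mul hLT _ _ (by linarith)
        · apply mul_le_mul _ hbr _ (by positivity)
          · apply mul_le_mul _ hτv hτ0.le (by positivity)
            exact mul_le_mul_of_nonneg_right hXp (Real.exp_pos _).le
          · positivity
        · positivity
    _ = (v * (1 + 4 * |C|)) * (T * T * T * (Real.exp (3 * A * L) * Real.exp (A * L))) * W := by
        ring
    _ ≤ T * Real.exp (C1 * L + C1 * k) * W := by
        apply mul_le_mul_of_nonneg_right _ hW0.le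
        exact mul_le_mul hvT hbig (by positivity) (by linarith)
    _ = T * (Real.exp (C1 * L + C1 * k) * p.t k) * p.t k := by
        rw [hWt]
        ring
    _ ≤ T * (1 / T) * p.t k := by
        apply mul_le_mul_of_nonneg_right _ ht0.le
        exact mul_le_mul_of_nonneg_left hg5 (by linarith)
    _ = p.t k := by
        have : T ≠ 0 := by linarith
        field_simp

theorem DH_block : ∀ᶠ k : ℕ in atTop, BE36C.DH (dw k) (de k) := by
  filter_upwards [eventually_ge_atTop 60] with k hk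
  have hk1 : (60 : ℝ) ≤ k := by exact_mod_cast hk
  refine ⟨Real.rpow_pos_of_pos two_pos _, ?_, Real.rpow_pos_of_pos two_pos _, ?_⟩
  · have h1 : (1 / 8 : ℝ) = (2 : ℝ) ^ (-3 : ℝ) := by
      rw [Real.rpow_neg two_pos.le]
      norm_num
    rw [h1, dw]
    apply Real.rpow_le_rpow_of_exponent_le one_le_two
    linarith
  · rw [dw, de]
    apply Real.rpow_le_rpow_of_exponent_le one_le_two
    linarith

theorem dw_le (A : ℕ) {κ1 : ℝ} (hκ1 : 0 < κ1) : ∀ᶠ k : ℕ in atTop,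
    (2 + Lm (3 * κ1) k) ^ A * dw k ≤ 1 := by
  filter_upwards [Lm_sub (3 * κ1 * A) (A := 3 ^ A) (d := 1 / 20) (by norm_num)] with k hk
  have h3 : 1 ≤ Lm (3 * κ1) k := Lm_one _ (by linarith) k
  have h4 : (2 + Lm (3 * κ1) k) ^ A ≤ (2 : ℝ) ^ (1 / 20 * k : ℝ) := by
    calc (2 + Lm (3 * κ1) k) ^ A ≤ (3 * Lm (3 * κ1) k) ^ A :=
          pow_le_pow_left₀ (by linarith) (by linarith) A
      _ = 3 ^ A * Lm (3 * κ1 * A) k := by
          rw [mul_pow, ← Real.rpow_natCast (Lm (3 * κ1) k), Lm_pow]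
      _ ≤ _ := hk
  calc (2 + Lm (3 * κ1) k) ^ A * dw k ≤ (2 : ℝ) ^ (1 / 20 * k : ℝ) * dw k :=
        mul_le_mul_of_nonneg_right h4 (Real.rpow_pos_of_pos two_pos _).le
    _ = 1 := by
        rw [dw, ← Real.rpow_add two_pos]
        have : (1 / 20 * k + -((k : ℝ) / 20) : ℝ) = 0 := by ring
        rw [this, Real.rpow_zero]

end F36
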